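import Pool.Agent.Lib.MP_c6cae0_co.PB.A1
import Pool.Agent.Lib.MP_c6cae0_co.PB.B1

/-!
PC (power law contraction), definitions. See table papers (helper78, Theorem C). On top of PB/Defs.lean:
`CV G` = a `G`-valued variable with a label on a finite probability space, `S` = sum of two copies, `W` = fibre,
`D(B) = log |G| - H(B | Z)`, `Deg B B'` = the channel of `B'` is a garbling of the channel of `B`.
-/

set_option autoImplicit false

namespace PB

open Finset Pool.Agent.Lib.MP_dd2a7c_co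

noncomputable section

variable {G : Type} [AddCommGroup G]

/-- The sum of two independent labelled variables. -/
def CV.A (X B : CV G) : CV G where
  Ω := X.Ω × B.Ω
  p := prod X.p B.p
  hp := isProb_prod X.hp B.hp
  f := fun x => X.f x.1 + B.f x.2
  L := X.L × B.L
  z := fun x => (X.z x.1, B.z x.2)

/-- The sum of three independent copies. -/
def CV.T (B : CV G) : CV G := B.A B.S

/-- `H(B mod H | Z)`. -/
def CV.hq (B : CV G) (H : AddSubgroup G) : ℝ :=
  ent B.p (fun ω => ((QuotientAddGroup.mk (B.f ω) : G ⧸ H), B.z ω)) - ent B.p B.z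

/-- `D(B mod H) = log [G : H] - H(B mod H | Z)`. -/
def CV.Dq (B : CV G) (H : AddSubgroup G) : ℝ := Real.log (H.index : ℝ) - B.hq H

/-- `B` with the additional label `B mod V`, translated into the group `V`. -/
def CV.res (B : CV G) (V : AddSubgroup G) : CV V where
  Ω := B.Ω
  p := B.p
  hp := B.hp
  f := fun ω => ⟨B.f ω - Quotient.out (QuotientAddGroup.mk (B.f ω) : G ⧸ V), by
    have h : (QuotientAddGroup.mk (Quotient.out (QuotientAddGroup.mk (B.f ω) : G ⧸ V)) : G ⧸ V) =
        QuotientAddGroup.mk (B.f ω) := Quotient.out_eq' _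
    have h' := QuotientAddGroup.eq.1 h
    rwa [neg_add_eq_sub] at h'⟩
  L := (G ⧸ V) × B.L
  z := fun ω => (QuotientAddGroup.mk (B.f ω), B.z ω)

variable [Fintype G]

/-- `I₁(B) = D(SWB) - 2 D(SB) + D(SSB) = I(B₁ + B₃ : B₁ + B₂ | B₁ + B₂ + B₃ + B₄, Z's)`. -/
def CV.I1 (B : CV G) : ℝ := B.W.S.D - 2 * B.S.D + B.S.S.D

/-- `B` is pinned by a proper subgroup. -/
def Pin (B : CV G) : Prop :=
  ∃ H : AddSubgroup G, H ≠ ⊤ ∧ 1 / 2 * Real.log (H.index : ℝ) ≤ B.Dq H

/-- The prior `X`: `D(X mod H) ≤ c log [G : H] + ξ` for all `H`. -/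
def SubX (c ξ : ℝ) (X : CV G) : Prop :=
  ∀ H : AddSubgroup G, X.Dq H ≤ c * Real.log (H.index : ℝ) + ξ

end

end PB
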