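import Pool.Agent.Lib.MP_c6cae0_co.PC.Defs

section

/-!
PC, job L1: lattice and entropy tools for fixed laws. See table papers, Theorem C, part 2.
-/

set_option autoImplicit false

namespace PB

open Finset Pool.Agent.Lib.MP_dd2a7c_co

section tools

variable {G : Type} [AddCommGroup G] [Finite G]

theorem card_mul_relIndex_aux {H K : AddSubgroup G} (h : H ≤ K) :
    Nat.card H * H.relIndex K = Nat.card K := by
  have h1 := AddSubgroup.card_mul_index (H.addSubgroupOf K)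
  have h2 : Nat.card (H.addSubgroupOf K) = Nat.card H :=
    Nat.card_congr (AddSubgroup.addSubgroupOfEquivOfLe h).toEquiv
  rw [h2] at h1
  exact h1

/-- JOB L1. (a) PROOF. `AddSubgroup.card_…`: second isomorphism theorem, or `AddSubgroup.relIndex`; in logarithmic form. -/
theorem log_card_sup (H K : AddSubgroup G) :
    Real.log (Nat.card (H ⊔ K : AddSubgroup G)) + Real.log (Nat.card (H ⊓ K : AddSubgroup G)) =
      Real.log (Nat.card H) + Real.log (Nat.card K) := by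
  have h1 : K.relIndex (H ⊔ K) = K.relIndex H := AddSubgroup.relIndex_sup_right H K
  have h2 : Nat.card K * K.relIndex (H ⊔ K) = Nat.card (H ⊔ K : AddSubgroup G) :=
    card_mul_relIndex_aux le_sup_right
  have h3 : Nat.card (H ⊓ K : AddSubgroup G) * (H ⊓ K).relIndex H = Nat.card H :=
    card_mul_relIndex_aux inf_le_left
  rw [AddSubgroup.inf_relIndex_left] at h3
  rw [h1] at h2
  have hH : (0 : ℝ) < Nat.card H := by exact_mod_cast Nat.card_pos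
  have hK : (0 : ℝ) < Nat.card K := by exact_mod_cast Nat.card_pos
  have hs : (0 : ℝ) < Nat.card (H ⊔ K : AddSubgroup G) := by exact_mod_cast Nat.card_pos
  have hi : (0 : ℝ) < Nat.card (H ⊓ K : AddSubgroup G) := by exact_mod_cast Nat.card_pos
  rw [← Real.log_mul hs.ne' hi.ne', ← Real.log_mul hH.ne' hK.ne']
  congr 1
  rw [← h2, ← h3]
  push_cast
  ring

variable {Ω γ : Type} [Fintype Ω] {p : Ω → ℝ}

/-- the remainder of `t` modulo a section of `G → G ⧸ K` -/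
noncomputable def rmd (K : AddSubgroup G) (x : G) : K :=
  ⟨x - Quotient.out (QuotientAddGroup.mk x : G ⧸ K), by
    have h : (QuotientAddGroup.mk (Quotient.out (QuotientAddGroup.mk x : G ⧸ K)) : G ⧸ K) =
        QuotientAddGroup.mk x := Quotient.out_eq' _
    have h' := QuotientAddGroup.eq.1 h
    rwa [neg_add_eq_sub] at h'⟩

theorem rmd_eq (K : AddSubgroup G) (x : G) :
    x = (rmd K x : G) + Quotient.out (QuotientAddGroup.mk x : G ⧸ K) := by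
  simp [rmd]

/-- (b) `H(T | Y) ≤ H(T mod K | Y) + log |K|`. PROOF. given `(mk t, y)` the variable `t` takes at most `|K|` values (`ent_chain`, `ent_le_log_card`). -/
theorem ent_le_mod (hp : IsProb p) (t : Ω → G) (y : Ω → γ) (K : AddSubgroup G) :
    ent p (fun ω => (t ω, y ω)) ≤
      ent p (fun ω => ((QuotientAddGroup.mk (t ω) : G ⧸ K), y ω)) + Real.log (Nat.card K) := by
  haveI : Fintype K := Fintype.ofFinite K
  have h1 := ent_pair_le hp (fun ω => ((QuotientAddGroup.mk (t ω) : G ⧸ K), y ω))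
    (fun ω => rmd K (t ω))
  have h2 := ent_le_log_card hp (fun ω => rmd K (t ω)) Finset.univ (fun _ _ => Finset.mem_univ _)
  rw [Finset.card_univ, ← Nat.card_eq_fintype_card] at h2
  have h3 : ent p (fun ω => (t ω, y ω)) ≤
      ent p (fun ω => (((QuotientAddGroup.mk (t ω) : G ⧸ K), y ω), rmd K (t ω))) := by
    refine ent_mono hp _ _ fun ω ω' _ _ e => ?_
    simp only [Prod.mk.injEq] at e ⊢
    refine ⟨?_, e.1.2⟩
    rw [rmd_eq K (t ω), rmd_eq K (t ω'), e.2, e.1.1]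
  linarith

/-- (c) `H(T mod K | Y) ≤ H(T mod K' | Y) + log |K'| - log |K|` for `K ≤ K'`. PROOF. As (b), `[K' : K]` values. -/
theorem ent_mod_le_mod (hp : IsProb p) (t : Ω → G) (y : Ω → γ) {K K' : AddSubgroup G} (h : K ≤ K') :
    ent p (fun ω => ((QuotientAddGroup.mk (t ω) : G ⧸ K), y ω)) ≤
      ent p (fun ω => ((QuotientAddGroup.mk (t ω) : G ⧸ K'), y ω)) +
        (Real.log (Nat.card K') - Real.log (Nat.card K)) := by
  haveI : Finite (K' ⧸ K.addSubgroupOf K') := Quotient.finite _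
  haveI : Fintype (K' ⧸ K.addSubgroupOf K') := Fintype.ofFinite _
  let r : Ω → K' ⧸ K.addSubgroupOf K' := fun ω => QuotientAddGroup.mk (rmd K' (t ω))
  have h1 := ent_pair_le hp (fun ω => ((QuotientAddGroup.mk (t ω) : G ⧸ K'), y ω)) r
  have h2 := ent_le_log_card hp r Finset.univ (fun _ _ => Finset.mem_univ _)
  rw [Finset.card_univ, ← Nat.card_eq_fintype_card] at h2
  have h4 : Nat.card K * Nat.card (K' ⧸ K.addSubgroupOf K') = Nat.card K' :=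
    card_mul_relIndex_aux h
  have hK : (0 : ℝ) < Nat.card K := by exact_mod_cast Nat.card_pos
  have hq : (0 : ℝ) < Nat.card (K' ⧸ K.addSubgroupOf K') := by exact_mod_cast Nat.card_pos
  have h5 : Real.log (Nat.card K') =
      Real.log (Nat.card K) + Real.log (Nat.card (K' ⧸ K.addSubgroupOf K')) := by
    rw [← Real.log_mul hK.ne' hq.ne', ← h4]
    push_cast
    rfl
  have h3 : ent p (fun ω => ((QuotientAddGroup.mk (t ω) : G ⧸ K), y ω)) ≤
      ent p (fun ω => (((QuotientAddGroup.mk (t ω) : G ⧸ K'), y ω), r ω)) := by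
    refine ent_mono hp _ _ fun ω ω' _ _ e => ?_
    simp only [Prod.mk.injEq] at e ⊢
    refine ⟨?_, e.1.2⟩
    have e1 := QuotientAddGroup.eq.1 e.2
    rw [AddSubgroup.mem_addSubgroupOf] at e1
    rw [QuotientAddGroup.eq]
    have e2 : -t ω + t ω' = -(rmd K' (t ω) : G) + (rmd K' (t ω') : G) := by
      conv_lhs => rw [rmd_eq K' (t ω), rmd_eq K' (t ω'), e.1.1]
      abel
    rw [e2]
    simpa using e1
  linarith

/-- (d) `H(T mod (K ⊓ K') | Y) ≤ H(T mod K | Y) + H(T mod K' | Y)`. PROOF. `submod'` over `y`; the two classes determine the class modulo the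
intersection. -/
theorem ent_mod_inf (hp : IsProb p) (t : Ω → G) (y : Ω → γ) (K K' : AddSubgroup G) :
    ent p (fun ω => ((QuotientAddGroup.mk (t ω) : G ⧸ (K ⊓ K' : AddSubgroup G)), y ω)) + ent p y ≤
      ent p (fun ω => ((QuotientAddGroup.mk (t ω) : G ⧸ K), y ω)) +
        ent p (fun ω => ((QuotientAddGroup.mk (t ω) : G ⧸ K'), y ω)) := by
  refine submod' hp _ _ y _ (fun ω ω' e => (Prod.mk.inj e).2) (fun ω ω' e => (Prod.mk.inj e).2)
    (fun ω ω' _ _ e e' => ?_)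
  simp only [Prod.mk.injEq] at e e' ⊢
  refine ⟨?_, e.2⟩
  have e1 := QuotientAddGroup.eq.1 e.1
  have e2 := QuotientAddGroup.eq.1 e'.1
  rw [QuotientAddGroup.eq]
  exact ⟨e1, e2⟩

/-- (e) Monotonicity in the subgroup. PROOF. `ent_mono`. -/
theorem ent_mod_mono (hp : IsProb p) (t : Ω → G) (y : Ω → γ) {K K' : AddSubgroup G} (h : K ≤ K') :
    ent p (fun ω => ((QuotientAddGroup.mk (t ω) : G ⧸ K'), y ω)) ≤
      ent p (fun ω => ((QuotientAddGroup.mk (t ω) : G ⧸ K), y ω)) := by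
  refine ent_mono hp _ _ fun ω ω' _ _ e => ?_
  simp only [Prod.mk.injEq] at e ⊢
  refine ⟨?_, e.2⟩
  rw [QuotientAddGroup.eq]
  exact h (QuotientAddGroup.eq.1 e.1)

/-- removing a trivial label -/
theorem ent_unit {α : Type} (f : Ω → α) : ent p (fun ω => (f ω, ())) = ent p f :=
  ent_congr _ _ fun _ _ _ _ => by simp

end tools

section laws

variable {G : Type} [AddCommGroup G] [Fintype G]

/-- `H(A + B mod K)` for independent `A, B` of laws `α, β`. -/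
noncomputable def qs (α β : G → ℝ) (K : AddSubgroup G) : ℝ :=
  ent (prod α β) (fun x => (QuotientAddGroup.mk (x.1 + x.2) : G ⧸ K))

/-- `K` is an `ε`-approximate stabiliser for `A + B`: `H(A + B mod K) ≤ ε`, `log |K| ≤ H(A + B) + ε`. -/
def Apx (ε : ℝ) (α β : G → ℝ) (K : AddSubgroup G) : Prop :=
  qs α β K ≤ ε ∧ Real.log (Nat.card K) ≤ Hd (conv α β) + ε

/-- (f) The lower bound for `log |K|`. PROOF. `ent_le_mod` with `y` constant. -/
theorem Apx.le {ε : ℝ} {α β : G → ℝ} {K : AddSubgroup G} (hα : IsProb α) (hβ : IsProb β) (h : Apx ε α β K) :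
    Hd (conv α β) ≤ Real.log (Nat.card K) + ε := by
  have h1 := ent_le_mod (isProb_prod hα hβ) (fun x : G × G => x.1 + x.2) (fun _ => ()) K
  rw [ent_unit, ent_unit] at h1
  have h2 := h.1
  unfold qs at h2
  rw [Hd_conv]
  linarith

/-- (g) The first summand modulo `K`. PROOF. `ent_le_Hs_left` for the images in `G ⧸ K`. -/
theorem Apx.left {ε : ℝ} {α β : G → ℝ} {K : AddSubgroup G} (hα : IsProb α) (hβ : IsProb β) (h : Apx ε α β K) :
    ent α (fun x => (QuotientAddGroup.mk x : G ⧸ K)) ≤ ε := by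
  have h1 := ent_le_Hs_left hα hβ (fun x => (QuotientAddGroup.mk x : G ⧸ K))
    (fun x => (QuotientAddGroup.mk x : G ⧸ K))
  exact h1.trans h.1

/-- (h) The second summand modulo `K`. PROOF. `ent_le_Hs_right`. -/
theorem Apx.right {ε : ℝ} {α β : G → ℝ} {K : AddSubgroup G} (hα : IsProb α) (hβ : IsProb β) (h : Apx ε α β K) :
    ent β (fun x => (QuotientAddGroup.mk x : G ⧸ K)) ≤ ε := by
  have h1 := ent_le_Hs_right hα hβ (fun x => (QuotientAddGroup.mk x : G ⧸ K))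
    (fun x => (QuotientAddGroup.mk x : G ⧸ K))
  exact h1.trans h.1

/-- (i) Lower bound for a sum of three: `log |K + K'| ≤ H(A + B + C) + 2 ε + 2 ε'`, `K` for `A + B`, `K'` for `A + C`.

PROOF. `H(A+B+C) = H(A+B+C mod K) + H(A+B+C | mod K)`. The second term is `≥ H(A+B+C | C, A+B mod K) = H(A+B | A+B mod K) =
H(A+B) - H(A+B mod K) ≥ log |K| - 2 ε`. The first is `≥ H(A+C mod K)` (adding the independent `B`), and
`H(A+C) ≤ H(A+C mod K) + H(A+C mod K') + log |K ⊓ K'|` (`ent_le_mod` for `K ⊓ K'` and `ent_mod_inf`), so it is `≥ log |K'| - 2 ε' - log |K ⊓ K'|`. Add, `log_card_sup`. -/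
theorem sup_le_three {ε ε' : ℝ} {α β γ : G → ℝ} {K K' : AddSubgroup G} (hα : IsProb α) (hβ : IsProb β)
    (hγ : IsProb γ) (h : Apx ε α β K) (h' : Apx ε' α γ K') :
    Real.log (Nat.card (K ⊔ K' : AddSubgroup G)) ≤ Hd (conv α (conv β γ)) + 2 * ε + 2 * ε' := by
  have hβγ := isProb_prod hβ hγ
  have hP := isProb_prod hα hβγ
  -- the sum of three on the product space
  have e0 : Hd (conv α (conv β γ)) =
      ent (prod α (prod β γ)) (fun x => x.1 + (x.2.1 + x.2.2)) := by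
    have h1 := ent_add α (prod β γ) (fun x : G => x) (fun x : G × G => x.1 + x.2)
    rw [h1]
    have h2 : law α (fun x => x) = α := law_id α
    rw [h2]
    rfl
  -- law of (A, B)
  have e1 : ent (prod α (prod β γ)) (fun x => (x.1 + x.2.1, x.2.2)) =
      ent (prod α β) (fun x => x.1 + x.2) + ent γ (fun x => x) := by
    rw [← ent_prod (isProb_prod hα hβ) hγ (fun x : G × G => x.1 + x.2) (fun x : G => x)]
    refine ent_of_equiv (Equiv.prodAssoc G G G).symm (fun x => ?_) _ _ (fun x => rfl)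
    show α x.1 * β x.2.1 * γ x.2.2 = α x.1 * (β x.2.1 * γ x.2.2)
    ring
  have e2 : ent (prod α (prod β γ)) (fun x => (x.2.2, (QuotientAddGroup.mk (x.1 + x.2.1) : G ⧸ K))) =
      ent (prod α β) (fun x => (QuotientAddGroup.mk (x.1 + x.2) : G ⧸ K)) + ent γ (fun x => x) := by
    rw [← ent_prod (isProb_prod hα hβ) hγ
      (fun x : G × G => (QuotientAddGroup.mk (x.1 + x.2) : G ⧸ K)) (fun x : G => x)]
    have h1 : ent (prod α (prod β γ)) (fun x => (x.2.2, (QuotientAddGroup.mk (x.1 + x.2.1) : G ⧸ K))) =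
        ent (prod α (prod β γ)) (fun x => ((QuotientAddGroup.mk (x.1 + x.2.1) : G ⧸ K), x.2.2)) :=
      ent_congr _ _ fun ω ω' _ _ => by
        simp only [Prod.mk.injEq]
        exact and_comm
    rw [h1]
    refine ent_of_equiv (Equiv.prodAssoc G G G).symm (fun x => ?_) _ _ (fun x => rfl)
    show α x.1 * β x.2.1 * γ x.2.2 = α x.1 * (β x.2.1 * γ x.2.2)
    ring
  -- inequality 1
  have i1 := submod' hP (fun x => x.1 + (x.2.1 + x.2.2))
    (fun x => (x.2.2, (QuotientAddGroup.mk (x.1 + x.2.1) : G ⧸ K)))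
    (fun x => (QuotientAddGroup.mk (x.1 + (x.2.1 + x.2.2)) : G ⧸ K))
    (fun x => (x.1 + x.2.1, x.2.2))
    (fun ω ω' e => congrArg _ e)
    (fun ω ω' e => by
      simp only [Prod.mk.injEq] at e ⊢
      have h1 : ∀ a : G × G × G, (QuotientAddGroup.mk (a.1 + (a.2.1 + a.2.2)) : G ⧸ K) =
          QuotientAddGroup.mk (a.1 + a.2.1) + QuotientAddGroup.mk a.2.2 := by
        intro a
        rw [← QuotientAddGroup.mk_add, add_assoc]
      rw [h1, h1, e.2, e.1])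
    (fun ω ω' _ _ e e' => by
      simp only [Prod.mk.injEq] at e e' ⊢
      refine ⟨?_, e'.1⟩
      rw [← add_assoc, ← add_assoc, e'.1] at e
      exact add_right_cancel e)
  -- inequality 2
  have i2 : qs α γ K ≤ ent (prod α (prod β γ))
      (fun x => (QuotientAddGroup.mk (x.1 + (x.2.1 + x.2.2)) : G ⧸ K)) := by
    have h1 := ent_le_Hs_left (isProb_prod hα hγ) hβ
      (fun x : G × G => (QuotientAddGroup.mk (x.1 + x.2) : G ⧸ K))
      (fun x : G => (QuotientAddGroup.mk x : G ⧸ K))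
    refine h1.trans (le_of_eq ?_)
    unfold Hs
    let e : (G × G) × G ≃ G × (G × G) :=
      ⟨fun x => (x.1.1, (x.2, x.1.2)), fun x => ((x.1, x.2.2), x.2.1), fun _ => rfl, fun _ => rfl⟩
    refine ent_of_equiv e (fun x => ?_) _ _ (fun x => ?_)
    · show α x.1.1 * (β x.2 * γ x.1.2) = α x.1.1 * γ x.1.2 * β x.2
      ring
    · show (QuotientAddGroup.mk (x.1.1 + (x.2 + x.1.2)) : G ⧸ K) =
        QuotientAddGroup.mk (x.1.1 + x.1.2) + QuotientAddGroup.mk x.2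
      rw [← QuotientAddGroup.mk_add]
      congr 1
      abel
  have i3 := ent_le_mod (isProb_prod hα hγ) (fun x : G × G => x.1 + x.2) (fun _ => ())
    (K ⊓ K' : AddSubgroup G)
  rw [ent_unit, ent_unit] at i3
  have i4 := ent_mod_inf (isProb_prod hα hγ) (fun x : G × G => x.1 + x.2) (fun _ => ()) K K'
  rw [ent_unit, ent_unit, ent_unit, ent_const (isProb_prod hα hγ)] at i4
  have i5 := log_card_sup K K'
  have a1 := h.1
  have a2 := h.2
  have b1 := h'.1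
  have b2 := h'.2
  rw [Hd_conv] at a2 b2
  unfold qs at a1 b1 i2
  rw [e0]
  linarith

end laws

end PB
end

section

/-!
PC, job P1: garblings and the deficiency modulo a subgroup. See table papers, Theorem C, part 1.
-/

set_option autoImplicit false

namespace PB

open Finset Pool.Agent.Lib.MP_dd2a7c_co

variable {G : Type} [AddCommGroup G]

section pcP1aux

open scoped Classical

private lemma pcP1_ent_sum {Ω α : Type*} [Fintype Ω] (p : Ω → ℝ) (f : Ω → α) (S : Finset α)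
    (hS : ∀ ω, f ω ∈ S) :
    ent p f = -∑ a ∈ S, pr p f a * Real.log (pr p f a) := by
  unfold ent
  congr 1
  have h1 : ∀ a ∈ S, pr p f a * Real.log (pr p f a) =
      ∑ ω, (if f ω = a then p ω * Real.log (pr p f (f ω)) else 0) := by
    intro a _
    conv_lhs => rw [show pr p f a = ∑ ω, if f ω = a then p ω else 0 from rfl]
    rw [sum_mul]
    refine sum_congr rfl fun ω _ => ?_
    by_cases h : f ω = a
    · rw [if_pos h, if_pos h, h]
      rfl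
    · rw [if_neg h, if_neg h, zero_mul]
  rw [sum_congr rfl h1, sum_comm]
  refine sum_congr rfl fun ω _ => ?_
  rw [sum_ite_eq, if_pos (hS ω)]

private lemma pcP1_ent_eq {Ω Ω' α : Type*} [Fintype Ω] [Fintype Ω'] (p : Ω → ℝ) (f : Ω → α)
    (p' : Ω' → ℝ) (f' : Ω' → α) (h : ∀ a, pr p f a = pr p' f' a) : ent p f = ent p' f' := by
  rw [pcP1_ent_sum p f (image f univ ∪ image f' univ)
      (fun ω => mem_union_left _ (mem_image_of_mem _ (mem_univ _))),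
    pcP1_ent_sum p' f' (image f univ ∪ image f' univ)
      (fun ω => mem_union_right _ (mem_image_of_mem _ (mem_univ _)))]
  congr 1
  refine sum_congr rfl fun a _ => ?_
  rw [h a]

private lemma pcP1_pr_fib {Ω Ω' α : Type*} [Fintype Ω] [Fintype Ω'] (m : Ω → ℝ) (p : Ω' → ℝ)
    (F : Ω × Ω' → α) (a : α) :
    pr (prod m p) F a = ∑ x, m x * pr p (fun w => F (x, w)) a := by
  unfold pr
  rw [Fintype.sum_prod_type]
  refine sum_congr rfl fun x _ => ?_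
  rw [mul_sum]
  refine sum_congr rfl fun w _ => ?_
  by_cases h : F (x, w) = a <;> simp [h, prod]

private lemma pcP1_pr_fib_congr {Ω Ω' Ω'' α : Type*} [Fintype Ω] [Fintype Ω'] [Fintype Ω'']
    (m : Ω → ℝ) (p : Ω' → ℝ) (p' : Ω'' → ℝ) (F : Ω × Ω' → α)
    (F' : Ω × Ω'' → α) (a : α)
    (h : ∀ x, pr p (fun w => F (x, w)) a = pr p' (fun w => F' (x, w)) a) :
    pr (prod m p) F a = pr (prod m p') F' a := by
  rw [pcP1_pr_fib, pcP1_pr_fib]
  exact sum_congr rfl fun x _ => by rw [h x]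

/-- The law of a constant together with `F`. -/
private lemma pcP1_pr_const {Ω α γ : Type*} [Fintype Ω] (p : Ω → ℝ) (F : Ω → α) (c d : γ) (a : α) :
    pr p (fun w => (c, F w)) (d, a) = if c = d then pr p F a else 0 := by
  unfold pr
  by_cases h : c = d
  · simp [h]
  · simp [h]

/-- Data processing for one observation. -/
private lemma pcP1_dp {X Ω M A R γ : Type*} [Fintype X] [Fintype Ω] [Fintype M] {m : X → ℝ}
    {p : Ω → ℝ} {q : M → ℝ} (hm : IsProb m) (hp : IsProb p) (hq : IsProb q) (O : X × Ω → A)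
    (r : A → M → R) (g : X → γ) :
    ent (prod m (prod p q)) (fun x => r (O (x.1, x.2.1)) x.2.2) -
        ent (prod m (prod p q)) (fun x => (g x.1, r (O (x.1, x.2.1)) x.2.2)) ≤
      ent (prod m p) O - ent (prod m p) (fun x => (g x.1, O x)) := by
  have hP : IsProb (prod m (prod p q)) := isProb_prod hm (isProb_prod hp hq)
  have s1 := submod' hP (fun x : X × (Ω × M) => (g x.1, r (O (x.1, x.2.1)) x.2.2))
    (fun x => (O (x.1, x.2.1), x.2.2)) (fun x => r (O (x.1, x.2.1)) x.2.2)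
    (fun x => ((g x.1, O (x.1, x.2.1)), x.2.2))
    (fun x y h => (Prod.ext_iff.1 h).2)
    (fun x y h => by
      simp only [Prod.mk.injEq] at h
      simp only [h.1, h.2])
    (fun x y _ _ h h' => by
      simp only [Prod.mk.injEq] at h h' ⊢
      exact ⟨⟨h.1, h'.1⟩, h'.2⟩)
  have d1 : ent (prod m (prod p q)) (fun x => (O (x.1, x.2.1), x.2.2)) =
      ent (prod m p) O + ent q id := by
    rw [← ent_prod (isProb_prod hm hp) hq O id]
    refine ent_of_equiv (Equiv.prodAssoc X Ω M).symm (fun x => ?_) _ _ (fun x => rfl)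
    simp [prod, mul_assoc]
  have d2 : ent (prod m (prod p q)) (fun x => ((g x.1, O (x.1, x.2.1)), x.2.2)) =
      ent (prod m p) (fun x => (g x.1, O x)) + ent q id := by
    rw [← ent_prod (isProb_prod hm hp) hq (fun x => (g x.1, O x)) id]
    refine ent_of_equiv (Equiv.prodAssoc X Ω M).symm (fun x => ?_) _ _ (fun x => rfl)
    simp [prod, mul_assoc]
  linarith

end pcP1aux

/-- JOB P1. (a) Data processing for a general function `g` of the input, `x` of law `μ`.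

PROOF. Let `M, q, r` be given. `ent` depends only on the values of `pr` (see the file PB/A5.lean for such a lemma), so on the right
side `(g x, (x + f', z'))` may be replaced by `(g x, r (x + f, z) m)` under `prod μ (prod B.p q)`. With `O = (x + f, z)`, `R = r O m`:
`I(g x : R) ≤ I(g x : (O, m)) = I(g x : O)`, `m` independent of `(x, O)`: `submod'` and `ent_prod` (as in PB/A5.lean). -/
theorem Deg.info_le [Fintype G] {γ : Type} (g : G → γ) {μ : G → ℝ} (hμ : IsProb μ) {B B' : CV G} (h : Deg B B') :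
    ent (prod μ B'.p) (fun x => (x.1 + B'.f x.2, B'.z x.2)) -
        ent (prod μ B'.p) (fun x => (g x.1, (x.1 + B'.f x.2, B'.z x.2))) ≤
      ent (prod μ B.p) (fun x => (x.1 + B.f x.2, B.z x.2)) -
        ent (prod μ B.p) (fun x => (g x.1, (x.1 + B.f x.2, B.z x.2))) := by
  obtain ⟨M, iM, q, hq, r, hr⟩ := h
  have key := pcP1_dp (m := μ) (p := B.p) (q := q) hμ B.hp hq
    (fun x => (x.1 + B.f x.2, B.z x.2)) r g
  have e1 : ent (prod μ B'.p) (fun x => (x.1 + B'.f x.2, B'.z x.2)) =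
      ent (prod μ (prod B.p q)) (fun x => r (x.1 + B.f x.2.1, B.z x.2.1) x.2.2) := by
    refine pcP1_ent_eq _ _ _ _ fun a => pcP1_pr_fib_congr _ _ _ _ _ a fun x => ?_
    exact hr x a
  have e2 : ent (prod μ B'.p) (fun x => (g x.1, (x.1 + B'.f x.2, B'.z x.2))) =
      ent (prod μ (prod B.p q)) (fun x => (g x.1, r (x.1 + B.f x.2.1, B.z x.2.1) x.2.2)) := by
    refine pcP1_ent_eq _ _ _ _ fun a => pcP1_pr_fib_congr _ _ _ _ _ a fun x => ?_
    obtain ⟨d, a⟩ := a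
    have h1 := pcP1_pr_const B'.p (fun w => (x + B'.f w, B'.z w)) (g x) d a
    have h2 := pcP1_pr_const (prod B.p q) (fun w => r (x + B.f w.1, B.z w.1) w.2) (g x) d a
    rw [hr x a] at h1
    exact h1.trans h2.symm
  rw [e1, e2]
  exact key

open scoped Classical in
/-- The translation `(x, ω) ↦ (x + f ω, ω)`. -/
private def pcP1_equiv (B : CV G) : (G × B.Ω) ≃ (G × B.Ω) where
  toFun := fun x => (x.1 + B.f x.2, x.2)
  invFun := fun x => (x.1 - B.f x.2, x.2)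
  left_inv := fun x => by simp
  right_inv := fun x => by simp

private lemma pcP1_uni (B : CV G) [Fintype G] (x : G × B.Ω) :
    prod (uA (univ : Finset G)) B.p (pcP1_equiv B x) = prod (uA (univ : Finset G)) B.p x := by
  simp [prod, uA, pcP1_equiv]

private lemma pcP1_uni1 (B : CV G) [Fintype G] :
    ent (prod (uA (univ : Finset G)) B.p) (fun x => (x.1 + B.f x.2, B.z x.2)) =
      ent (uA (univ : Finset G)) id + ent B.p B.z := by
  have hμ : IsProb (uA (univ : Finset G)) := isProb_uA ⟨0, mem_univ _⟩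
  rw [← ent_prod hμ B.hp id B.z]
  exact ent_of_equiv (pcP1_equiv B) (pcP1_uni B) _ _ (fun x => rfl)

private lemma pcP1_uni2 (B : CV G) [Fintype G] (H : AddSubgroup G) :
    ent (prod (uA (univ : Finset G)) B.p)
      (fun x => ((QuotientAddGroup.mk x.1 : G ⧸ H), (x.1 + B.f x.2, B.z x.2))) =
      ent (uA (univ : Finset G)) id +
        ent B.p (fun ω => ((QuotientAddGroup.mk (B.f ω) : G ⧸ H), B.z ω)) := by
  have hμ : IsProb (uA (univ : Finset G)) := isProb_uA ⟨0, mem_univ _⟩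
  rw [← ent_prod hμ B.hp id (fun ω => ((QuotientAddGroup.mk (B.f ω) : G ⧸ H), B.z ω))]
  have h1 : ent (prod (uA (univ : Finset G)) B.p)
      (fun x => ((QuotientAddGroup.mk x.1 : G ⧸ H), (x.1 + B.f x.2, B.z x.2))) =
      ent (prod (uA (univ : Finset G)) B.p)
      (fun x => (x.1 + B.f x.2, ((QuotientAddGroup.mk (B.f x.2) : G ⧸ H), B.z x.2))) := by
    refine ent_congr _ _ fun x y _ _ => ?_
    simp only [Prod.mk.injEq]
    constructor
    · rintro ⟨h1, h2, h3⟩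
      refine ⟨h2, ?_, h3⟩
      have h4 := congrArg (fun g : G => (QuotientAddGroup.mk g : G ⧸ H)) h2
      simp only [QuotientAddGroup.mk_add, h1] at h4
      exact add_left_cancel h4
    · rintro ⟨h1, h2, h3⟩
      refine ⟨?_, h1, h3⟩
      have h4 := congrArg (fun g : G => (QuotientAddGroup.mk g : G ⧸ H)) h1
      simp only [QuotientAddGroup.mk_add, h2] at h4
      exact add_right_cancel h4
  rw [h1]
  exact ent_of_equiv (pcP1_equiv B) (pcP1_uni B) _ _ (fun x => rfl)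

/-- (b) PROOF. (a) with `μ` uniform (`uA univ`) and `g = QuotientAddGroup.mk`. For uniform `x` independent of `(f, z)`: `(x + f, (f, z))` is
the product of the uniform law and `(f, z)` (bijection `(x, ω) ↦ (x + f ω, ω)`, `ent_of_equiv`), so `ent (x + f, z) = log |G| + ent z`, and
`(mk x, (x + f, z))` and `(mk f, (x + f, z))` determine each other, entropy `log |G| + ent (mk f, z)`. So the two sides of (a) are
`ent z - ent (mk f, z)` for `B'` and `B`; `Dq = log index + ent z - ent (mk f, z)`. -/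
theorem Deg.Dq_le [Fintype G] {B B' : CV G} (h : Deg B B') (H : AddSubgroup G) : B'.Dq H ≤ B.Dq H := by
  have hμ : IsProb (uA (univ : Finset G)) := isProb_uA ⟨0, mem_univ _⟩
  have key := h.info_le (fun x => (QuotientAddGroup.mk x : G ⧸ H)) hμ
  rw [pcP1_uni1 B, pcP1_uni1 B', pcP1_uni2 B H, pcP1_uni2 B' H] at key
  unfold CV.Dq CV.hq
  linarith

/-- (c) PROOF. As (b) with `g = id`, or from (b) with `H = ⊥` (the quotient map is injective, `index ⊥ = |G|`). -/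
theorem Deg.D_le [Fintype G] {B B' : CV G} (h : Deg B B') : B'.D ≤ B.D := by
  have key := h.Dq_le (⊥ : AddSubgroup G)
  have e : ∀ C : CV G, C.Dq ⊥ = C.D := by
    intro C
    unfold CV.Dq CV.D CV.hq CV.hc
    rw [AddSubgroup.index_bot, Nat.card_eq_fintype_card]
    have h1 : ent C.p (fun ω => ((QuotientAddGroup.mk (C.f ω) : G ⧸ (⊥ : AddSubgroup G)), C.z ω)) =
        ent C.p (fun ω => (C.f ω, C.z ω)) := by
      refine ent_congr _ _ fun x y _ _ => ?_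
      simp only [Prod.mk.injEq]
      refine and_congr_left fun _ => ?_
      rw [QuotientAddGroup.eq, AddSubgroup.mem_bot, neg_add_eq_zero]
    rw [h1]
  rw [e, e] at key
  exact key

/-- (d) If `B'` is `B` with a label that is a function of the label of `B`. PROOF. `M = Unit`, `r (u, l) _ = (u, φ l)`, `pr_prod_fst`-type computation. -/
theorem Deg.relabel (B : CV G) {L' : Type} (φ : B.L → L') :
    Deg B { Ω := B.Ω, p := B.p, hp := B.hp, f := B.f, L := L', z := fun ω => φ (B.z ω) } := by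
  refine ⟨Unit, inferInstance, fun _ => 1, ⟨fun _ => zero_le_one, by simp⟩,
    fun u _ => (u.1, φ u.2), fun x y => ?_⟩
  exact (pr_prod_fst B.p (q := fun _ : Unit => (1 : ℝ)) ⟨fun _ => zero_le_one, by simp⟩
    (fun ω => (x + B.f ω, φ (B.z ω))) y).symm

/-- (e) `B` is a garbling of its fibre. PROOF. `M = Unit`, `r (u, (s, l, l')) _ = (u, l)`; `pr_prod_fst`. -/
theorem Deg.W_self (B : CV G) : Deg B.W B := by
  refine ⟨Unit, inferInstance, fun _ => 1, ⟨fun _ => zero_le_one, by simp⟩,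
    fun u _ => (u.1, u.2.2.1), fun x y => ?_⟩
  have h1 := pr_prod_fst (prod B.p B.p) (q := fun _ : Unit => (1 : ℝ))
    ⟨fun _ => zero_le_one, by simp⟩ (fun ω => (x + B.f ω.1, B.z ω.1)) y
  have h2 := pr_prod_fst B.p B.hp (fun ω => (x + B.f ω, B.z ω)) y
  exact (h1.trans h2).symm

end PB
end

section

/-!
PC, job P4: submodularity facts. See table papers, Theorem C, part 1.
-/

set_option autoImplicit false

namespace PB

open Finset Pool.Agent.Lib.MP_dd2a7c_co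

variable {G : Type} [AddCommGroup G] [Fintype G]

/-- JOB P4. (a) `I₁(B) ≥ 0`.

PROOF. On `((1,2),(3,4))`: with `E2 = ent (prod p p) (f₁ + f₂, z₁, z₂)`, `E4 = ent (f₁ + f₂ + f₃ + f₄, z's)`,
`Q = ent (f₁ + f₃, f₁ + f₂, f₃ + f₄, z's)` one has `I₁ = 4 E2 - Q - E4` (the terms `ent z` cancel: `B.W.S.hc = Q - 2 E2`,
`B.S.hc = E2 - 2 ent z`, `B.S.S.hc = E4 - 4 ent z`; see the proof of `avg_kappa_le` in PB/B5.lean), and `submod'` for
`((f₁ + f₃, z₁, z₃), (f₂ + f₄, z₂, z₄))` and `((f₁ + f₂, z₁, z₂), (f₃ + f₄, z₃, z₄))` (entropy `2 E2` each) over `(Σ f, z's)`: together they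
determine `(f₁ + f₃, f₁ + f₂, f₃ + f₄, z's)`, each determines the sum. -/
theorem I1_nonneg (h2 : ∀ x : G, x + x = 0) (B : CV G) : 0 ≤ B.I1 := by
  have hq : IsProb (prod B.p B.p) := isProb_prod B.hp B.hp
  have hP : IsProb (prod (prod B.p B.p) (prod B.p B.p)) := isProb_prod hq hq
  have key := submod' hP
    (fun x : (B.Ω × B.Ω) × (B.Ω × B.Ω) => ((B.f x.1.1 + B.f x.2.1, (B.z x.1.1, B.z x.2.1)),
      (B.f x.1.2 + B.f x.2.2, (B.z x.1.2, B.z x.2.2))))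
    (fun x : (B.Ω × B.Ω) × (B.Ω × B.Ω) => ((B.f x.1.1 + B.f x.1.2, (B.z x.1.1, B.z x.1.2)),
      (B.f x.2.1 + B.f x.2.2, (B.z x.2.1, B.z x.2.2))))
    (fun x : (B.Ω × B.Ω) × (B.Ω × B.Ω) => (B.f x.1.1 + B.f x.1.2 + (B.f x.2.1 + B.f x.2.2),
      ((B.z x.1.1, B.z x.1.2), (B.z x.2.1, B.z x.2.2))))
    (fun x : (B.Ω × B.Ω) × (B.Ω × B.Ω) => (B.f x.1.1 + B.f x.2.1,
      ((B.f x.1.1 + B.f x.1.2, (B.z x.1.1, B.z x.1.2)),
      (B.f x.2.1 + B.f x.2.2, (B.z x.2.1, B.z x.2.2)))))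
    (by
      intro x y h
      simp only [Prod.mk.injEq] at h ⊢
      obtain ⟨⟨k1, k3, k5⟩, k2, k4, k6⟩ := h
      refine ⟨?_, ⟨k3, k4⟩, k5, k6⟩
      rw [add_add_add_comm, k1, k2, add_add_add_comm])
    (by
      intro x y h
      simp only [Prod.mk.injEq] at h ⊢
      obtain ⟨⟨k1, k3, k4⟩, k2, k5, k6⟩ := h
      exact ⟨by rw [k1, k2], ⟨k3, k4⟩, k5, k6⟩)
    (by
      intro x y _ _ h h'
      exact Prod.ext (Prod.ext_iff.1 (Prod.ext_iff.1 h).1).1 h')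
  have e1 : ent (prod (prod B.p B.p) (prod B.p B.p)) (fun x : (B.Ω × B.Ω) × (B.Ω × B.Ω) =>
      ((B.f x.1.1 + B.f x.2.1, (B.z x.1.1, B.z x.2.1)),
      (B.f x.1.2 + B.f x.2.2, (B.z x.1.2, B.z x.2.2)))) =
      ent (prod B.p B.p) (fun x => (B.f x.1 + B.f x.2, (B.z x.1, B.z x.2))) +
      ent (prod B.p B.p) (fun x => (B.f x.1 + B.f x.2, (B.z x.1, B.z x.2))) := by
    rw [← ent_prod hq hq]
    exact ent_of_equiv (p := prod (prod B.p B.p) (prod B.p B.p))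
      (Equiv.prodProdProdComm B.Ω B.Ω B.Ω B.Ω)
      (fun x => by simp only [prod, Equiv.prodProdProdComm_apply]; ring) _ _ (fun x => rfl)
  have e2 : ent (prod (prod B.p B.p) (prod B.p B.p)) (fun x : (B.Ω × B.Ω) × (B.Ω × B.Ω) =>
      ((B.f x.1.1 + B.f x.1.2, (B.z x.1.1, B.z x.1.2)),
      (B.f x.2.1 + B.f x.2.2, (B.z x.2.1, B.z x.2.2)))) =
      ent (prod B.p B.p) (fun x => (B.f x.1 + B.f x.2, (B.z x.1, B.z x.2))) +
      ent (prod B.p B.p) (fun x => (B.f x.1 + B.f x.2, (B.z x.1, B.z x.2))) :=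
    ent_prod hq hq (fun x => (B.f x.1 + B.f x.2, (B.z x.1, B.z x.2)))
      (fun x => (B.f x.1 + B.f x.2, (B.z x.1, B.z x.2)))
  have e5 : B.W.S.hc = ent (prod (prod B.p B.p) (prod B.p B.p))
      (fun x : (B.Ω × B.Ω) × (B.Ω × B.Ω) => (B.f x.1.1 + B.f x.2.1,
      ((B.f x.1.1 + B.f x.1.2, (B.z x.1.1, B.z x.1.2)),
      (B.f x.2.1 + B.f x.2.2, (B.z x.2.1, B.z x.2.2))))) -
      2 * ent (prod B.p B.p) (fun x => (B.f x.1 + B.f x.2, (B.z x.1, B.z x.2))) := by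
    rw [two_mul, ← ent_prod hq hq]
    rfl
  have e6 : B.S.hc = ent (prod B.p B.p) (fun x => (B.f x.1 + B.f x.2, (B.z x.1, B.z x.2))) -
      ent (prod B.p B.p) (fun x => (B.z x.1, B.z x.2)) := rfl
  have e7 : B.S.S.hc = ent (prod (prod B.p B.p) (prod B.p B.p)) (fun x : (B.Ω × B.Ω) × (B.Ω × B.Ω) =>
      (B.f x.1.1 + B.f x.1.2 + (B.f x.2.1 + B.f x.2.2),
      ((B.z x.1.1, B.z x.1.2), (B.z x.2.1, B.z x.2.2)))) -
      2 * ent (prod B.p B.p) (fun x => (B.z x.1, B.z x.2)) := by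
    rw [two_mul, ← ent_prod hq hq]
    rfl
  rw [e1, e2] at key
  simp only [CV.I1, CV.D, e5, e6, e7]
  linarith

/-- (b) Convexity: `2 D(B₁+B₂+B₃) ≤ D(B₁+B₂) + D(B₁+..+B₄)`.

PROOF. Let `q = f₁ + f₂`. `submod'` on the 4-fold product for `(q + f₄, f₃, z's)` and `(q + f₃, f₄, z's)` over the common function
`(q + f₃ + f₄, z's)`, jointly determining `(q, f₃, f₄, z's)`:
`H(Q) + H(B₃) + H(B₄) + H(Q + B₃ + B₄) ≤ H(Q + B₄) + H(B₃) + H(Q + B₃) + H(B₄)` (all conditional on the labels; independence and `ent_prod`, reordering with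
`ent_of_equiv`). So `H(Q) + H(Q + B₃ + B₄) ≤ 2 H(B₁ + B₂ + B₃)`. (Or average `kvm` of Conv.lean over the labels with `ent_chain`, `cw_prod`.) -/
theorem conv_T (B : CV G) : 2 * B.T.D ≤ B.S.D + B.S.S.D := by
  have hq : IsProb (prod B.p B.p) := isProb_prod B.hp B.hp
  have hT : IsProb (prod B.p (prod B.p B.p)) := isProb_prod B.hp hq
  have hP : IsProb (prod (prod B.p B.p) (prod B.p B.p)) := isProb_prod hq hq
  have key := submod' hP
    (fun x : (B.Ω × B.Ω) × (B.Ω × B.Ω) => ((B.f x.2.2 + (B.f x.1.1 + B.f x.1.2),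
      (B.z x.2.2, (B.z x.1.1, B.z x.1.2))), (B.f x.2.1, B.z x.2.1)))
    (fun x : (B.Ω × B.Ω) × (B.Ω × B.Ω) => ((B.f x.2.1 + (B.f x.1.1 + B.f x.1.2),
      (B.z x.2.1, (B.z x.1.1, B.z x.1.2))), (B.f x.2.2, B.z x.2.2)))
    (fun x : (B.Ω × B.Ω) × (B.Ω × B.Ω) => (B.f x.1.1 + B.f x.1.2 + (B.f x.2.1 + B.f x.2.2),
      ((B.z x.1.1, B.z x.1.2), (B.z x.2.1, B.z x.2.2))))
    (fun x : (B.Ω × B.Ω) × (B.Ω × B.Ω) => ((B.f x.1.1 + B.f x.1.2, (B.z x.1.1, B.z x.1.2)),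
      ((B.f x.2.1, B.z x.2.1), (B.f x.2.2, B.z x.2.2))))
    (by
      intro x y h
      simp only [Prod.mk.injEq] at h ⊢
      obtain ⟨⟨k1, k2, k3, k4⟩, k5, k6⟩ := h
      refine ⟨?_, ⟨k3, k4⟩, k6, k2⟩
      have e : ∀ a b c d : G, a + b + (c + d) = d + (a + b) + c := fun a b c d => by abel
      rw [e, e, k1, k5])
    (by
      intro x y h
      simp only [Prod.mk.injEq] at h ⊢
      obtain ⟨⟨k1, k2, k3, k4⟩, k5, k6⟩ := h
      refine ⟨?_, ⟨k3, k4⟩, k2, k6⟩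
      have e : ∀ a b c d : G, a + b + (c + d) = c + (a + b) + d := fun a b c d => by abel
      rw [e, e, k1, k5])
    (by
      intro x y _ _ h h'
      simp only [Prod.mk.injEq] at h h' ⊢
      obtain ⟨⟨k1, k2, k3, k4⟩, k5, k6⟩ := h
      obtain ⟨⟨l1, l2, l3, l4⟩, l5, l6⟩ := h'
      rw [k5] at l1
      exact ⟨⟨add_left_cancel l1, k3, k4⟩, ⟨k5, k6⟩, l5, l6⟩)
  have e1 : ent (prod (prod B.p B.p) (prod B.p B.p)) (fun x : (B.Ω × B.Ω) × (B.Ω × B.Ω) =>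
      ((B.f x.2.2 + (B.f x.1.1 + B.f x.1.2),
      (B.z x.2.2, (B.z x.1.1, B.z x.1.2))), (B.f x.2.1, B.z x.2.1))) =
      ent (prod B.p (prod B.p B.p)) (fun x => (B.f x.1 + (B.f x.2.1 + B.f x.2.2),
        (B.z x.1, (B.z x.2.1, B.z x.2.2)))) + ent B.p (fun x => (B.f x, B.z x)) := by
    rw [← ent_prod hT B.hp]
    refine ent_of_equiv (p := prod (prod B.p B.p) (prod B.p B.p))
      (q := prod (prod B.p (prod B.p B.p)) B.p)
      { toFun := fun x => ((x.2.2, x.1), x.2.1)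
        invFun := fun y => (y.1.2, (y.2, y.1.1))
        left_inv := fun x => rfl
        right_inv := fun y => rfl } (fun x => ?_) _ _ (fun x => rfl)
    show B.p x.2.2 * (B.p x.1.1 * B.p x.1.2) * B.p x.2.1 =
      B.p x.1.1 * B.p x.1.2 * (B.p x.2.1 * B.p x.2.2)
    ring
  have e2 : ent (prod (prod B.p B.p) (prod B.p B.p)) (fun x : (B.Ω × B.Ω) × (B.Ω × B.Ω) =>
      ((B.f x.2.1 + (B.f x.1.1 + B.f x.1.2),
      (B.z x.2.1, (B.z x.1.1, B.z x.1.2))), (B.f x.2.2, B.z x.2.2))) =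
      ent (prod B.p (prod B.p B.p)) (fun x => (B.f x.1 + (B.f x.2.1 + B.f x.2.2),
        (B.z x.1, (B.z x.2.1, B.z x.2.2)))) + ent B.p (fun x => (B.f x, B.z x)) := by
    rw [← ent_prod hT B.hp]
    refine ent_of_equiv (p := prod (prod B.p B.p) (prod B.p B.p))
      (q := prod (prod B.p (prod B.p B.p)) B.p)
      { toFun := fun x => ((x.2.1, x.1), x.2.2)
        invFun := fun y => (y.1.2, (y.1.1, y.2))
        left_inv := fun x => rfl
        right_inv := fun y => rfl } (fun x => ?_) _ _ (fun x => rfl)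
    show B.p x.2.1 * (B.p x.1.1 * B.p x.1.2) * B.p x.2.2 =
      B.p x.1.1 * B.p x.1.2 * (B.p x.2.1 * B.p x.2.2)
    ring
  have e3 : ent (prod (prod B.p B.p) (prod B.p B.p)) (fun x : (B.Ω × B.Ω) × (B.Ω × B.Ω) =>
      ((B.f x.1.1 + B.f x.1.2, (B.z x.1.1, B.z x.1.2)),
      ((B.f x.2.1, B.z x.2.1), (B.f x.2.2, B.z x.2.2)))) =
      ent (prod B.p B.p) (fun x => (B.f x.1 + B.f x.2, (B.z x.1, B.z x.2))) +
      (ent B.p (fun x => (B.f x, B.z x)) + ent B.p (fun x => (B.f x, B.z x))) := by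
    rw [← ent_prod B.hp B.hp (fun x => (B.f x, B.z x)) (fun x => (B.f x, B.z x)), ← ent_prod hq hq]
  have e4 : ent (prod B.p (prod B.p B.p)) (fun x => (B.z x.1, (B.z x.2.1, B.z x.2.2))) =
      ent B.p B.z + ent (prod B.p B.p) (fun x => (B.z x.1, B.z x.2)) :=
    ent_prod B.hp hq B.z (fun x => (B.z x.1, B.z x.2))
  have e8 : ent (prod B.p B.p) (fun x => (B.z x.1, B.z x.2)) = ent B.p B.z + ent B.p B.z :=
    ent_prod B.hp B.hp B.z B.z
  have e5 : B.T.hc = ent (prod B.p (prod B.p B.p)) (fun x => (B.f x.1 + (B.f x.2.1 + B.f x.2.2),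
        (B.z x.1, (B.z x.2.1, B.z x.2.2)))) -
        ent (prod B.p (prod B.p B.p)) (fun x => (B.z x.1, (B.z x.2.1, B.z x.2.2))) := rfl
  have e6 : B.S.hc = ent (prod B.p B.p) (fun x => (B.f x.1 + B.f x.2, (B.z x.1, B.z x.2))) -
      ent (prod B.p B.p) (fun x => (B.z x.1, B.z x.2)) := rfl
  have e7 : B.S.S.hc = ent (prod (prod B.p B.p) (prod B.p B.p)) (fun x : (B.Ω × B.Ω) × (B.Ω × B.Ω) =>
      (B.f x.1.1 + B.f x.1.2 + (B.f x.2.1 + B.f x.2.2),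
      ((B.z x.1.1, B.z x.1.2), (B.z x.2.1, B.z x.2.2)))) -
      2 * ent (prod B.p B.p) (fun x => (B.z x.1, B.z x.2)) := by
    rw [two_mul, ← ent_prod hq hq]
    rfl
  rw [e1, e2, e3] at key
  simp only [CV.D, e5, e6, e7]
  linarith

end PB
end

section

/-!
PC, job P5: almost stationary variables are pinned. See table papers, Theorem C, part 1.
-/

set_option autoImplicit false

namespace PB

open Finset Pool.Agent.Lib.MP_dd2a7c_co

variable {G : Type} [AddCommGroup G] [Fintype G]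

/-- JOB P5. If `D(SB) ≥ (1 - τ) D(B) > 0`, `τ (6 + 12 KC) ≤ 1`, then `B` is pinned by a proper subgroup.

PROOF. For `ω ∈ B.Ω` let `q_ω = cw B.p B.z (B.z ω)` (a probability if `p ω ≠ 0`) and `b_ω = ent q_ω B.f`, `s_{ωω'} = Hs q_ω q_ω' B.f B.f`,
`d_{ωω'} = s_{ωω'} - (b_ω + b_ω') / 2`. By `hc_S_eq_avg` and `ent_chain` the average of `d` over `prod p p` is `B.S.hc - B.hc = D(B) - D(SB) ≤ τ D`,
`D := B.D`. So there is `ω°`, `p ω° ≠ 0`, with `∑ ω, p ω * d_{ω ω°} ≤ τ D`. `ruzsa_diff` (with `b - b' = b + b'` by `h2`) gives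
`Hs q° q° f f ≤ 2 s_{ω ω°} - b_ω`, so `κ° := Hs q° q° f f - b° ≤ 2 d_{ωω°}` for all `ω`, hence `κ° ≤ 2 τ D`. `pfr_sub` for `q°, B.f` gives `H` with
`ent q° (mk f) ≤ 4 KC τ D` and `log |H| ≤ b° + 4 KC τ D`. `contraction` and `ent_le_Hs_left`/`right`: `ent q_ω (mk f) / 2 ≤ d_{ωω°} + ent q° (mk f) / 2`
so the average of `ent q_ω (mk f)`, which is `B.hq H` (`ent_chain`), is at most `(2 + 4 KC) τ D`. Also `b° ≤ s_{ωω°}`, so `b° ≤ b_ω + 2 d_{ωω°}`, average: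
`b° ≤ B.hc + 2 τ D`, so `log [G : H] = log |G| - log |H| ≥ D (1 - (2 + 4 KC) τ) ≥ 2 / 3 D > 0` (`(2 + 4 KC) τ ≤ 1 / 3`), `H ≠ ⊤`, and
`B.Dq H = log index - B.hq H ≥ log index - D / 3 ≥ 1 / 2 log index`. -/
theorem pin_of_ratio (h2 : ∀ x : G, x + x = 0) {τ : ℝ} (hτ0 : 0 ≤ τ) (hτ : τ * (6 + 12 * KC) ≤ 1) (B : CV G)
    (hD : 0 < B.D) (h : (1 - τ) * B.D ≤ B.S.D) : Pin B := by
  have hK : 0 < KC := by unfold KC; positivity
  -- the conditional laws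
  set q : B.Ω → B.Ω → ℝ := fun ω => cw B.p B.z (B.z ω) with hqdef
  have hq : ∀ ω, B.p ω ≠ 0 → IsProb (q ω) := fun ω hω => isProb_cw B.hp (pr_pos B.hp B.z hω).ne'
  set b : B.Ω → ℝ := fun ω => ent (q ω) B.f with hb
  set s : B.Ω → B.Ω → ℝ := fun ω ω' => Hs (q ω) (q ω') B.f B.f with hs
  have hsum1 : ∑ ω, B.p ω = 1 := B.hp.sum_one
  have hc1 : B.hc = ∑ ω, B.p ω * b ω := ent_chain B.hp B.f B.z
  have hc2 : B.S.hc = ∑ x : B.Ω × B.Ω, prod B.p B.p x * s x.1 x.2 := hc_S_eq_avg B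
  -- double sums
  have hdbl : ∀ F : B.Ω → B.Ω → ℝ, ∑ x : B.Ω × B.Ω, prod B.p B.p x * F x.1 x.2 =
      ∑ ω', B.p ω' * ∑ ω, B.p ω * F ω ω' := by
    intro F
    rw [Fintype.sum_prod_type_right]
    refine sum_congr rfl fun ω' _ => ?_
    rw [mul_sum]
    refine sum_congr rfl fun ω _ => ?_
    simp only [prod]
    ring
  -- the average of the distances
  have havg : ∑ ω', B.p ω' * ∑ ω, B.p ω * (s ω ω' - (b ω + b ω') / 2) ≤ τ * B.D := by
    have e1 : ∀ ω', B.p ω' * ∑ ω, B.p ω * (s ω ω' - (b ω + b ω') / 2) =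
        B.p ω' * ∑ ω, B.p ω * s ω ω' - B.p ω' * ((B.hc + b ω') / 2) := by
      intro ω'
      rw [← mul_sub]
      congr 1
      have : ∀ ω, B.p ω * (s ω ω' - (b ω + b ω') / 2) =
          B.p ω * s ω ω' - (B.p ω * b ω) / 2 - B.p ω * (b ω' / 2) := fun ω => by ring
      rw [sum_congr rfl fun ω _ => this ω, sum_sub_distrib, sum_sub_distrib, ← sum_mul, hsum1,
        ← sum_div, ← hc1]
      ring
    rw [sum_congr rfl fun ω' _ => e1 ω', sum_sub_distrib, ← hdbl s, ← hc2]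
    have e2 : ∑ ω', B.p ω' * ((B.hc + b ω') / 2) = B.hc := by
      have : ∀ ω', B.p ω' * ((B.hc + b ω') / 2) = B.p ω' * (B.hc / 2) + (B.p ω' * b ω') / 2 :=
        fun ω' => by ring
      rw [sum_congr rfl fun ω' _ => this ω', sum_add_distrib, ← sum_mul, hsum1, ← sum_div, ← hc1]
      ring
    rw [e2]
    unfold CV.D at h ⊢
    linarith
  -- the choice of the second label
  obtain ⟨o, ho, hoavg⟩ : ∃ o, B.p o ≠ 0 ∧
      ∑ ω, B.p ω * (s ω o - (b ω + b o) / 2) ≤ τ * B.D := by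
    by_contra hcon
    push Not at hcon
    have h1 : ∀ ω' ∈ (univ : Finset B.Ω), B.p ω' * (τ * B.D) ≤
        B.p ω' * ∑ ω, B.p ω * (s ω ω' - (b ω + b ω') / 2) := by
      intro ω' _
      by_cases h0 : B.p ω' = 0
      · simp [h0]
      · exact mul_le_mul_of_nonneg_left (hcon ω' h0).le (B.hp.nonneg _)
    obtain ⟨o, ho⟩ : ∃ o, B.p o ≠ 0 := by
      by_contra hc
      push Not at hc
      rw [sum_congr rfl fun ω _ => hc ω, sum_const_zero] at hsum1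
      exact zero_ne_one hsum1
    have h2 : ∑ ω', B.p ω' * (τ * B.D) <
        ∑ ω', B.p ω' * ∑ ω, B.p ω * (s ω ω' - (b ω + b ω') / 2) := by
      refine sum_lt_sum h1 ⟨o, mem_univ _, ?_⟩
      exact mul_lt_mul_of_pos_left (hcon o ho) (lt_of_le_of_ne (B.hp.nonneg _) (Ne.symm ho))
    rw [← sum_mul, hsum1, one_mul] at h2
    linarith
  have hqo := hq o ho
  -- averages of bounds
  have hav : ∀ (F : B.Ω → ℝ) (c : ℝ), (∀ ω, B.p ω ≠ 0 → F ω ≤ c + 2 * (s ω o - (b ω + b o) / 2)) →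
      ∑ ω, B.p ω * F ω ≤ c + 2 * (τ * B.D) := by
    intro F c hF
    have h1 : ∑ ω, B.p ω * F ω ≤ ∑ ω, B.p ω * (c + 2 * (s ω o - (b ω + b o) / 2)) := by
      refine sum_le_sum fun ω _ => ?_
      by_cases h0 : B.p ω = 0
      · simp [h0]
      · exact mul_le_mul_of_nonneg_left (hF ω h0) (B.hp.nonneg _)
    have h2 : ∑ ω, B.p ω * (c + 2 * (s ω o - (b ω + b o) / 2)) =
        c + 2 * ∑ ω, B.p ω * (s ω o - (b ω + b o) / 2) := by
      have : ∀ ω, B.p ω * (c + 2 * (s ω o - (b ω + b o) / 2)) =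
          B.p ω * c + 2 * (B.p ω * (s ω o - (b ω + b o) / 2)) := fun ω => by ring
      rw [sum_congr rfl fun ω _ => this ω, sum_add_distrib, ← sum_mul, hsum1, ← mul_sum, one_mul]
    linarith
  -- the doubling of the chosen law
  have hκ : Hs (q o) (q o) B.f B.f - b o ≤ 2 * (τ * B.D) := by
    have h1 := hav (fun _ => Hs (q o) (q o) B.f B.f - b o) 0 (by
      intro ω hω
      have h2' := ruzsa_diff (hq ω hω) hqo B.f B.f
      have e : ent (prod (q o) (q o)) (fun x => B.f x.1 - B.f x.2) =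
          Hs (q o) (q o) B.f B.f := by
        unfold Hs
        congr 1
        funext x
        rw [sub_eq_add_neg, neg_eq_of_add_eq_zero_left (h2 (B.f x.2))]
      rw [e] at h2'
      have e2 : Hs (q ω) (q o) B.f B.f = s ω o := rfl
      have e3 : ent (q ω) B.f = b ω := rfl
      rw [e2, e3] at h2'
      linarith)
    rw [← sum_mul, hsum1] at h1
    linarith
  obtain ⟨H, hH1, hH2⟩ := pfr_sub h2 hqo B.f
  have e3 : ent (q o) B.f = b o := rfl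
  rw [e3] at hH1 hH2
  have hK2 : 2 * KC * (Hs (q o) (q o) B.f B.f - b o) ≤ 4 * KC * (τ * B.D) := by
    have := mul_le_mul_of_nonneg_left hκ (by positivity : (0 : ℝ) ≤ 2 * KC)
    linarith
  -- the entropy modulo `H`
  have hhq : B.hq H ≤ (2 + 4 * KC) * (τ * B.D) := by
    have e : B.hq H = ∑ ω, B.p ω * ent (q ω) (fun x => (QuotientAddGroup.mk (B.f x) : G ⧸ H)) :=
      ent_chain B.hp (fun x => (QuotientAddGroup.mk (B.f x) : G ⧸ H)) B.z
    rw [e]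
    have h1 := hav (fun ω => ent (q ω) (fun x => (QuotientAddGroup.mk (B.f x) : G ⧸ H)))
      (4 * KC * (τ * B.D)) (by
      intro ω hω
      have c := contraction (hq ω hω) hqo B.f B.f (QuotientAddGroup.mk' H)
      have c1 := ent_le_Hs_left (hq ω hω) hqo (fun x => QuotientAddGroup.mk' H (B.f x))
        (fun x => QuotientAddGroup.mk' H (B.f x))
      have e2 : Hs (q ω) (q o) B.f B.f = s ω o := rfl
      have e3 : ent (q ω) B.f = b ω := rfl
      have e4 : ent (q o) B.f = b o := rfl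
      have e5 : ent (q ω) (fun x => QuotientAddGroup.mk' H (B.f x)) =
        ent (q ω) (fun x => (QuotientAddGroup.mk (B.f x) : G ⧸ H)) := rfl
      have e6 : ent (q o) (fun x => QuotientAddGroup.mk' H (B.f x)) =
        ent (q o) (fun x => (QuotientAddGroup.mk (B.f x) : G ⧸ H)) := rfl
      rw [e2, e3, e4, e5, e6] at c
      rw [e5] at c1
      linarith)
    linarith
  -- the size of `H`
  have hbo : b o ≤ B.hc + 2 * (τ * B.D) := by
    have h1 := hav (fun ω => b o - b ω) 0 (by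
      intro ω hω
      have c1 := ent_le_Hs_right (hq ω hω) hqo B.f B.f
      have e2 : Hs (q ω) (q o) B.f B.f = s ω o := rfl
      have e4 : ent (q o) B.f = b o := rfl
      rw [e2, e4] at c1
      linarith)
    have h2' : ∑ ω, B.p ω * (b o - b ω) = b o - B.hc := by
      have : ∀ ω, B.p ω * (b o - b ω) = B.p ω * b o - B.p ω * b ω := fun ω => by ring
      rw [sum_congr rfl fun ω _ => this ω, sum_sub_distrib, ← sum_mul, hsum1, one_mul, ← hc1]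
    rw [h2'] at h1
    linarith
  have hcard : Real.log (Fintype.card G) = Real.log (H.index : ℝ) + Real.log (Nat.card H) := by
    have e := H.index_mul_card
    rw [Nat.card_eq_fintype_card (α := G)] at e
    rw [← e, Nat.cast_mul, Real.log_mul]
    · have : H.index ≠ 0 := AddSubgroup.index_ne_zero_of_finite
      exact_mod_cast this
    · have : Nat.card H ≠ 0 := Nat.card_pos.ne'
      exact_mod_cast this
  have hDdef : B.D = Real.log (Fintype.card G) - B.hc := rfl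
  have hsmall : (2 + 4 * KC) * (τ * B.D) ≤ B.D / 3 := by
    have := mul_le_mul_of_nonneg_right hτ hD.le
    linarith
  have hlog : 2 / 3 * B.D ≤ Real.log (H.index : ℝ) := by
    linarith
  refine ⟨H, ?_, ?_⟩
  · rintro rfl
    rw [AddSubgroup.index_top, Nat.cast_one, Real.log_one] at hlog
    linarith
  · unfold CV.Dq
    linarith

end PB
end

section

/-!
PC, job L2: the inequality for four fixed laws. See table papers, Theorem C, part 2, (L2).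
-/

set_option autoImplicit false

namespace PB

open Finset Pool.Agent.Lib.MP_dd2a7c_co

variable {G : Type} [AddCommGroup G] [Fintype G]

/-- JOB L2. Independent `A₁, A₂, A₃, A₄` of laws `α₁, …, α₄`; `K_{1j}` an `ε_{1j}`-approximate stabiliser of `A₁ + A_j`. Then
`H(A₃ mod K₁₂ | A₃ + A₄) ≤ H(A₁+A₂+A₃) + H(A₁+A₂+A₄) - H(A₁+A₂+A₃+A₄) - H(A₁+A₂) + 6 ε₁₂ + 4 ε₁₃ + 4 ε₁₄`.

PROOF. `L := K₁₂ ⊔ K₁₃`, `L' := K₁₂ ⊔ K₁₄`, `K₁₂ ≤ L ⊓ L'`. `H(A₃ mod K₁₂ | A₃ + A₄) ≤ H(A₃ mod L ⊓ L' | A₃ + A₄) + log |L ⊓ L'| - log |K₁₂|`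
(`ent_mod_le_mod`); `H(A₃ mod L ⊓ L' | A₃ + A₄) ≤ H(A₃ mod L) + H(A₃ mod L' | A₃ + A₄)` (`ent_mod_inf`, conditioning), the first is
`≤ H(A₃ mod K₁₃) ≤ ε₁₃` (`ent_mod_mono`, `Apx.right`), the second is `≤ H(A₄ mod L') ≤ ε₁₄` (given `A₃ + A₄` the class of `A₃` is determined by that of `A₄`).
`log |L ⊓ L'| = log |L| + log |L'| - log |L ⊔ L'|` (`log_card_sup`), `log |L| ≤ H(A₁+A₂+A₃) + 2 ε₁₂ + 2 ε₁₃`, `log |L'| ≤ H(A₁+A₂+A₄) + 2 ε₁₂ + 2 ε₁₄`
(`sup_le_three`), `log |L ⊔ L'| ≥ H(A₁+A₂+A₃+A₄) - ε₁₂ - ε₁₃ - ε₁₄` (`ent_le_mod`; `A₁ + A₂ mod K₁₂`, `A₃ mod K₁₃`, `A₄ mod K₁₄`),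
`log |K₁₂| ≥ H(A₁+A₂) - ε₁₂` (`Apx.le`). -/
theorem four {α₁ α₂ α₃ α₄ : G → ℝ} (h₁ : IsProb α₁) (h₂ : IsProb α₂) (h₃ : IsProb α₃) (h₄ : IsProb α₄)
    {K₁₂ K₁₃ K₁₄ : AddSubgroup G} {ε₁₂ ε₁₃ ε₁₄ : ℝ} (a₁₂ : Apx ε₁₂ α₁ α₂ K₁₂) (a₁₃ : Apx ε₁₃ α₁ α₃ K₁₃)
    (a₁₄ : Apx ε₁₄ α₁ α₄ K₁₄) :
    ent (prod α₃ α₄) (fun x => ((QuotientAddGroup.mk x.1 : G ⧸ K₁₂), x.1 + x.2)) - Hd (conv α₃ α₄) ≤
      Hd (conv α₁ (conv α₂ α₃)) + Hd (conv α₁ (conv α₂ α₄)) - Hd (conv (conv α₁ α₂) (conv α₃ α₄)) -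
        Hd (conv α₁ α₂) + 6 * ε₁₂ + 4 * ε₁₃ + 4 * ε₁₄ := by
  classical
  have h₁₂ := isProb_prod h₁ h₂
  have h₃₄ := isProb_prod h₃ h₄
  have hK12 : K₁₂ ≤ (K₁₂ ⊔ K₁₃) ⊓ (K₁₂ ⊔ K₁₄) := le_inf le_sup_left le_sup_left
  have hmk : ∀ (K K' : AddSubgroup G), K ≤ K' → ∀ a b : G,
      (QuotientAddGroup.mk a : G ⧸ K) = QuotientAddGroup.mk b →
      (QuotientAddGroup.mk a : G ⧸ K') = QuotientAddGroup.mk b := by
    intro K K' h a b e
    rw [QuotientAddGroup.eq] at e ⊢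
    exact h e
  -- (i)
  have e1 := ent_mod_le_mod h₃₄ (fun x : G × G => x.1) (fun x : G × G => x.1 + x.2) hK12
  -- (ii)
  have e2 := ent_mod_inf h₃₄ (fun x : G × G => x.1) (fun x : G × G => x.1 + x.2)
    (K₁₂ ⊔ K₁₃) (K₁₂ ⊔ K₁₄)
  have eE : Hd (conv α₃ α₄) = ent (prod α₃ α₄) (fun x : G × G => x.1 + x.2) := Hd_conv _ _
  -- (iii)
  have e3 := ent_pair_le h₃₄
    (fun x : G × G => (QuotientAddGroup.mk x.1 : G ⧸ (K₁₂ ⊔ K₁₃ : AddSubgroup G)))
    (fun x : G × G => x.1 + x.2)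
  have e3a := ent_prod_fst α₃ h₄ (fun x : G => (QuotientAddGroup.mk x : G ⧸ (K₁₂ ⊔ K₁₃ : AddSubgroup G)))
  have e3b : ent α₃ (fun x : G => (QuotientAddGroup.mk x : G ⧸ (K₁₂ ⊔ K₁₃ : AddSubgroup G))) ≤
      ent α₃ (fun x : G => (QuotientAddGroup.mk x : G ⧸ K₁₃)) :=
    ent_mono h₃ _ _ (fun a b _ _ e => hmk _ _ le_sup_right a b e)
  have e3c := Apx.right h₁ h₃ a₁₃
  -- (iv)
  have e4 : ent (prod α₃ α₄) (fun x : G × G =>
        ((QuotientAddGroup.mk x.1 : G ⧸ (K₁₂ ⊔ K₁₄ : AddSubgroup G)), x.1 + x.2)) ≤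
      ent (prod α₃ α₄) (fun x : G × G =>
        ((QuotientAddGroup.mk x.2 : G ⧸ (K₁₂ ⊔ K₁₄ : AddSubgroup G)), x.1 + x.2)) := by
    refine ent_mono h₃₄ _ _ (fun a b _ _ e => ?_)
    obtain ⟨f1, f2⟩ := Prod.ext_iff.1 e
    simp only [] at f1 f2
    refine Prod.ext ?_ f2
    simp only []
    have g1 : (QuotientAddGroup.mk (a.1 + a.2) : G ⧸ (K₁₂ ⊔ K₁₄ : AddSubgroup G)) =
        QuotientAddGroup.mk (b.1 + b.2) := by rw [f2]
    rw [QuotientAddGroup.mk_add, QuotientAddGroup.mk_add, f1] at g1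
    exact add_right_cancel g1
  have e4' := ent_pair_le h₃₄
    (fun x : G × G => (QuotientAddGroup.mk x.2 : G ⧸ (K₁₂ ⊔ K₁₄ : AddSubgroup G)))
    (fun x : G × G => x.1 + x.2)
  have e4a := ent_prod_snd h₃ α₄ (fun x : G => (QuotientAddGroup.mk x : G ⧸ (K₁₂ ⊔ K₁₄ : AddSubgroup G)))
  have e4b : ent α₄ (fun x : G => (QuotientAddGroup.mk x : G ⧸ (K₁₂ ⊔ K₁₄ : AddSubgroup G))) ≤
      ent α₄ (fun x : G => (QuotientAddGroup.mk x : G ⧸ K₁₄)) :=
    ent_mono h₄ _ _ (fun a b _ _ e => hmk _ _ le_sup_right a b e)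
  have e4c := Apx.right h₁ h₄ a₁₄
  -- (v)
  have e5 := log_card_sup (K₁₂ ⊔ K₁₃) (K₁₂ ⊔ K₁₄)
  -- (vi), (vii)
  have e6 := sup_le_three h₁ h₂ h₃ a₁₂ a₁₃
  have e7 := sup_le_three h₁ h₂ h₄ a₁₂ a₁₄
  -- (viii)
  set V : AddSubgroup G := (K₁₂ ⊔ K₁₃) ⊔ (K₁₂ ⊔ K₁₄) with hV
  have hp := isProb_prod h₁₂ h₃₄
  have e8 := ent_le_mod hp (fun x : (G × G) × (G × G) => (x.1.1 + x.1.2) + (x.2.1 + x.2.2))
    (fun _ => ()) V
  have e8a : ent (prod (prod α₁ α₂) (prod α₃ α₄))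
      (fun x : (G × G) × (G × G) => (((x.1.1 + x.1.2) + (x.2.1 + x.2.2) : G), ())) =
      Hd (conv (conv α₁ α₂) (conv α₃ α₄)) := by
    have h := ent_add (prod α₁ α₂) (prod α₃ α₄) (fun x : G × G => x.1 + x.2)
      (fun x : G × G => x.1 + x.2)
    have h' : ent (prod (prod α₁ α₂) (prod α₃ α₄))
        (fun x : (G × G) × (G × G) => (((x.1.1 + x.1.2) + (x.2.1 + x.2.2) : G), ())) =
        ent (prod (prod α₁ α₂) (prod α₃ α₄))
        (fun x : (G × G) × (G × G) => ((x.1.1 + x.1.2) + (x.2.1 + x.2.2) : G)) :=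
      ent_congr _ _ (fun a b _ _ => by simp)
    rw [h', h]
    rfl
  have e8b : ent (prod (prod α₁ α₂) (prod α₃ α₄)) (fun x : (G × G) × (G × G) =>
        ((QuotientAddGroup.mk ((x.1.1 + x.1.2) + (x.2.1 + x.2.2)) : G ⧸ V), ())) ≤
      ent (prod (prod α₁ α₂) (prod α₃ α₄)) (fun x : (G × G) × (G × G) =>
        ((QuotientAddGroup.mk (x.1.1 + x.1.2) : G ⧸ V),
          ((QuotientAddGroup.mk x.2.1 : G ⧸ V), (QuotientAddGroup.mk x.2.2 : G ⧸ V)))) := by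
    refine ent_mono hp _ _ (fun a b _ _ e => ?_)
    obtain ⟨f1, f2⟩ := Prod.ext_iff.1 e
    obtain ⟨f2, f3⟩ := Prod.ext_iff.1 f2
    simp only [] at f1 f2 f3
    refine Prod.ext ?_ rfl
    simp only []
    have ga : (QuotientAddGroup.mk ((a.1.1 + a.1.2) + (a.2.1 + a.2.2)) : G ⧸ V) =
        QuotientAddGroup.mk (a.1.1 + a.1.2) + (QuotientAddGroup.mk a.2.1 +
          QuotientAddGroup.mk a.2.2) := rfl
    have gb : (QuotientAddGroup.mk ((b.1.1 + b.1.2) + (b.2.1 + b.2.2)) : G ⧸ V) =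
        QuotientAddGroup.mk (b.1.1 + b.1.2) + (QuotientAddGroup.mk b.2.1 +
          QuotientAddGroup.mk b.2.2) := rfl
    rw [ga, gb, f1, f2, f3]
  have e8c := ent_prod h₁₂ h₃₄ (fun x : G × G => (QuotientAddGroup.mk (x.1 + x.2) : G ⧸ V))
    (fun x : G × G => ((QuotientAddGroup.mk x.1 : G ⧸ V), (QuotientAddGroup.mk x.2 : G ⧸ V)))
  have e8d := ent_prod h₃ h₄ (fun x : G => (QuotientAddGroup.mk x : G ⧸ V))
    (fun x : G => (QuotientAddGroup.mk x : G ⧸ V))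
  have e8e : ent (prod α₁ α₂) (fun x : G × G => (QuotientAddGroup.mk (x.1 + x.2) : G ⧸ V)) ≤
      ent (prod α₁ α₂) (fun x : G × G => (QuotientAddGroup.mk (x.1 + x.2) : G ⧸ K₁₂)) :=
    ent_mono h₁₂ _ _ (fun a b _ _ e => hmk _ _ (le_sup_left.trans le_sup_left) _ _ e)
  have e8f : ent α₃ (fun x : G => (QuotientAddGroup.mk x : G ⧸ V)) ≤
      ent α₃ (fun x : G => (QuotientAddGroup.mk x : G ⧸ K₁₃)) :=
    ent_mono h₃ _ _ (fun a b _ _ e => hmk _ _ (le_sup_right.trans le_sup_left) _ _ e)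
  have e8g : ent α₄ (fun x : G => (QuotientAddGroup.mk x : G ⧸ V)) ≤
      ent α₄ (fun x : G => (QuotientAddGroup.mk x : G ⧸ K₁₄)) :=
    ent_mono h₄ _ _ (fun a b _ _ e => hmk _ _ (le_sup_right.trans le_sup_right) _ _ e)
  have e8h : ent (prod α₁ α₂) (fun x : G × G => (QuotientAddGroup.mk (x.1 + x.2) : G ⧸ K₁₂)) ≤
      ε₁₂ := a₁₂.1
  -- (ix)
  have e9 := Apx.le h₁ h₂ a₁₂
  beta_reduce at e1 e2 e3 e4 e4' e8 e8c e8d
  linarith

end PB
end

section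

/-!
PC, job L3: the inequalities for sums of two and three fibres, fixed laws. See table papers, Theorem C, part 2, (L1), (L3).
-/

set_option autoImplicit false

namespace PB

open Finset Pool.Agent.Lib.MP_dd2a7c_co

variable {G : Type} [AddCommGroup G] [Fintype G]

section priv

private lemma ent_unit3 {Ω α : Type} [Fintype Ω] (p : Ω → ℝ) (f : Ω → α) :
    ent p (fun ω => (f ω, ())) = ent p f :=
  ent_congr _ _ fun ω ω' _ _ => by simp

/-- The quotient map is monotone for the entropy. -/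
private lemma mk_mono {Ω : Type} [Fintype Ω] {p : Ω → ℝ} (hp : IsProb p) (t : Ω → G)
    {K K' : AddSubgroup G} (h : K ≤ K') :
    ent p (fun ω => (QuotientAddGroup.mk (t ω) : G ⧸ K')) ≤
      ent p (fun ω => (QuotientAddGroup.mk (t ω) : G ⧸ K)) := by
  have := ent_mod_mono hp t (fun _ => ()) h
  rwa [ent_unit3, ent_unit3] at this

private lemma mk_inf {Ω : Type} [Fintype Ω] {p : Ω → ℝ} (hp : IsProb p) (t : Ω → G)
    (K K' : AddSubgroup G) :
    ent p (fun ω => (QuotientAddGroup.mk (t ω) : G ⧸ (K ⊓ K' : AddSubgroup G))) ≤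
      ent p (fun ω => (QuotientAddGroup.mk (t ω) : G ⧸ K)) +
        ent p (fun ω => (QuotientAddGroup.mk (t ω) : G ⧸ K')) := by
  have := ent_mod_inf hp t (fun _ => ()) K K'
  rwa [ent_unit3, ent_unit3, ent_unit3, ent_const hp, add_zero] at this

private lemma conv_le_mod {α β : G → ℝ} (hα : IsProb α) (hβ : IsProb β) (K : AddSubgroup G) :
    Hd (conv α β) ≤ Real.log (Nat.card K) + ent α (fun x => (QuotientAddGroup.mk x : G ⧸ K)) +
      ent β (fun x => (QuotientAddGroup.mk x : G ⧸ K)) := by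
  have hP := isProb_prod hα hβ
  have h1 := ent_le_mod hP (fun x : G × G => x.1 + x.2) (fun _ => ()) K
  rw [ent_unit3, ent_unit3] at h1
  have h2 : ent (prod α β) (fun x : G × G => (QuotientAddGroup.mk (x.1 + x.2) : G ⧸ K)) ≤
      ent (prod α β) (fun x : G × G => ((QuotientAddGroup.mk x.1 : G ⧸ K),
        (QuotientAddGroup.mk x.2 : G ⧸ K))) := by
    refine ent_mono hP _ _ fun ω ω' _ _ e => ?_
    simp only [Prod.mk.injEq] at e
    rw [QuotientAddGroup.mk_add, QuotientAddGroup.mk_add, e.1, e.2]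
  have h3 := ent_prod hα hβ (fun x : G => (QuotientAddGroup.mk x : G ⧸ K))
    (fun x : G => (QuotientAddGroup.mk x : G ⧸ K))
  rw [Hd_conv]
  linarith

private lemma ent_conv_mk (α β : G → ℝ) (K : AddSubgroup G) :
    ent (conv α β) (fun x => (QuotientAddGroup.mk x : G ⧸ K)) = qs α β K := by
  unfold conv qs
  rw [ent_law]
  rfl

private lemma marg {Ω Ω' : Type} [Fintype Ω] [Fintype Ω'] (p : Ω → ℝ) (q : Ω' → ℝ)
    (f : Ω → G) (g : Ω' → G) (K : AddSubgroup G) {α β : G → ℝ} (hf : law p f = α) (hg : law q g = β) :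
    ent (prod p q) (fun x => (QuotientAddGroup.mk (f x.1 + g x.2) : G ⧸ K)) = qs α β K := by
  subst hf hg
  unfold qs
  rw [← law_prod, ent_law]
  rfl

variable {α₁ α₂ α₃ α₄ : G → ℝ}

private lemma entY (h₁ : IsProb α₁) (h₂ : IsProb α₂) (h₃ : IsProb α₃) (h₄ : IsProb α₄) :
    ent (prod (prod α₁ α₂) (prod α₃ α₄))
      (fun x => (x.1.1 + x.1.2, x.2.1 + x.2.2)) = Hd (conv α₁ α₂) + Hd (conv α₃ α₄) := by
  rw [Hd_conv, Hd_conv]
  exact ent_prod (isProb_prod h₁ h₂) (isProb_prod h₃ h₄) (fun x : G × G => x.1 + x.2)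
    (fun x : G × G => x.1 + x.2)

private lemma m13 (h₁ : IsProb α₁) (h₂ : IsProb α₂) (h₃ : IsProb α₃) (h₄ : IsProb α₄)
    (K : AddSubgroup G) :
    ent (prod (prod α₁ α₂) (prod α₃ α₄))
      (fun x => ((QuotientAddGroup.mk (x.1.1 + x.2.1) : G ⧸ K), x.1.1 + x.1.2, x.2.1 + x.2.2)) ≤
      qs α₁ α₃ K + (Hd (conv α₁ α₂) + Hd (conv α₃ α₄)) := by
  have hP := isProb_prod (isProb_prod h₁ h₂) (isProb_prod h₃ h₄)
  refine (ent_pair_le hP _ _).trans ?_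
  rw [entY h₁ h₂ h₃ h₄]
  rw [marg (prod α₁ α₂) (prod α₃ α₄) (fun x => x.1) (fun x => x.1) K
    ((law_prod_fst α₁ h₂ (fun x => x)).trans (law_id α₁))
    ((law_prod_fst α₃ h₄ (fun x => x)).trans (law_id α₃))]

private lemma m14 (h2 : ∀ x : G, x + x = 0) (h₁ : IsProb α₁) (h₂ : IsProb α₂) (h₃ : IsProb α₃)
    (h₄ : IsProb α₄) (K : AddSubgroup G) :
    ent (prod (prod α₁ α₂) (prod α₃ α₄))
      (fun x => ((QuotientAddGroup.mk (x.1.1 + x.2.1) : G ⧸ K), x.1.1 + x.1.2, x.2.1 + x.2.2)) ≤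
      qs α₁ α₄ K + (Hd (conv α₁ α₂) + Hd (conv α₃ α₄)) := by
  have hP := isProb_prod (isProb_prod h₁ h₂) (isProb_prod h₃ h₄)
  have h0 : ent (prod (prod α₁ α₂) (prod α₃ α₄))
      (fun x => ((QuotientAddGroup.mk (x.1.1 + x.2.1) : G ⧸ K), x.1.1 + x.1.2, x.2.1 + x.2.2)) ≤
      ent (prod (prod α₁ α₂) (prod α₃ α₄))
      (fun x => ((QuotientAddGroup.mk (x.1.1 + x.2.2) : G ⧸ K), x.1.1 + x.1.2, x.2.1 + x.2.2)) := by
    refine ent_mono hP _ _ fun ω ω' _ _ e => ?_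
    simp only [Prod.mk.injEq] at e ⊢
    obtain ⟨e1, e2, e3⟩ := e
    refine ⟨?_, e2, e3⟩
    have key : ∀ y : (G × G) × G × G, y.1.1 + y.2.1 = (y.1.1 + y.2.2) + (y.2.1 + y.2.2) := by
      intro y
      have := h2 y.2.2
      rw [show (y.1.1 + y.2.2) + (y.2.1 + y.2.2) = y.1.1 + y.2.1 + (y.2.2 + y.2.2) by abel, this,
        add_zero]
    rw [key ω, key ω', QuotientAddGroup.mk_add, e1, e3, ← QuotientAddGroup.mk_add]
  refine h0.trans ((ent_pair_le hP _ _).trans ?_)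
  rw [entY h₁ h₂ h₃ h₄]
  rw [marg (prod α₁ α₂) (prod α₃ α₄) (fun x => x.1) (fun x => x.2) K
    ((law_prod_fst α₁ h₂ (fun x => x)).trans (law_id α₁))
    ((law_prod_snd h₃ α₄ (fun x => x)).trans (law_id α₄))]

private lemma m23 (h2 : ∀ x : G, x + x = 0) (h₁ : IsProb α₁) (h₂ : IsProb α₂) (h₃ : IsProb α₃)
    (h₄ : IsProb α₄) (K : AddSubgroup G) :
    ent (prod (prod α₁ α₂) (prod α₃ α₄))
      (fun x => ((QuotientAddGroup.mk (x.1.1 + x.2.1) : G ⧸ K), x.1.1 + x.1.2, x.2.1 + x.2.2)) ≤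
      qs α₂ α₃ K + (Hd (conv α₁ α₂) + Hd (conv α₃ α₄)) := by
  have hP := isProb_prod (isProb_prod h₁ h₂) (isProb_prod h₃ h₄)
  have h0 : ent (prod (prod α₁ α₂) (prod α₃ α₄))
      (fun x => ((QuotientAddGroup.mk (x.1.1 + x.2.1) : G ⧸ K), x.1.1 + x.1.2, x.2.1 + x.2.2)) ≤
      ent (prod (prod α₁ α₂) (prod α₃ α₄))
      (fun x => ((QuotientAddGroup.mk (x.1.2 + x.2.1) : G ⧸ K), x.1.1 + x.1.2, x.2.1 + x.2.2)) := by
    refine ent_mono hP _ _ fun ω ω' _ _ e => ?_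
    simp only [Prod.mk.injEq] at e ⊢
    obtain ⟨e1, e2, e3⟩ := e
    refine ⟨?_, e2, e3⟩
    have key : ∀ y : (G × G) × G × G, y.1.1 + y.2.1 = (y.1.2 + y.2.1) + (y.1.1 + y.1.2) := by
      intro y
      have := h2 y.1.2
      rw [show (y.1.2 + y.2.1) + (y.1.1 + y.1.2) = y.1.1 + y.2.1 + (y.1.2 + y.1.2) by abel, this,
        add_zero]
    rw [key ω, key ω', QuotientAddGroup.mk_add, e1, e2, ← QuotientAddGroup.mk_add]
  refine h0.trans ((ent_pair_le hP _ _).trans ?_)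
  rw [entY h₁ h₂ h₃ h₄]
  rw [marg (prod α₁ α₂) (prod α₃ α₄) (fun x => x.2) (fun x => x.1) K
    ((law_prod_snd h₁ α₂ (fun x => x)).trans (law_id α₂))
    ((law_prod_fst α₃ h₄ (fun x => x)).trans (law_id α₃))]

private lemma marg_left {Ω Ω' Ω'' α : Type} [Fintype Ω] [Fintype Ω'] [Fintype Ω''] (p : Ω → ℝ)
    (q : Ω' → ℝ) {r : Ω'' → ℝ} (hr : IsProb r) (u : Ω × Ω' → α) :
    ent (prod p (prod q r)) (fun x => u (x.1, x.2.1)) = ent (prod p q) u := by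
  have h := ent_prod_fst (prod p q) hr u
  rw [← h]
  refine ent_of_equiv (Equiv.prodAssoc Ω Ω' Ω'').symm (fun x => ?_) _ _ (fun x => ?_)
  · simp [prod, mul_assoc]
  · rfl

/-- Three fibres modulo `K`. -/
private lemma m3 {α₅ α₆ : G → ℝ} (h₁ : IsProb α₁) (h₂ : IsProb α₂) (h₃ : IsProb α₃)
    (h₄ : IsProb α₄) (h₅ : IsProb α₅) (h₆ : IsProb α₆) (K : AddSubgroup G) {e : ℝ}
    (h : ent (prod (prod α₁ α₂) (prod α₃ α₄))
      (fun x => ((QuotientAddGroup.mk (x.1.1 + x.2.1) : G ⧸ K), x.1.1 + x.1.2, x.2.1 + x.2.2)) ≤ e) :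
    ent (prod (prod α₁ α₂) (prod (prod α₃ α₄) (prod α₅ α₆)))
      (fun x => ((QuotientAddGroup.mk (x.1.1 + (x.2.1.1 + x.2.2.1)) : G ⧸ K), x.1.1 + x.1.2,
        x.2.1.1 + x.2.1.2, x.2.2.1 + x.2.2.2)) ≤
      e + ent (prod α₅ α₆) (fun x => ((QuotientAddGroup.mk x.1 : G ⧸ K), x.1 + x.2)) := by
  have h12 := isProb_prod h₁ h₂
  have h34 := isProb_prod h₃ h₄
  have h56 := isProb_prod h₅ h₆
  have hP := isProb_prod h12 (isProb_prod h34 h56)
  have e0 : ent (prod (prod α₁ α₂) (prod (prod α₃ α₄) (prod α₅ α₆)))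
      (fun x => ((QuotientAddGroup.mk (x.1.1 + (x.2.1.1 + x.2.2.1)) : G ⧸ K), x.1.1 + x.1.2,
        x.2.1.1 + x.2.1.2, x.2.2.1 + x.2.2.2)) ≤
      ent (prod (prod α₁ α₂) (prod (prod α₃ α₄) (prod α₅ α₆)))
      (fun x => (((QuotientAddGroup.mk (x.1.1 + x.2.1.1) : G ⧸ K), x.1.1 + x.1.2,
        x.2.1.1 + x.2.1.2), ((QuotientAddGroup.mk x.2.2.1 : G ⧸ K), x.2.2.1 + x.2.2.2))) := by
    refine ent_mono hP _ _ fun ω ω' _ _ e => ?_
    simp only [Prod.mk.injEq] at e ⊢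
    obtain ⟨⟨e1, e2, e3⟩, e4, e5⟩ := e
    refine ⟨?_, e2, e3, e5⟩
    rw [← add_assoc, ← add_assoc, QuotientAddGroup.mk_add, e1, e4, ← QuotientAddGroup.mk_add]
  refine e0.trans ((ent_pair_le hP _ _).trans ?_)
  have e1 := marg_left (prod α₁ α₂) (prod α₃ α₄) h56
    (fun x : (G × G) × G × G => ((QuotientAddGroup.mk (x.1.1 + x.2.1) : G ⧸ K), x.1.1 + x.1.2,
      x.2.1 + x.2.2))
  have e2 : ent (prod (prod α₁ α₂) (prod (prod α₃ α₄) (prod α₅ α₆)))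
      (fun x => ((QuotientAddGroup.mk x.2.2.1 : G ⧸ K), x.2.2.1 + x.2.2.2)) =
      ent (prod α₅ α₆) (fun x => ((QuotientAddGroup.mk x.1 : G ⧸ K), x.1 + x.2)) := by
    have a := ent_prod_snd h12 (prod (prod α₃ α₄) (prod α₅ α₆))
      (fun y => ((QuotientAddGroup.mk y.2.1 : G ⧸ K), y.2.1 + y.2.2))
    have b := ent_prod_snd h34 (prod α₅ α₆)
      (fun y => ((QuotientAddGroup.mk y.1 : G ⧸ K), y.1 + y.2))
    exact a.trans b
  have e1' : ent (prod (prod α₁ α₂) (prod (prod α₃ α₄) (prod α₅ α₆)))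
      (fun x => ((QuotientAddGroup.mk (x.1.1 + x.2.1.1) : G ⧸ K), x.1.1 + x.1.2,
        x.2.1.1 + x.2.1.2)) = _ := e1
  rw [e1', e2]
  linarith

end priv

/-- JOB L3. (a) The size of the intersection: `K = K₁₃ ⊓ K₁₄ ⊓ K₂₃`.

PROOF. `log |(K₁₃ ⊓ K₁₄) ⊓ K₂₃| = log |K₁₃ ⊓ K₁₄| + log |K₂₃| - log |(K₁₃ ⊓ K₁₄) ⊔ K₂₃|`, `log |K₁₃ ⊓ K₁₄| = log |K₁₃| + log |K₁₄| - log |K₁₃ ⊔ K₁₄|`.
`log |K_{ij}| ≤ H(A_i + A_j) + ε_{ij}`; `log |K₁₃ ⊔ K₁₄| ≥ H(A₁+A₃+A₄) - ε₁₃ - ε₁₄` (`ent_le_mod`: `A₁ + A₃ mod K₁₃`, `A₄ mod K₁₄`);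
`log |(K₁₃ ⊓ K₁₄) ⊔ K₂₃| ≥ H(A₁+A₂+A₃) - ε₁₃ - ε₁₄ - ε₂₃` (`A₂ + A₃ mod K₂₃`; `H(A₁ mod K₁₃ ⊓ K₁₄) ≤ ε₁₃ + ε₁₄` by `ent_mod_inf`, `Apx.left`). -/
theorem log_inf_le {α₁ α₂ α₃ α₄ : G → ℝ} (h₁ : IsProb α₁) (h₂ : IsProb α₂) (h₃ : IsProb α₃) (h₄ : IsProb α₄)
    {K₁₃ K₁₄ K₂₃ : AddSubgroup G} {ε₁₃ ε₁₄ ε₂₃ : ℝ} (a₁₃ : Apx ε₁₃ α₁ α₃ K₁₃) (a₁₄ : Apx ε₁₄ α₁ α₄ K₁₄)
    (a₂₃ : Apx ε₂₃ α₂ α₃ K₂₃) :
    Real.log (Nat.card (K₁₃ ⊓ K₁₄ ⊓ K₂₃ : AddSubgroup G)) ≤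
      Hd (conv α₁ α₃) + Hd (conv α₁ α₄) + Hd (conv α₂ α₃) - Hd (conv α₁ (conv α₃ α₄)) -
        Hd (conv α₁ (conv α₂ α₃)) + 3 * ε₁₃ + 3 * ε₁₄ + 2 * ε₂₃ := by
  have s1 := log_card_sup (K₁₃ ⊓ K₁₄) K₂₃
  have s2 := log_card_sup K₁₃ K₁₄
  have c1 := a₁₃.2
  have c2 := a₁₄.2
  have c3 := a₂₃.2
  have d1 := conv_le_mod (isProb_conv h₁ h₃) h₄ (K₁₃ ⊔ K₁₄)
  rw [conv_assoc, ent_conv_mk] at d1
  have d2 : qs α₁ α₃ (K₁₃ ⊔ K₁₄) ≤ qs α₁ α₃ K₁₃ :=
    mk_mono (isProb_prod h₁ h₃) (fun x : G × G => x.1 + x.2) le_sup_left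
  have d3 := mk_mono h₄ (fun x : G => x) (K := K₁₄) (K' := K₁₃ ⊔ K₁₄) le_sup_right
  have d4 := a₁₄.right h₁ h₄
  have d5 := a₁₃.1
  have f1 := conv_le_mod h₁ (isProb_conv h₂ h₃) (K₁₃ ⊓ K₁₄ ⊔ K₂₃)
  rw [ent_conv_mk] at f1
  have f2 : qs α₂ α₃ (K₁₃ ⊓ K₁₄ ⊔ K₂₃) ≤ qs α₂ α₃ K₂₃ :=
    mk_mono (isProb_prod h₂ h₃) (fun x : G × G => x.1 + x.2) le_sup_right
  have f3 := mk_mono h₁ (fun x : G => x) (K := K₁₃ ⊓ K₁₄) (K' := K₁₃ ⊓ K₁₄ ⊔ K₂₃) le_sup_left
  have f4 := mk_inf h₁ (fun x : G => x) K₁₃ K₁₄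
  have f5 := a₁₃.left h₁ h₃
  have f6 := a₁₄.left h₁ h₄
  have f7 := a₂₃.1
  linarith

/-- (b) Two fibres: `H(A₁ + A₃ | A₁ + A₂, A₃ + A₄) ≤ log |K₁₃ ⊓ K₁₄ ⊓ K₂₃| + ε₁₃ + ε₁₄ + ε₂₃`.

PROOF. `ent_le_mod` for `K` and `ent_mod_inf` twice; modulo `K₁₃`: `H(A₁ + A₃ mod K₁₃) ≤ ε₁₃`; modulo `K₁₄`: `A₁ + A₃ = (A₁ + A₄) + (A₃ + A₄)` (`h2`) and
`A₃ + A₄` is known, so `≤ H(A₁ + A₄ mod K₁₄) ≤ ε₁₄`; modulo `K₂₃`: `A₁ + A₃ = (A₁ + A₂) + (A₂ + A₃)`. The law of `(x₁ + x₂, x₃ + x₄)` has entropy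
`H(A₁ + A₂) + H(A₃ + A₄)` (`ent_prod`). -/
theorem two_fib (h2 : ∀ x : G, x + x = 0) {α₁ α₂ α₃ α₄ : G → ℝ} (h₁ : IsProb α₁) (h₂ : IsProb α₂)
    (h₃ : IsProb α₃) (h₄ : IsProb α₄)
    {K₁₃ K₁₄ K₂₃ : AddSubgroup G} {ε₁₃ ε₁₄ ε₂₃ : ℝ} (a₁₃ : Apx ε₁₃ α₁ α₃ K₁₃) (a₁₄ : Apx ε₁₄ α₁ α₄ K₁₄)
    (a₂₃ : Apx ε₂₃ α₂ α₃ K₂₃) :
    ent (prod (prod α₁ α₂) (prod α₃ α₄))
        (fun x => (x.1.1 + x.2.1, x.1.1 + x.1.2, x.2.1 + x.2.2)) - Hd (conv α₁ α₂) - Hd (conv α₃ α₄) ≤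
      Real.log (Nat.card (K₁₃ ⊓ K₁₄ ⊓ K₂₃ : AddSubgroup G)) + ε₁₃ + ε₁₄ + ε₂₃ := by
  have hP := isProb_prod (isProb_prod h₁ h₂) (isProb_prod h₃ h₄)
  have g1 := ent_le_mod hP (fun x : (G × G) × G × G => x.1.1 + x.2.1)
    (fun x => (x.1.1 + x.1.2, x.2.1 + x.2.2)) (K₁₃ ⊓ K₁₄ ⊓ K₂₃)
  have g2 := ent_mod_inf hP (fun x : (G × G) × G × G => x.1.1 + x.2.1)
    (fun x => (x.1.1 + x.1.2, x.2.1 + x.2.2)) (K₁₃ ⊓ K₁₄) K₂₃
  have g3 := ent_mod_inf hP (fun x : (G × G) × G × G => x.1.1 + x.2.1)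
    (fun x => (x.1.1 + x.1.2, x.2.1 + x.2.2)) K₁₃ K₁₄
  rw [entY h₁ h₂ h₃ h₄] at g2 g3
  have k1 := m13 h₁ h₂ h₃ h₄ K₁₃
  have k2 := m14 h2 h₁ h₂ h₃ h₄ K₁₄
  have k3 := m23 h2 h₁ h₂ h₃ h₄ K₂₃
  have l1 := a₁₃.1
  have l2 := a₁₄.1
  have l3 := a₂₃.1
  linarith

/-- (c) Three fibres: `H(A₁+A₃+A₅ | A₁+A₂, A₃+A₄, A₅+A₆) ≤ log |K| + ε₁₃ + ε₁₄ + ε₂₃ + η₁₃ + η₁₄ + η₂₃`, `η_{ij} = H(A₅ mod K_{ij} | A₅ + A₆)`.

PROOF. As (b): modulo `K_{ij}` the class of `A₁ + A₃ + A₅` is determined by those of `A₁ + A₃` and `A₅`. -/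
theorem three_fib (h2 : ∀ x : G, x + x = 0) {α₁ α₂ α₃ α₄ α₅ α₆ : G → ℝ} (h₁ : IsProb α₁) (h₂ : IsProb α₂)
    (h₃ : IsProb α₃) (h₄ : IsProb α₄) (h₅ : IsProb α₅) (h₆ : IsProb α₆)
    {K₁₃ K₁₄ K₂₃ : AddSubgroup G} {ε₁₃ ε₁₄ ε₂₃ : ℝ} (a₁₃ : Apx ε₁₃ α₁ α₃ K₁₃) (a₁₄ : Apx ε₁₄ α₁ α₄ K₁₄)
    (a₂₃ : Apx ε₂₃ α₂ α₃ K₂₃) :
    ent (prod (prod α₁ α₂) (prod (prod α₃ α₄) (prod α₅ α₆)))
        (fun x => (x.1.1 + (x.2.1.1 + x.2.2.1), x.1.1 + x.1.2, x.2.1.1 + x.2.1.2, x.2.2.1 + x.2.2.2)) -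
        Hd (conv α₁ α₂) - Hd (conv α₃ α₄) - Hd (conv α₅ α₆) ≤
      Real.log (Nat.card (K₁₃ ⊓ K₁₄ ⊓ K₂₃ : AddSubgroup G)) + ε₁₃ + ε₁₄ + ε₂₃ +
        ((ent (prod α₅ α₆) (fun x => ((QuotientAddGroup.mk x.1 : G ⧸ K₁₃), x.1 + x.2)) - Hd (conv α₅ α₆)) +
        (ent (prod α₅ α₆) (fun x => ((QuotientAddGroup.mk x.1 : G ⧸ K₁₄), x.1 + x.2)) - Hd (conv α₅ α₆)) +
        (ent (prod α₅ α₆) (fun x => ((QuotientAddGroup.mk x.1 : G ⧸ K₂₃), x.1 + x.2)) - Hd (conv α₅ α₆))) := by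
  have h12 := isProb_prod h₁ h₂
  have h34 := isProb_prod h₃ h₄
  have h56 := isProb_prod h₅ h₆
  have hP := isProb_prod h12 (isProb_prod h34 h56)
  have g1 := ent_le_mod hP (fun x : (G × G) × (G × G) × G × G => x.1.1 + (x.2.1.1 + x.2.2.1))
    (fun x => (x.1.1 + x.1.2, x.2.1.1 + x.2.1.2, x.2.2.1 + x.2.2.2)) (K₁₃ ⊓ K₁₄ ⊓ K₂₃)
  have g2 := ent_mod_inf hP (fun x : (G × G) × (G × G) × G × G => x.1.1 + (x.2.1.1 + x.2.2.1))
    (fun x => (x.1.1 + x.1.2, x.2.1.1 + x.2.1.2, x.2.2.1 + x.2.2.2)) (K₁₃ ⊓ K₁₄) K₂₃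
  have g3 := ent_mod_inf hP (fun x : (G × G) × (G × G) × G × G => x.1.1 + (x.2.1.1 + x.2.2.1))
    (fun x => (x.1.1 + x.1.2, x.2.1.1 + x.2.1.2, x.2.2.1 + x.2.2.2)) K₁₃ K₁₄
  have eY : ent (prod (prod α₁ α₂) (prod (prod α₃ α₄) (prod α₅ α₆)))
      (fun x => (x.1.1 + x.1.2, x.2.1.1 + x.2.1.2, x.2.2.1 + x.2.2.2)) =
      Hd (conv α₁ α₂) + (Hd (conv α₃ α₄) + Hd (conv α₅ α₆)) := by
    rw [← entY h₃ h₄ h₅ h₆, Hd_conv α₁ α₂]
    exact ent_prod h12 (isProb_prod h34 h56) (fun x : G × G => x.1 + x.2)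
      (fun x : (G × G) × G × G => (x.1.1 + x.1.2, x.2.1 + x.2.2))
  rw [eY] at g2 g3
  have k1 := m3 h₁ h₂ h₃ h₄ h₅ h₆ K₁₃ (m13 h₁ h₂ h₃ h₄ K₁₃)
  have k2 := m3 h₁ h₂ h₃ h₄ h₅ h₆ K₁₄ (m14 h2 h₁ h₂ h₃ h₄ K₁₄)
  have k3 := m3 h₁ h₂ h₃ h₄ h₅ h₆ K₂₃ (m23 h2 h₁ h₂ h₃ h₄ K₂₃)
  have l1 := a₁₃.1
  have l2 := a₁₄.1
  have l3 := a₂₃.1
  linarith

end PB
end

section

/-!
PC, job P3: the two inequalities for the prior `X`. See table papers, Theorem C, part 3.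
-/

set_option autoImplicit false

namespace PB

open Finset Pool.Agent.Lib.MP_dd2a7c_co

variable {G : Type} [AddCommGroup G] [Fintype G]

/-- JOB P3. (a) `D(X + B) ≤ D(X + WB) / 2 + D(SB) / 2` (labels of `X` included).

PROOF. Write `Z_X` for the label of `X`. `2 H(X + B | Z, Z_X) ≥ H(X + B₁, X + B₂ | Z₁, Z₂, Z_X)` (`submod'` over `(z_X)`), which by `h2` is
`H(X + B₁, B₁ + B₂ | …) = H(X + B₁ | B₁ + B₂, Z₁, Z₂, Z_X) + H(B₁ + B₂ | Z₁, Z₂)`. In terms of entropies: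
`ent (x + f₁, z₁, x.z) + ent (x + f₂, z₂, x.z) ≥ ent (x + f₁, x + f₂, z₁, z₂, x.z) + ent (x.z)` on the space `prod X.p (prod B.p B.p)`. -/
theorem A_W (h2 : ∀ x : G, x + x = 0) (X B : CV G) :
    (X.A B).D ≤ 1 / 2 * (X.A B.W).D + 1 / 2 * B.S.D := by
  have hP := isProb_prod X.hp (isProb_prod B.hp B.hp)
  have h0 := submod' hP
    (fun x : X.Ω × (B.Ω × B.Ω) => (X.f x.1 + B.f x.2.1, (X.z x.1, B.z x.2.1)))
    (fun x : X.Ω × (B.Ω × B.Ω) => (X.f x.1 + B.f x.2.2, (X.z x.1, B.z x.2.2)))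
    (fun x : X.Ω × (B.Ω × B.Ω) => X.z x.1)
    (fun x : X.Ω × (B.Ω × B.Ω) => (X.f x.1 + B.f x.2.1,
      (X.z x.1, (B.f x.2.1 + B.f x.2.2, B.z x.2.1, B.z x.2.2))))
    (fun ω ω' e => by
      simp only [Prod.mk.injEq] at e
      exact e.2.1)
    (fun ω ω' e => by
      simp only [Prod.mk.injEq] at e
      exact e.2.1)
    (fun ω ω' _ _ e e' => by
      simp only [Prod.mk.injEq] at e e' ⊢
      refine ⟨e.1, e.2.1, ?_, e.2.2, e'.2.2⟩
      have k : ∀ x a b : G, a + b = (x + a) + (x + b) := by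
        intro x a b
        rw [show (x + a) + (x + b) = a + b + (x + x) by abel, h2, add_zero]
      rw [k (X.f ω.1) (B.f ω.2.1) (B.f ω.2.2), k (X.f ω'.1) (B.f ω'.2.1) (B.f ω'.2.2), e.1, e'.1])
  have h3 := ent_three_12 X.p B.hp (fun x : X.Ω × B.Ω => (X.f x.1 + B.f x.2, (X.z x.1, B.z x.2)))
  have h4 := ent_three_13 X.p B.hp (fun x : X.Ω × B.Ω => (X.f x.1 + B.f x.2, (X.z x.1, B.z x.2)))
  dsimp only at h3 h4
  have h5 := ent_prod_fst X.p (isProb_prod B.hp B.hp) X.z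
  have h6 := ent_prod X.hp B.hp X.z B.z
  have h7 := ent_prod X.hp (isProb_prod B.hp B.hp) X.z
    (fun x : B.Ω × B.Ω => (B.f x.1 + B.f x.2, B.z x.1, B.z x.2))
  have h8 := ent_prod B.hp B.hp B.z B.z
  have e1 : (X.A B).hc = ent (prod X.p B.p) (fun x => (X.f x.1 + B.f x.2, (X.z x.1, B.z x.2))) -
      ent (prod X.p B.p) (fun x => (X.z x.1, B.z x.2)) := rfl
  have e2 : (X.A B.W).hc = ent (prod X.p (prod B.p B.p)) (fun x => (X.f x.1 + B.f x.2.1,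
      (X.z x.1, (B.f x.2.1 + B.f x.2.2, B.z x.2.1, B.z x.2.2)))) -
      ent (prod X.p (prod B.p B.p)) (fun x => (X.z x.1,
        (B.f x.2.1 + B.f x.2.2, B.z x.2.1, B.z x.2.2))) := rfl
  have e3 : B.S.hc = ent (prod B.p B.p) (fun x => (B.f x.1 + B.f x.2, B.z x.1, B.z x.2)) -
      ent (prod B.p B.p) (fun x => (B.z x.1, B.z x.2)) := rfl
  unfold CV.D
  rw [e1, e2, e3]
  linarith

/-- (b) Peeling: `D(X + B) ≤ D(X mod V) + D^V(X' + B')`, `X' = X.res V`, `B' = B.res V`.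

PROOF. `H(X + B | Z, Z_X) = H(π(X + B) | Z, Z_X) + H(X + B | π(X + B), Z, Z_X)`, the first term is at least
`H(π(X + B) | Z, Z_X, B) = H(πX | Z_X)`, the second at least `H(X + B | πX, πB, Z, Z_X) = H(X' + B' | πX, πB, Z, Z_X)` (given `πX, πB` the variables
`X + B` and `X' + B'` differ by a constant), `log |G| = log [G : V] + log |V|`. -/
theorem A_res (X B : CV G) (V : AddSubgroup G) [Fintype V] :
    (X.A B).D ≤ X.Dq V + ((X.res V).A (B.res V)).D := by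
  have hP := isProb_prod X.hp B.hp
  have h0 := submod' hP
    (fun x : X.Ω × B.Ω => (X.f x.1 + B.f x.2, (X.z x.1, B.z x.2)))
    (fun x : X.Ω × B.Ω => ((QuotientAddGroup.mk (B.f x.2) : G ⧸ V), B.z x.2))
    (fun x : X.Ω × B.Ω => B.z x.2)
    (fun x : X.Ω × B.Ω => ((X.res V).f x.1 + (B.res V).f x.2,
      (((QuotientAddGroup.mk (X.f x.1) : G ⧸ V), X.z x.1),
        ((QuotientAddGroup.mk (B.f x.2) : G ⧸ V), B.z x.2))))
    (fun ω ω' e => by
      simp only [Prod.mk.injEq] at e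
      exact e.2.2)
    (fun ω ω' e => by
      simp only [Prod.mk.injEq] at e
      exact e.2)
    (fun ω ω' _ _ e e' => by
      simp only [Prod.mk.injEq] at e e' ⊢
      have h3 : (QuotientAddGroup.mk (X.f ω.1) : G ⧸ V) = QuotientAddGroup.mk (X.f ω'.1) := by
        have h4 : (QuotientAddGroup.mk (X.f ω.1 + B.f ω.2) : G ⧸ V) =
            QuotientAddGroup.mk (X.f ω'.1 + B.f ω'.2) := by rw [e.1]
        rw [QuotientAddGroup.mk_add, QuotientAddGroup.mk_add, e'.1] at h4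
        exact add_right_cancel h4
      refine ⟨?_, ⟨h3, e.2.1⟩, e'⟩
      apply Subtype.ext
      change (X.f ω.1 - Quotient.out (QuotientAddGroup.mk (X.f ω.1) : G ⧸ V)) +
          (B.f ω.2 - Quotient.out (QuotientAddGroup.mk (B.f ω.2) : G ⧸ V)) =
        (X.f ω'.1 - Quotient.out (QuotientAddGroup.mk (X.f ω'.1) : G ⧸ V)) +
          (B.f ω'.2 - Quotient.out (QuotientAddGroup.mk (B.f ω'.2) : G ⧸ V))
      rw [h3, e'.1, sub_add_sub_comm, sub_add_sub_comm, e.1])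
  have h1 := ent_prod_snd X.hp B.p B.z
  have h2 := ent_prod_snd X.hp B.p (fun ω => ((QuotientAddGroup.mk (B.f ω) : G ⧸ V), B.z ω))
  have h3 := ent_prod X.hp B.hp X.z B.z
  have h4 := ent_prod X.hp B.hp (fun ω => ((QuotientAddGroup.mk (X.f ω) : G ⧸ V), X.z ω))
    (fun ω => ((QuotientAddGroup.mk (B.f ω) : G ⧸ V), B.z ω))
  have hc : Real.log (Fintype.card G) = Real.log (V.index : ℝ) + Real.log (Fintype.card V) := by
    have h5 : V.index * Fintype.card V = Fintype.card G := by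
      rw [← Nat.card_eq_fintype_card, ← Nat.card_eq_fintype_card, V.index_mul_card]
    have h6 : (V.index : ℝ) ≠ 0 := by
      have : V.index ≠ 0 := fun h => by
        rw [h, zero_mul] at h5
        exact Fintype.card_ne_zero h5.symm
      exact_mod_cast this
    have h7 : (Fintype.card V : ℝ) ≠ 0 := by
      exact_mod_cast Fintype.card_ne_zero
    rw [← Real.log_mul h6 h7, ← h5]
    push_cast
    rfl
  have e1 : (X.A B).hc = ent (prod X.p B.p) (fun x => (X.f x.1 + B.f x.2, (X.z x.1, B.z x.2))) -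
      ent (prod X.p B.p) (fun x => (X.z x.1, B.z x.2)) := rfl
  have e2 : ((X.res V).A (B.res V)).hc = ent (prod X.p B.p)
      (fun x : X.Ω × B.Ω => ((X.res V).f x.1 + (B.res V).f x.2,
      (((QuotientAddGroup.mk (X.f x.1) : G ⧸ V), X.z x.1),
        ((QuotientAddGroup.mk (B.f x.2) : G ⧸ V), B.z x.2)))) -
      ent (prod X.p B.p) (fun x : X.Ω × B.Ω => (((QuotientAddGroup.mk (X.f x.1) : G ⧸ V), X.z x.1),
        ((QuotientAddGroup.mk (B.f x.2) : G ⧸ V), B.z x.2))) := rfl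
  unfold CV.D CV.Dq CV.hq
  rw [e1, e2, hc]
  linarith

end PB
end
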