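import Mathlib
import Pool.Agent.Lib.MP_c6cae0_co.PC.P3
import Pool.Agent.Lib.MP_c6cae0_co.PB.U2

section

section

/-!
PC, job Q1: the abstract ratio argument. See table papers, Theorem C, part 3.
-/

set_option autoImplicit false

namespace PB

/-- The abstract structure: `S`, `W` two operations, `D` a real function, `R` a relation, `P` a predicate. -/
structure Sys2 {𝔅 : Type*} (M τ : ℝ) (S W : 𝔅 → 𝔅) (D : 𝔅 → ℝ) (R : 𝔅 → 𝔅 → Prop) (P : 𝔅 → Prop) : Prop where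
  D_W : ∀ B, D (W B) = 2 * D B - D (S B)
  D_nonneg : ∀ B, 0 ≤ D B
  D_S_le : ∀ B, D (S B) ≤ D B
  D_S_le_S_W : ∀ B, D (S B) ≤ D (S (W B))
  I1 : ∀ B, 0 ≤ D (S (W B)) - 2 * D (S B) + D (S (S B))
  lf : ∀ B, D (S (W (W B))) - D (S (S (W (W B)))) ≤
    6 * (D (S (W (W B))) - 2 * D (S (W B)) + D (S (S (W B)))) + M * (D (S (W B)) - 2 * D (S B) + D (S (S B)))
  near : ∀ B, 0 < D B → (1 - τ) * D B ≤ D (S B) → P B
  refl : ∀ B, R B B
  trans : ∀ B B' B'', R B B' → R B' B'' → R B B''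
  R_S : ∀ B, R B (S B)
  R_W : ∀ B B', R B B' → R (W B) (W B')
  R_self : ∀ B, R (W B) B
  P_mono : ∀ B B', R B B' → P B' → P B

variable {𝔅 : Type*} {M τ : ℝ} {S W : 𝔅 → 𝔅} {D : 𝔅 → ℝ} {R : 𝔅 → 𝔅 → Prop} {P : 𝔅 → Prop}

/-- JOB Q1. (a) Iterated fibres of comparable elements. PROOF. Induction on `j` (`Function.iterate_succ_apply'`). -/
theorem Sys2.R_iter (hs : Sys2 M τ S W D R P) {B B' : 𝔅} (h : R B B') (j : ℕ) : R (W^[j] B) (W^[j] B') := by
  induction j with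
  | zero => simpa using h
  | succ j ih =>
    rw [Function.iterate_succ_apply', Function.iterate_succ_apply']
    exact hs.R_W _ _ ih

/-- (b) `P` for `W^j B` implies `P` for `W^t B`, `j ≤ t`. PROOF. `R_self`, `trans`, `P_mono`, induction. -/
theorem Sys2.P_iter (hs : Sys2 M τ S W D R P) {B : 𝔅} {j t : ℕ} (hjt : j ≤ t) (h : P (W^[j] B)) :
    P (W^[t] B) := by
  induction hjt with
  | refl => exact h
  | step _ ih =>
    rw [Function.iterate_succ_apply']
    exact hs.P_mono _ _ (hs.R_self _) ih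

/-- (c) One step: the ratio `r = D(SB)/D(B)` can be increased by the factor `1 + κ` by a word of length at most two, or `W² B` has `P`.

PROOF. Let `D = D B`, `e = D (S B) > 0`, `e' = D (S (S B))`, `r = e / D ∈ (0, 1]`, `I₁ = D (S (W B)) - 2 e + e'`. Assume the first alternative fails. For
`B' = S B` (`k = 0`): `e' < (1 + κ) r e` (also if `e' = 0`). For `B' = W B` (`k = 1`): `D (S (W B)) ≥ e > 0`, so `D (S (W B)) < (1 + κ) r D (W B) =
(1 + κ) (2 - r) e` (as `r D (W B) = r (2 - r) D = (2 - r) e`). So `I₁ < (1 + κ)(2 - r) e - 2 e + (1 + κ) r e = 2 κ e`.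
With `r₁ = D (S (W B)) / D (W B)`: `D (S (W B)) ≥ 2 e - e' ≥ (2 - (1 + κ) r) e` (`I1`), so `r₁ ≥ r (2 - (1 + κ) r) / (2 - r) ≥ (1 - κ) r`.
For `B' = S (W B)` and `B' = W (W B)` (`k = 1, 2`): `D (S (S (W B))) < (1 + κ) r D (S (W B))`, `D (S (W (W B))) < (1 + κ) r D (W (W B))`, and
`(1 + κ) r ≤ (1 + 3 κ) r₁` (`κ ≤ 1 / 3`: `(1 + κ) ≤ (1 + 3 κ)(1 - κ)`), so in the same way `I₁(W B) < 6 κ D (S (W B))`. By `lf` and `e ≤ D (S (W B)) ≤ D (S (W (W B)))`:
`D (S (W (W B))) - D (S (S (W (W B)))) ≤ (36 κ + 2 M κ) D (S (W (W B))) ≤ τ D (S (W (W B)))`; `near` for `S (W (W B))`, and `P_mono`, `R_S`. -/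
theorem Sys2.step (hs : Sys2 M τ S W D R P) (hM : 0 ≤ M) {κ : ℝ} (hκ0 : 0 < κ) (hκ1 : κ ≤ 1 / 3)
    (hκ : (36 + 2 * M) * κ ≤ τ) (B : 𝔅) (hB : 0 < D (S B)) :
    (∃ (B' : 𝔅) (k : ℕ), k ≤ 2 ∧ R (W^[k] B) B' ∧ 0 < D (S B') ∧
      (1 + κ) * (D (S B) / D B) ≤ D (S B') / D B') ∨ P (W^[2] B) := by
  by_cases hfail : ∃ (B' : 𝔅) (k : ℕ), k ≤ 2 ∧ R (W^[k] B) B' ∧ 0 < D (S B') ∧
      (1 + κ) * (D (S B) / D B) ≤ D (S B') / D B'
  · exact Or.inl hfail
  right
  have hno : ∀ (B' : 𝔅) (k : ℕ), k ≤ 2 → R (W^[k] B) B' → 0 < D (S B') →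
      D (S B') / D B' < (1 + κ) * (D (S B) / D B) := by
    intro B' k hk hR hp
    by_contra hcon
    exact hfail ⟨B', k, hk, hR, hp, not_lt.1 hcon⟩
  have heD : D (S B) ≤ D B := hs.D_S_le B
  have hD : 0 < D B := lt_of_lt_of_le hB heD
  obtain ⟨r, hr⟩ : ∃ r : ℝ, r = D (S B) / D B := ⟨_, rfl⟩
  have hrD : r * D B = D (S B) := by rw [hr]; field_simp
  have hr0 : 0 < r := by rw [hr]; positivity
  have hr1 : r ≤ 1 := by rw [hr, div_le_one hD]; exact heD
  rw [← hr] at hno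
  have h1κ : 0 < 1 + κ := by linarith
  -- the general consequence of the failure
  have hno' : ∀ (B' : 𝔅) (k : ℕ), k ≤ 2 → R (W^[k] B) B' → 0 < D B' →
      D (S B') < (1 + κ) * r * D B' := by
    intro B' k hk hR hp
    rcases (hs.D_nonneg (S B')).lt_or_eq with h0 | h0
    · have := hno B' k hk hR h0
      rwa [div_lt_iff₀ hp] at this
    · rw [← h0]; positivity
  have hWB : D (W B) = 2 * D B - D (S B) := hs.D_W B
  have hWB0 : 0 < D (W B) := by rw [hWB]; linarith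
  have hf0 : D (S B) ≤ D (S (W B)) := hs.D_S_le_S_W B
  have hf : 0 < D (S (W B)) := lt_of_lt_of_le hB hf0
  have hWWB : D (W (W B)) = 2 * D (W B) - D (S (W B)) := hs.D_W (W B)
  have hfle : D (S (W B)) ≤ D (W B) := hs.D_S_le (W B)
  have hWWB0 : 0 < D (W (W B)) := by rw [hWWB]; linarith
  have hh0 : D (S (W B)) ≤ D (S (W (W B))) := hs.D_S_le_S_W (W B)
  have hh : 0 < D (S (W (W B))) := lt_of_lt_of_le hf hh0
  have h1 : D (S (S B)) < (1 + κ) * r * D (S B) :=
    hno' (S B) 0 (by norm_num) (hs.R_S B) hB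
  have h2 : D (S (W B)) < (1 + κ) * r * D (W B) :=
    hno' (W B) 1 (by norm_num) (hs.refl _) hWB0
  have h3 : D (S (S (W B))) < (1 + κ) * r * D (S (W B)) :=
    hno' (S (W B)) 1 (by norm_num) (hs.R_S _) hf
  have h4 : D (S (W (W B))) < (1 + κ) * r * D (W (W B)) :=
    hno' (W (W B)) 2 (by norm_num) (hs.refl _) hWWB0
  have hI1 := hs.I1 B
  have hlf := hs.lf B
  -- first estimate
  have hA : D (S (W B)) - 2 * D (S B) + D (S (S B)) ≤ 2 * κ * D (S B) := by
    have e1 : (1 + κ) * r * D (W B) = (1 + κ) * (2 * D (S B) - r * D (S B)) := by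
      rw [hWB, ← hrD]; ring
    rw [e1] at h2
    nlinarith [h1, h2]
  -- the ratio of `W B`
  obtain ⟨r₁, hr₁⟩ : ∃ r₁ : ℝ, r₁ = D (S (W B)) / D (W B) := ⟨_, rfl⟩
  have hr₁D : r₁ * D (W B) = D (S (W B)) := by rw [hr₁]; field_simp
  have hfr : (1 - κ) * r * D (W B) ≤ D (S (W B)) := by
    have e1 : D (W B) = (2 - r) * D B := by rw [hWB, ← hrD]; ring
    have e2 : (2 - (1 + κ) * r) * D (S B) ≤ D (S (W B)) := by linarith [hI1, h1]
    have e3 : (1 - κ) * r * D (W B) ≤ (2 - (1 + κ) * r) * D (S B) := by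
      rw [e1, ← hrD]
      have e4 : (2 - (1 + κ) * r) * (r * D B) - (1 - κ) * r * ((2 - r) * D B)
          = 2 * κ * (1 - r) * r * D B := by ring
      have e5 : 0 ≤ 2 * κ * (1 - r) * r * D B := by
        have : 0 ≤ 1 - r := by linarith
        positivity
      linarith
    exact e3.trans e2
  have hr₁r : (1 - κ) * r ≤ r₁ := by
    rw [hr₁, le_div_iff₀ hWB0]; exact hfr
  have hcr : (1 + κ) * r ≤ (1 + 3 * κ) * r₁ := by
    have e1 : (1 + κ) ≤ (1 + 3 * κ) * (1 - κ) := by nlinarith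
    calc (1 + κ) * r ≤ (1 + 3 * κ) * (1 - κ) * r := mul_le_mul_of_nonneg_right e1 hr0.le
      _ = (1 + 3 * κ) * ((1 - κ) * r) := by ring
      _ ≤ (1 + 3 * κ) * r₁ := mul_le_mul_of_nonneg_left hr₁r (by linarith)
  have hBd : D (S (W (W B))) - 2 * D (S (W B)) + D (S (S (W B))) ≤ 6 * κ * D (S (W B)) := by
    have h3' : D (S (S (W B))) ≤ (1 + 3 * κ) * r₁ * D (S (W B)) :=
      h3.le.trans (mul_le_mul_of_nonneg_right hcr hf.le)
    have h4' : D (S (W (W B))) ≤ (1 + 3 * κ) * r₁ * D (W (W B)) :=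
      h4.le.trans (mul_le_mul_of_nonneg_right hcr hWWB0.le)
    have e1 : (1 + 3 * κ) * r₁ * D (W (W B)) =
        (1 + 3 * κ) * (2 * D (S (W B)) - r₁ * D (S (W B))) := by
      rw [hWWB, ← hr₁D]; ring
    rw [e1] at h4'
    have e2 : (1 + 3 * κ) * (2 * D (S (W B)) - r₁ * D (S (W B))) +
        (1 + 3 * κ) * r₁ * D (S (W B)) = 2 * (1 + 3 * κ) * D (S (W B)) := by ring
    linarith
  have hfin : (1 - τ) * D (S (W (W B))) ≤ D (S (S (W (W B)))) := by
    have e1 : M * (D (S (W B)) - 2 * D (S B) + D (S (S B))) ≤ M * (2 * κ * D (S (W (W B)))) := by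
      refine mul_le_mul_of_nonneg_left (hA.trans ?_) hM
      exact mul_le_mul_of_nonneg_left (hf0.trans hh0) (by positivity)
    have e2 : 6 * (6 * κ * D (S (W B))) ≤ 36 * κ * D (S (W (W B))) := by
      have := mul_le_mul_of_nonneg_left hh0 (show 0 ≤ 36 * κ by positivity)
      linarith
    have e3 : (36 + 2 * M) * κ * D (S (W (W B))) ≤ τ * D (S (W (W B))) :=
      mul_le_mul_of_nonneg_right hκ hh.le
    nlinarith [e1, e2, e3, hlf, hBd]
  have hP := hs.near (S (W (W B))) hh hfin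
  exact hs.P_mono _ _ (hs.R_S _) hP

/-- (d) Iteration. PROOF. Induction on `n` from (c): either `P` for some `W^[j] B`, `j ≤ 2 n + 2`, or there is `B'` with `R (W^[j] B) B'`, `j ≤ 2 n`,
`D (S B') > 0` and ratio at least `(1 + κ)^n σ` (`R (W^[k] B') B''` gives `R (W^[k + j] B) B''` by (a), `trans`, `Function.iterate_add_apply`). The ratio is at most one
(`D_S_le`). -/
theorem Sys2.const_ratio (hs : Sys2 M τ S W D R P) (hM : 0 ≤ M) {κ σ : ℝ} (hκ0 : 0 < κ) (hκ1 : κ ≤ 1 / 3)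
    (hκ : (36 + 2 * M) * κ ≤ τ) {n : ℕ} (hn : 1 < (1 + κ) ^ n * σ) (B : 𝔅) (hB : 0 < D (S B))
    (hσ : σ * D B ≤ D (S B)) : P (W^[2 * n + 2] B) := by
  have hD : 0 < D B := lt_of_lt_of_le hB (hs.D_S_le B)
  have key : ∀ n : ℕ, (∃ j, j ≤ 2 * n ∧ P (W^[j] B)) ∨
      (∃ (B' : 𝔅) (j : ℕ), j ≤ 2 * n ∧ R (W^[j] B) B' ∧ 0 < D (S B') ∧
        (1 + κ) ^ n * σ ≤ D (S B') / D B') := by
    intro n
    induction n with
    | zero =>
      right
      refine ⟨B, 0, le_rfl, hs.refl _, hB, ?_⟩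
      rw [pow_zero, one_mul, le_div_iff₀ hD]
      exact hσ
    | succ n ih =>
      rcases ih with ⟨j, hj, hP⟩ | ⟨B', j, hj, hR, hp, hrat⟩
      · exact Or.inl ⟨j, by omega, hP⟩
      · rcases hs.step hM hκ0 hκ1 hκ B' hp with ⟨B'', k, hk, hR', hp', hrat'⟩ | hP
        · right
          refine ⟨B'', k + j, by omega, ?_, hp', ?_⟩
          · rw [Function.iterate_add_apply]
            exact hs.trans _ _ _ (hs.R_iter hR k) hR'
          · calc (1 + κ) ^ (n + 1) * σ = (1 + κ) * ((1 + κ) ^ n * σ) := by ring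
              _ ≤ (1 + κ) * (D (S B') / D B') := mul_le_mul_of_nonneg_left hrat (by linarith)
              _ ≤ D (S B'') / D B'' := hrat'
        · left
          refine ⟨2 + j, by omega, ?_⟩
          rw [Function.iterate_add_apply]
          exact hs.P_mono _ _ (hs.R_iter hR 2) hP
  rcases key n with ⟨j, hj, hP⟩ | ⟨B', j, hj, hR, hp, hrat⟩
  · exact hs.P_iter (by omega) hP
  · exfalso
    have hD' : 0 < D B' := lt_of_lt_of_le hp (hs.D_S_le B')
    have : D (S B') / D B' ≤ 1 := by rw [div_le_one hD']; exact hs.D_S_le B'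
    linarith

end PB
end

section

/-!
PC, job Q2: growth. See table papers, Theorem C, part 3.
-/

set_option autoImplicit false

namespace PB

section

variable {𝔅 : Type*} {M τ : ℝ} {S W : 𝔅 → 𝔅} {D : 𝔅 → ℝ} {R : 𝔅 → 𝔅 → Prop} {P : 𝔅 → Prop}

/-- JOB Q2. (a) Two steps of growth, for an unpinned element.

PROOF. `e = D (S B)`; if `e = 0` trivial (`D_nonneg`). `D (S (S B)) < ι / 8 * e`: otherwise `const_ratio` for `S B` (`σ = ι / 8`; `D (S (S B)) > 0`) gives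
`P (W^[w] (S B))`, so `P (W^[w] B)` (`R_S`, `R_iter`, `P_mono`), so `P (W^[w + 2] B)`: excluded. Similarly
`D (S (S (W B))) < ι / 8 * D (S (W B))`. If `I₁(B) ≤ ι e` and `I₁(W B) ≤ ι D (S (W B))` then `lf` gives
`D (S (W (W B))) - D (S (S (W (W B)))) ≤ (6 + M) ι D (S (W (W B))) ≤ τ …`, so `P (S (W (W B)))` by `near` and `P (W^[2] B)`: excluded. So `I₁(B) > ι e` or
`I₁(W B) > ι D (S (W B))`; with `D (S (W B)) = 2 e - D (S (S B)) + I₁(B)` and the same for `W B`, and `I₁ ≥ 0` (`I1`):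
`D (S (W (W B))) ≥ (2 - ι / 8) (2 - ι / 8 + ι) e ≥ 4 (1 + ι / 8) e`. -/
theorem Sys2.grow_two (hs : Sys2 M τ S W D R P) (hM : 0 ≤ M) {κ ι : ℝ} (hκ0 : 0 < κ) (hκ1 : κ ≤ 1 / 3)
    (hκ : (36 + 2 * M) * κ ≤ τ) (hι0 : 0 < ι) (hι1 : ι ≤ 1) (hι : (6 + M) * ι ≤ τ) {n : ℕ}
    (hn : 1 < (1 + κ) ^ n * (ι / 8)) (B : 𝔅) (hP : ¬ P (W^[2 * n + 4] B)) :
    4 * (1 + ι / 8) * D (S B) ≤ D (S (W^[2] B)) := by
  have hW2 : W^[2] B = W (W B) := rfl
  rw [hW2]
  rcases (hs.D_nonneg (S B)).eq_or_lt with h0 | h0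
  · rw [← h0, mul_zero]
    exact hs.D_nonneg _
  have hSW : D (S B) ≤ D (S (W B)) := hs.D_S_le_S_W B
  have hSW2 : D (S (W B)) ≤ D (S (W (W B))) := hs.D_S_le_S_W (W B)
  have hSWpos : 0 < D (S (W B)) := lt_of_lt_of_le h0 hSW
  have hSW2pos : 0 < D (S (W (W B))) := lt_of_lt_of_le hSWpos hSW2
  have c1 : D (S (S B)) < ι / 8 * D (S B) := by
    by_contra hc
    rw [not_lt] at hc
    have hpos : 0 < D (S (S B)) := lt_of_lt_of_le (by positivity) hc
    have h1 := hs.const_ratio hM hκ0 hκ1 hκ hn (S B) hpos hc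
    have h2 := hs.P_mono _ _ (hs.R_iter (hs.R_S B) (2 * n + 2)) h1
    exact hP (hs.P_iter (by omega) h2)
  have c2 : D (S (S (W B))) < ι / 8 * D (S (W B)) := by
    by_contra hc
    rw [not_lt] at hc
    have hpos : 0 < D (S (S (W B))) := lt_of_lt_of_le (by positivity) hc
    have h1 := hs.const_ratio hM hκ0 hκ1 hκ hn (S (W B)) hpos hc
    have h2 := hs.P_mono _ _ (hs.R_iter (hs.R_S (W B)) (2 * n + 2)) h1
    have h3 : P (W^[2 * n + 3] B) := h2
    exact hP (hs.P_iter (by omega) h3)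
  have i1 := hs.I1 B
  have i2 := hs.I1 (W B)
  have hor : ι * D (S B) < D (S (W B)) - 2 * D (S B) + D (S (S B)) ∨
      ι * D (S (W B)) < D (S (W (W B))) - 2 * D (S (W B)) + D (S (S (W B))) := by
    by_contra hc
    rw [not_or, not_lt, not_lt] at hc
    obtain ⟨hc1, hc2⟩ := hc
    have hl := hs.lf B
    have a1 : M * (D (S (W B)) - 2 * D (S B) + D (S (S B))) ≤ M * (ι * D (S (W (W B)))) := by
      refine mul_le_mul_of_nonneg_left (hc1.trans ?_) hM
      exact mul_le_mul_of_nonneg_left (hSW.trans hSW2) hι0.le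
    have a2 : ι * D (S (W B)) ≤ ι * D (S (W (W B))) := mul_le_mul_of_nonneg_left hSW2 hι0.le
    have a3 : (6 + M) * ι * D (S (W (W B))) ≤ τ * D (S (W (W B))) :=
      mul_le_mul_of_nonneg_right hι hSW2pos.le
    have h1 : P (S (W (W B))) := by
      refine hs.near _ hSW2pos ?_
      nlinarith
    have h2 : P (W^[2] B) := hs.P_mono _ _ (hs.R_S (W (W B))) h1
    exact hP (hs.P_iter (by omega) h2)
  have hι2 : ι * ι ≤ ι := by nlinarith
  have key : 4 * (1 + ι / 8) ≤ (2 - ι / 8) * (2 - ι / 8 + ι) := by nlinarith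
  have key' : 4 * (1 + ι / 8) * D (S B) ≤ (2 - ι / 8) * (2 - ι / 8 + ι) * D (S B) :=
    mul_le_mul_of_nonneg_right key h0.le
  rcases hor with h | h
  · have b1 : (2 - ι / 8 + ι) * D (S B) ≤ D (S (W B)) := by linarith
    have b2 : (2 - ι / 8) * D (S (W B)) ≤ D (S (W (W B))) := by linarith
    have b3 : (2 - ι / 8) * ((2 - ι / 8 + ι) * D (S B)) ≤ (2 - ι / 8) * D (S (W B)) :=
      mul_le_mul_of_nonneg_left b1 (by linarith)
    linarith
  · have b1 : (2 - ι / 8) * D (S B) ≤ D (S (W B)) := by linarith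
    have b2 : (2 - ι / 8 + ι) * D (S (W B)) ≤ D (S (W (W B))) := by linarith
    have b3 : (2 - ι / 8 + ι) * ((2 - ι / 8) * D (S B)) ≤ (2 - ι / 8 + ι) * D (S (W B)) :=
      mul_le_mul_of_nonneg_left b1 (by linarith)
    linarith

/-- (b) Iterated growth. PROOF. Induction on `m` with (a) for `W^[2 * j] B`, `j < m` (`P_iter` to see that they are unpinned). -/
theorem Sys2.grow (hs : Sys2 M τ S W D R P) (hM : 0 ≤ M) {κ ι : ℝ} (hκ0 : 0 < κ) (hκ1 : κ ≤ 1 / 3)
    (hκ : (36 + 2 * M) * κ ≤ τ) (hι0 : 0 < ι) (hι1 : ι ≤ 1) (hι : (6 + M) * ι ≤ τ) {n : ℕ}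
    (hn : 1 < (1 + κ) ^ n * (ι / 8)) (m : ℕ) (B : 𝔅) (hP : ¬ P (W^[2 * m + 2 * n + 4] B)) :
    (4 * (1 + ι / 8)) ^ m * D (S B) ≤ D (S (W^[2 * m] B)) := by
  induction m with
  | zero => simp
  | succ m ih =>
    have h1 : ¬ P (W^[2 * m + 2 * n + 4] B) := fun h => hP (hs.P_iter (by omega) h)
    have h2 := ih h1
    have h3 : ¬ P (W^[2 * n + 4] (W^[2 * m] B)) := by
      rw [← Function.iterate_add_apply]
      exact fun h => hP (hs.P_iter (by omega) h)
    have h4 := hs.grow_two hM hκ0 hκ1 hκ hι0 hι1 hι hn (W^[2 * m] B) h3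
    rw [← Function.iterate_add_apply] at h4
    have e : 2 + 2 * m = 2 * (m + 1) := by ring
    rw [e] at h4
    refine le_trans ?_ h4
    rw [pow_succ, mul_comm ((4 * (1 + ι / 8)) ^ m) (4 * (1 + ι / 8)), mul_assoc]
    exact mul_le_mul_of_nonneg_left h2 (by positivity)

end

/-- (c) The abstract statement.

PROOF. `κ = min (1/3) (τ / (36 + 2 M))`, `ι = min 1 (τ / (6 + M))`, `n` with `1 < (1 + κ)^n (ι / 8)`, `m = ⌈log (1/ψ) / log (1 + ι / 8)⌉`, `t₁ = 2 m`,
`t = 2 m + 2 n + 4`: `(1 + ι/8)^m ≥ 1 / ψ`, so `D (S B) ≤ ψ (1 + ι/8)^m D (S B) ≤ ψ 4^{-m} D (S (W^[2m] B))` by (b) if not `P`.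
`2 ^ t ≤ 2^(2 n + 6) * 4 ^ (log (1/ψ) / log (1 + ι/8)) = 2^(2 n + 6) ψ^(-C₁)` with `C₁ = 2 log 2 / log (1 + ι / 8)`. -/
theorem abs2 {M τ : ℝ} (hM : 0 ≤ M) (hτ : 0 < τ) : ∃ C₁ C₂ : ℝ, 0 < C₁ ∧ 0 < C₂ ∧
    ∀ ψ : ℝ, 0 < ψ → ψ ≤ 1 → ∃ t₁ t : ℕ, (2 : ℝ) ^ t ≤ C₂ * ψ ^ (-C₁) ∧
      ∀ (𝔅 : Type 1) (S W : 𝔅 → 𝔅) (D : 𝔅 → ℝ) (R : 𝔅 → 𝔅 → Prop) (P : 𝔅 → Prop),
        Sys2 M τ S W D R P → ∀ B, P (W^[t] B) ∨ D (S B) ≤ ψ / 2 ^ t₁ * D (S (W^[t₁] B)) := by
  obtain ⟨κ, hκ0, hκ1, hκ⟩ : ∃ κ : ℝ, 0 < κ ∧ κ ≤ 1 / 3 ∧ (36 + 2 * M) * κ ≤ τ := by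
    refine ⟨min (1 / 3) (τ / (36 + 2 * M)), lt_min (by norm_num) (by positivity), min_le_left _ _, ?_⟩
    calc (36 + 2 * M) * min (1 / 3) (τ / (36 + 2 * M)) ≤ (36 + 2 * M) * (τ / (36 + 2 * M)) :=
          mul_le_mul_of_nonneg_left (min_le_right _ _) (by positivity)
      _ = τ := by field_simp
  obtain ⟨ι, hι0, hι1, hι⟩ : ∃ ι : ℝ, 0 < ι ∧ ι ≤ 1 ∧ (6 + M) * ι ≤ τ := by
    refine ⟨min 1 (τ / (6 + M)), lt_min (by norm_num) (by positivity), min_le_left _ _, ?_⟩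
    calc (6 + M) * min 1 (τ / (6 + M)) ≤ (6 + M) * (τ / (6 + M)) :=
          mul_le_mul_of_nonneg_left (min_le_right _ _) (by positivity)
      _ = τ := by field_simp
  obtain ⟨n, hn'⟩ := pow_unbounded_of_one_lt (8 / ι) (show (1 : ℝ) < 1 + κ by linarith)
  have hn : 1 < (1 + κ) ^ n * (ι / 8) := by
    have h1 : 8 / ι * (ι / 8) < (1 + κ) ^ n * (ι / 8) := mul_lt_mul_of_pos_right hn' (by positivity)
    have h2 : 8 / ι * (ι / 8) = 1 := by field_simp
    rwa [h2] at h1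
  set L : ℝ := Real.log (1 + ι / 8) with hL
  have hLpos : 0 < L := Real.log_pos (by linarith)
  have hlog2 : 0 < Real.log 2 := Real.log_pos (by norm_num)
  refine ⟨2 * Real.log 2 / L, 2 ^ (2 * n + 6), by positivity, by positivity, ?_⟩
  intro ψ hψ0 hψ1
  have hlogψ : 0 ≤ - Real.log ψ := by
    have := Real.log_nonpos hψ0.le hψ1
    linarith
  obtain ⟨m, hm1, hm2⟩ : ∃ m : ℕ, - Real.log ψ / L ≤ m ∧ (m : ℝ) ≤ - Real.log ψ / L + 1 :=
    ⟨⌈- Real.log ψ / L⌉₊, Nat.le_ceil _, (Nat.ceil_lt_add_one (by positivity)).le⟩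
  have hm3 : 1 ≤ ψ * (1 + ι / 8) ^ m := by
    have h1 : - Real.log ψ ≤ m * L := by
      rw [div_le_iff₀ hLpos] at hm1
      exact hm1
    have h2 : 0 ≤ Real.log (ψ * (1 + ι / 8) ^ m) := by
      rw [Real.log_mul hψ0.ne' (by positivity), Real.log_pow]
      linarith
    have h3 : 0 < ψ * (1 + ι / 8) ^ m := by positivity
    by_contra hc
    rw [not_le] at hc
    exact absurd h2 (not_le.mpr (Real.log_neg h3 hc))
  refine ⟨2 * m, 2 * m + 2 * n + 4, ?_, ?_⟩
  · have h1 : (2 : ℝ) ^ (2 * m) ≤ 4 * ψ ^ (-(2 * Real.log 2 / L)) := by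
      have e1 : (2 : ℝ) ^ (2 * m) = Real.exp (Real.log 2 * (2 * (m : ℝ))) := by
        rw [← Real.rpow_natCast 2 (2 * m), Real.rpow_def_of_pos (by norm_num)]
        push_cast
        rfl
      have e2 : (4 : ℝ) = Real.exp (Real.log 2 * 2) := by
        have h := Real.rpow_def_of_pos (show (0 : ℝ) < 2 by norm_num) 2
        rw [← h]
        norm_num
      rw [e1, e2, Real.rpow_def_of_pos hψ0, ← Real.exp_add, Real.exp_le_exp]
      have h3 : Real.log 2 * (2 * (m : ℝ)) ≤ Real.log 2 * (2 * (- Real.log ψ / L + 1)) :=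
        mul_le_mul_of_nonneg_left (by linarith) hlog2.le
      have h4 : Real.log 2 * (2 * (- Real.log ψ / L + 1)) =
          Real.log 2 * 2 + Real.log ψ * -(2 * Real.log 2 / L) := by
        field_simp
        ring
      linarith
    calc (2 : ℝ) ^ (2 * m + 2 * n + 4) = 2 ^ (2 * n + 4) * 2 ^ (2 * m) := by
          rw [← pow_add]
          congr 1
          ring
      _ ≤ 2 ^ (2 * n + 4) * (4 * ψ ^ (-(2 * Real.log 2 / L))) :=
          mul_le_mul_of_nonneg_left h1 (by positivity)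
      _ = 2 ^ (2 * n + 6) * ψ ^ (-(2 * Real.log 2 / L)) := by
          rw [show 2 * n + 6 = (2 * n + 4) + 2 by ring, pow_add 2 (2 * n + 4) 2]
          ring
  · intro 𝔅 S W D R P hs B
    by_cases hP : P (W^[2 * m + 2 * n + 4] B)
    · exact Or.inl hP
    · right
      have h1 := hs.grow hM hκ0 hκ1 hκ hι0 hι1 hι hn m B hP
      have h2 : D (S B) ≤ ψ * (1 + ι / 8) ^ m * D (S B) :=
        le_mul_of_one_le_left (hs.D_nonneg _) hm3
      have h3 : (2 : ℝ) ^ (2 * m) = 4 ^ m := by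
        rw [pow_mul]
        norm_num
      rw [h3]
      calc D (S B) ≤ ψ * (1 + ι / 8) ^ m * D (S B) := h2
        _ = ψ / 4 ^ m * ((4 * (1 + ι / 8)) ^ m * D (S B)) := by
            rw [mul_pow]
            field_simp
        _ ≤ ψ / 4 ^ m * D (S (W^[2 * m] B)) := mul_le_mul_of_nonneg_left h1 (by positivity)

end PB
end
end

section

section

/-!
PC, job P2: the restriction to a subgroup. See table papers, Theorem C, part 1.
-/

set_option autoImplicit false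

namespace PB

open Finset Pool.Agent.Lib.MP_dd2a7c_co

variable {G : Type} [AddCommGroup G]

/-- JOB P2. (a) Fibres commute with restriction, up to relabelling. PROOF. The channels have the same outputs up to a function of the label:
both variables are `f' x.1` (`f' = f - out (mk f)`), the label of `(B.res V).W` is `(f'₁ + f'₂, (mk f₁, z₁), (mk f₂, z₂))` and that of `B.W.res V` is
`(mk f₁, (f₁ + f₂, z₁, z₂))`; each is a function of the other: `f₁ + f₂ = f'₁ + f'₂ + out (mk f₁) + out (mk f₂)`,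
`mk f₂ = mk (f₁ + f₂) - mk f₁`. Use `Deg.relabel` (the targets are equal by `rfl` or `congr` after rewriting the label function; if the
equality of structures is inconvenient prove `Deg` directly from the definition with `M = Unit`). -/
theorem Deg.res_W (B : CV G) (V : AddSubgroup G) : Deg (B.res V).W (B.W.res V) := by
  have hq : IsProb (fun _ : Unit => (1 : ℝ)) := ⟨fun _ => zero_le_one, by simp⟩
  refine ⟨Unit, inferInstance, fun _ => 1, hq,
    fun (y : V × (V × ((G ⧸ V) × B.L) × ((G ⧸ V) × B.L))) _ =>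
      ((y.1, (y.2.2.1.1, (((y.2.1 : V) : G) + (Quotient.out y.2.2.1.1 + Quotient.out y.2.2.2.1),
        y.2.2.1.2, y.2.2.2.2))) : V × ((G ⧸ V) × (G × B.L × B.L))), fun x y => ?_⟩
  refine Eq.trans ?_ ((pr_prod_fst (prod B.p B.p) hq (fun ω : B.Ω × B.Ω =>
    ((x + (B.res V).f ω.1, ((QuotientAddGroup.mk (B.f ω.1) : G ⧸ V),
      (B.f ω.1 + B.f ω.2, B.z ω.1, B.z ω.2))) : V × ((G ⧸ V) × (G × B.L × B.L)))) y).symm.trans ?_)
  · rfl
  · refine congrArg (fun F => pr (prod (prod B.p B.p) (fun _ : Unit => (1 : ℝ))) F y) ?_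
    funext a
    have h : (((B.res V).f a.1.1 + (B.res V).f a.1.2 : V) : G) +
        (Quotient.out (QuotientAddGroup.mk (B.f a.1.1) : G ⧸ V) +
          Quotient.out (QuotientAddGroup.mk (B.f a.1.2) : G ⧸ V)) = B.f a.1.1 + B.f a.1.2 := by
      change (B.f a.1.1 - Quotient.out (QuotientAddGroup.mk (B.f a.1.1) : G ⧸ V)) +
        (B.f a.1.2 - Quotient.out (QuotientAddGroup.mk (B.f a.1.2) : G ⧸ V)) +
        (Quotient.out (QuotientAddGroup.mk (B.f a.1.1) : G ⧸ V) +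
          Quotient.out (QuotientAddGroup.mk (B.f a.1.2) : G ⧸ V)) = _
      abel
    change (x + (B.res V).f a.1.1, ((QuotientAddGroup.mk (B.f a.1.1) : G ⧸ V),
      (B.f a.1.1 + B.f a.1.2, B.z a.1.1, B.z a.1.2))) = (x + (B.res V).f a.1.1,
      ((QuotientAddGroup.mk (B.f a.1.1) : G ⧸ V),
      ((((B.res V).f a.1.1 + (B.res V).f a.1.2 : V) : G) +
        (Quotient.out (QuotientAddGroup.mk (B.f a.1.1) : G ⧸ V) +
          Quotient.out (QuotientAddGroup.mk (B.f a.1.2) : G ⧸ V)), B.z a.1.1, B.z a.1.2)))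
    rw [h]

open Classical in
private noncomputable def mkV (V : AddSubgroup G) (g : G) : V := if h : g ∈ V then ⟨g, h⟩ else 0

private theorem mkV_coe (V : AddSubgroup G) (v : V) : mkV V (v : G) = v := by
  unfold mkV
  rw [dif_pos v.2]

/-- (b) PROOF. see (a). -/
theorem Deg.W_res (B : CV G) (V : AddSubgroup G) : Deg (B.W.res V) (B.res V).W := by
  have hq : IsProb (fun _ : Unit => (1 : ℝ)) := ⟨fun _ => zero_le_one, by simp⟩
  refine ⟨Unit, inferInstance, fun _ => 1, hq,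
    fun (y : V × ((G ⧸ V) × (G × B.L × B.L))) _ =>
      ((y.1, (mkV V (y.2.2.1 - (Quotient.out y.2.1 +
        Quotient.out ((QuotientAddGroup.mk y.2.2.1 : G ⧸ V) - y.2.1))),
        (y.2.1, y.2.2.2.1), ((QuotientAddGroup.mk y.2.2.1 : G ⧸ V) - y.2.1, y.2.2.2.2))) :
        V × (V × ((G ⧸ V) × B.L) × ((G ⧸ V) × B.L))), fun x y => ?_⟩
  refine Eq.trans ?_ ((pr_prod_fst (prod B.p B.p) hq (fun ω : B.Ω × B.Ω =>
    ((x + (B.res V).f ω.1, ((B.res V).f ω.1 + (B.res V).f ω.2,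
      ((QuotientAddGroup.mk (B.f ω.1) : G ⧸ V), B.z ω.1),
      ((QuotientAddGroup.mk (B.f ω.2) : G ⧸ V), B.z ω.2))) :
      V × (V × ((G ⧸ V) × B.L) × ((G ⧸ V) × B.L)))) y).symm.trans ?_)
  · rfl
  · refine congrArg (fun F => pr (prod (prod B.p B.p) (fun _ : Unit => (1 : ℝ))) F y) ?_
    funext a
    have h1 : (QuotientAddGroup.mk (B.f a.1.1 + B.f a.1.2) : G ⧸ V) -
        (QuotientAddGroup.mk (B.f a.1.1) : G ⧸ V) = QuotientAddGroup.mk (B.f a.1.2) := by
      rw [QuotientAddGroup.mk_add]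
      abel
    have h : mkV V ((B.f a.1.1 + B.f a.1.2) - (Quotient.out (QuotientAddGroup.mk (B.f a.1.1) : G ⧸ V) +
        Quotient.out (QuotientAddGroup.mk (B.f a.1.2) : G ⧸ V))) =
        (B.res V).f a.1.1 + (B.res V).f a.1.2 := by
      have e : (B.f a.1.1 + B.f a.1.2) - (Quotient.out (QuotientAddGroup.mk (B.f a.1.1) : G ⧸ V) +
        Quotient.out (QuotientAddGroup.mk (B.f a.1.2) : G ⧸ V)) =
        (((B.res V).f a.1.1 + (B.res V).f a.1.2 : V) : G) := by
        change _ = (B.f a.1.1 - Quotient.out (QuotientAddGroup.mk (B.f a.1.1) : G ⧸ V)) +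
          (B.f a.1.2 - Quotient.out (QuotientAddGroup.mk (B.f a.1.2) : G ⧸ V))
        abel
      rw [e, mkV_coe]
    change (x + (B.res V).f a.1.1, ((B.res V).f a.1.1 + (B.res V).f a.1.2,
      ((QuotientAddGroup.mk (B.f a.1.1) : G ⧸ V), B.z a.1.1),
      ((QuotientAddGroup.mk (B.f a.1.2) : G ⧸ V), B.z a.1.2))) =
      (x + (B.res V).f a.1.1, (mkV V ((B.f a.1.1 + B.f a.1.2) -
        (Quotient.out (QuotientAddGroup.mk (B.f a.1.1) : G ⧸ V) +
        Quotient.out ((QuotientAddGroup.mk (B.f a.1.1 + B.f a.1.2) : G ⧸ V) -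
          (QuotientAddGroup.mk (B.f a.1.1) : G ⧸ V)))),
        ((QuotientAddGroup.mk (B.f a.1.1) : G ⧸ V), B.z a.1.1),
        ((QuotientAddGroup.mk (B.f a.1.1 + B.f a.1.2) : G ⧸ V) -
          (QuotientAddGroup.mk (B.f a.1.1) : G ⧸ V), B.z a.1.2)))
    rw [h1, h]

variable [Fintype G]

/-- (c) `D` of the restriction. PROOF. `(f', (mk f, z))` and `(f, z)` determine each other; `|G| = |V| [G : V]`
(`AddSubgroup.index_mul_card`, `Nat.card_eq_fintype_card`); `ent` does not depend on the instances. -/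
theorem D_res (B : CV G) (V : AddSubgroup G) [Fintype V] : (B.res V).D = B.D - B.Dq V := by
  have h1 : ent B.p (fun ω => ((B.res V).f ω, ((QuotientAddGroup.mk (B.f ω) : G ⧸ V), B.z ω))) =
      ent B.p (fun ω => (B.f ω, B.z ω)) := by
    refine ent_congr _ _ fun ω ω' _ _ => ?_
    constructor
    · intro h
      simp only [Prod.mk.injEq] at h
      obtain ⟨h1, h2, h3⟩ := h
      have h4 : B.f ω - Quotient.out (QuotientAddGroup.mk (B.f ω) : G ⧸ V) =
          B.f ω' - Quotient.out (QuotientAddGroup.mk (B.f ω') : G ⧸ V) := congrArg Subtype.val h1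
      rw [h2] at h4
      rw [sub_left_inj.1 h4, h3]
    · intro h
      simp only [Prod.mk.injEq] at h
      obtain ⟨h1, h3⟩ := h
      have h2 : (B.res V).f ω = (B.res V).f ω' := by
        apply Subtype.ext
        change B.f ω - Quotient.out (QuotientAddGroup.mk (B.f ω) : G ⧸ V) =
          B.f ω' - Quotient.out (QuotientAddGroup.mk (B.f ω') : G ⧸ V)
        rw [h1]
      rw [h2, h1, h3]
  have hc : Real.log (Fintype.card G) = Real.log (Fintype.card V) + Real.log (V.index : ℝ) := by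
    have h := V.index_mul_card
    have h0 : 0 < Nat.card G := Nat.card_pos
    rw [← h] at h0
    have hi : V.index ≠ 0 := fun e => by rw [e, zero_mul] at h0; exact lt_irrefl 0 h0
    have hv : Nat.card V ≠ 0 := fun e => by rw [e, mul_zero] at h0; exact lt_irrefl 0 h0
    rw [← Nat.card_eq_fintype_card, ← Nat.card_eq_fintype_card, ← h, Nat.cast_mul,
      Real.log_mul (by exact_mod_cast hi) (by exact_mod_cast hv)]
    ring
  change Real.log (Fintype.card V) - (ent B.p (fun ω => ((B.res V).f ω,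
    ((QuotientAddGroup.mk (B.f ω) : G ⧸ V), B.z ω))) -
    ent B.p (fun ω => ((QuotientAddGroup.mk (B.f ω) : G ⧸ V), B.z ω))) =
    Real.log (Fintype.card G) - (ent B.p (fun ω => (B.f ω, B.z ω)) - ent B.p B.z) -
    (Real.log (V.index : ℝ) - (ent B.p (fun ω => ((QuotientAddGroup.mk (B.f ω) : G ⧸ V), B.z ω)) -
      ent B.p B.z))
  rw [h1, hc]
  ring

/-- (d) The same for iterated fibres. PROOF. By (a), (b), `Deg.W` (file PB/A4.lean, `h2` for the group `V`), `Deg.trans` and induction on `j`: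
`Deg (W^[j] (B.res V)) ((W^[j] B).res V)` and conversely (`Function.iterate_succ_apply'`), so the two `D`'s agree by `Deg.D_le`; then (c). -/
theorem D_iter_res (h2 : ∀ x : G, x + x = 0) (B : CV G) (V : AddSubgroup G) [Fintype V] (j : ℕ) :
    (CV.W^[j] (B.res V)).D = (CV.W^[j] B).D - (CV.W^[j] B).Dq V := by
  have hV : ∀ x : V, x + x = 0 := fun x => Subtype.ext (h2 x)
  have h : Deg (CV.W^[j] (B.res V)) ((CV.W^[j] B).res V) ∧
      Deg ((CV.W^[j] B).res V) (CV.W^[j] (B.res V)) := by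
    induction j with
    | zero => exact ⟨Deg.refl _, Deg.refl _⟩
    | succ j ih =>
      rw [Function.iterate_succ_apply', Function.iterate_succ_apply']
      exact ⟨(Deg.W hV ih.1).trans (Deg.res_W _ V), (Deg.W_res _ V).trans (Deg.W hV ih.2)⟩
  rw [← D_res]
  exact le_antisymm (Deg.D_le h.2) (Deg.D_le h.1)

/-- (e) The deficiency of the restriction modulo a smaller subgroup. PROOF. `(mk f', (mk f, z))` and `(mk' f, z)` determine each other, where
`mk'` is the quotient by `H'.map V.subtype ≤ V` (`f'₁ - f'₂ ∈ H'` and `f₁ - f₂ ∈ V` with equal `mk f` iff `f₁ - f₂ ∈ H'.map V.subtype`), and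
`[G : H'.map V.subtype] = [G : V] [V : H']` (`AddSubgroup.card_map…`, `index_mul_card` for all three). -/
theorem Dq_res (B : CV G) (V : AddSubgroup G) [Fintype V] (H' : AddSubgroup V) :
    (B.res V).Dq H' = B.Dq (H'.map V.subtype) - B.Dq V := by
  have hm : ∀ ω ω', (QuotientAddGroup.mk (B.f ω) : G ⧸ V) = QuotientAddGroup.mk (B.f ω') →
      ((QuotientAddGroup.mk ((B.res V).f ω) : V ⧸ H') = QuotientAddGroup.mk ((B.res V).f ω') ↔
      (QuotientAddGroup.mk (B.f ω) : G ⧸ (H'.map V.subtype)) = QuotientAddGroup.mk (B.f ω')) := by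
    intro ω ω' h
    rw [QuotientAddGroup.eq, QuotientAddGroup.eq]
    have e : (((-(B.res V).f ω + (B.res V).f ω' : V)) : G) = -B.f ω + B.f ω' := by
      change -(B.f ω - Quotient.out (QuotientAddGroup.mk (B.f ω) : G ⧸ V)) +
        (B.f ω' - Quotient.out (QuotientAddGroup.mk (B.f ω') : G ⧸ V)) = _
      rw [h]
      abel
    rw [← e]
    constructor
    · intro h'
      exact ⟨_, h', rfl⟩
    · rintro ⟨v, hv, hv'⟩
      have : v = -(B.res V).f ω + (B.res V).f ω' := Subtype.ext hv'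
      rw [← this]
      exact hv
  have hle : H'.map V.subtype ≤ V := by
    rintro _ ⟨v, _, rfl⟩
    exact v.2
  have h1 : ent B.p (fun ω => ((QuotientAddGroup.mk ((B.res V).f ω) : V ⧸ H'),
      ((QuotientAddGroup.mk (B.f ω) : G ⧸ V), B.z ω))) =
      ent B.p (fun ω => ((QuotientAddGroup.mk (B.f ω) : G ⧸ (H'.map V.subtype)), B.z ω)) := by
    refine ent_congr _ _ fun ω ω' _ _ => ?_
    constructor
    · intro h
      simp only [Prod.mk.injEq] at h
      obtain ⟨h1, h2, h3⟩ := h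
      rw [(hm ω ω' h2).1 h1, h3]
    · intro h
      simp only [Prod.mk.injEq] at h
      obtain ⟨h1, h3⟩ := h
      have h2 : (QuotientAddGroup.mk (B.f ω) : G ⧸ V) = QuotientAddGroup.mk (B.f ω') := by
        rw [QuotientAddGroup.eq] at h1 ⊢
        exact hle h1
      rw [(hm ω ω' h2).2 h1, h2, h3]
  have hc : Real.log ((H'.map V.subtype).index : ℝ) =
      Real.log (H'.index : ℝ) + Real.log (V.index : ℝ) := by
    have h : (H'.map V.subtype).index = H'.index * V.index := AddSubgroup.index_map_subtype H'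
    have hi : V.index ≠ 0 := AddSubgroup.index_ne_zero_of_finite
    have hv : H'.index ≠ 0 := AddSubgroup.index_ne_zero_of_finite
    rw [h, Nat.cast_mul, Real.log_mul (by exact_mod_cast hv) (by exact_mod_cast hi)]
  change Real.log (H'.index : ℝ) - (ent B.p (fun ω => ((QuotientAddGroup.mk ((B.res V).f ω) : V ⧸ H'),
      ((QuotientAddGroup.mk (B.f ω) : G ⧸ V), B.z ω))) -
    ent B.p (fun ω => ((QuotientAddGroup.mk (B.f ω) : G ⧸ V), B.z ω))) =
    Real.log ((H'.map V.subtype).index : ℝ) -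
      (ent B.p (fun ω => ((QuotientAddGroup.mk (B.f ω) : G ⧸ (H'.map V.subtype)), B.z ω)) -
        ent B.p B.z) -
    (Real.log (V.index : ℝ) - (ent B.p (fun ω => ((QuotientAddGroup.mk (B.f ω) : G ⧸ V), B.z ω)) -
      ent B.p B.z))
  rw [h1, hc]
  ring

/-- (f) PROOF. `0 ≤ log index - H(B mod H | Z)` as `ent (mk f, z) ≤ ent (mk f) + ent z`, `ent (mk f) ≤ log index`
(`ent_le_log_card`). -/
theorem Dq_nonneg (B : CV G) (H : AddSubgroup G) : 0 ≤ B.Dq H := by
  classical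
  have h1 := ent_pair_le B.hp (fun ω => (QuotientAddGroup.mk (B.f ω) : G ⧸ H)) B.z
  have h2 : ent B.p (fun ω => (QuotientAddGroup.mk (B.f ω) : G ⧸ H)) ≤
      Real.log (H.index : ℝ) := by
    have h3 := ent_le_log_card B.hp (fun ω => (QuotientAddGroup.mk (B.f ω) : G ⧸ H)) univ
      (fun ω _ => mem_univ _)
    have h4 : H.index = (univ : Finset (G ⧸ H)).card := by
      rw [AddSubgroup.index, Nat.card_eq_fintype_card, card_univ]
    rw [h4]
    exact h3
  change 0 ≤ Real.log (H.index : ℝ) -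
    (ent B.p (fun ω => ((QuotientAddGroup.mk (B.f ω) : G ⧸ H), B.z ω)) - ent B.p B.z)
  linarith

end PB
end

section

/-!
PC, job L4: conditional entropies as iterated averages over the labels. See table papers, Theorem C, part 2.
-/

set_option autoImplicit false

namespace PB

open Finset Pool.Agent.Lib.MP_dd2a7c_co

noncomputable section

variable {G : Type} [AddCommGroup G] [Fintype G]

/-- The conditional law of `f` given the label of `ω`. -/
def cl (E : CV G) (ω : E.Ω) : G → ℝ := law (cw E.p E.z (E.z ω)) E.f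

/-- The average over `ω`. -/
def mm (E : CV G) (φ : E.Ω → ℝ) : ℝ := ∑ ω, E.p ω * φ ω

/-- JOB L4. (a) PROOF. `isProb_cw`, `pr_pos`, `isProb_law`. -/
theorem isProb_cl (E : CV G) {ω : E.Ω} (h : E.p ω ≠ 0) : IsProb (cl E ω) :=
  isProb_law (isProb_cw E.hp (pr_pos E.hp E.z h).ne') E.f

/-- (b) PROOF. The weights sum to one. -/
theorem mm_const (E : CV G) (c : ℝ) : mm E (fun _ => c) = c := by
  unfold mm
  rw [← sum_mul, E.hp.sum_one, one_mul]

/-- (c) PROOF. Terms with weight zero vanish. -/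
theorem mm_le (E : CV G) {φ ψ : E.Ω → ℝ} (h : ∀ ω, E.p ω ≠ 0 → φ ω ≤ ψ ω) : mm E φ ≤ mm E ψ := by
  unfold mm
  refine sum_le_sum fun ω _ => ?_
  by_cases hω : E.p ω = 0
  · simp [hω]
  · exact mul_le_mul_of_nonneg_left (h ω hω) (E.hp.nonneg ω)

/-- (d) PROOF. `ent_chain`, `cw_prod` (as in `hc_S_eq_avg`), `ent (prod q q') (f + f) = Hd (conv (law q f) (law q' f))` (`law_add`, `Hd_law`),
`Fintype.sum_prod_type`, `mul_sum`. -/
theorem av_S (E : CV G) : E.S.hc = mm E fun a => mm E fun b => Hd (conv (cl E a) (cl E b)) := by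
  have h1 := ent_chain (isProb_prod E.hp E.hp) (fun x : E.Ω × E.Ω => E.f x.1 + E.f x.2)
    (fun x : E.Ω × E.Ω => (E.z x.1, E.z x.2))
  have h2 : E.S.hc = ∑ x : E.Ω × E.Ω, prod E.p E.p x *
      ent (cw (prod E.p E.p) (fun x : E.Ω × E.Ω => (E.z x.1, E.z x.2)) (E.z x.1, E.z x.2))
        (fun x : E.Ω × E.Ω => E.f x.1 + E.f x.2) := h1
  rw [h2, Fintype.sum_prod_type]
  unfold mm
  refine sum_congr rfl fun a _ => ?_
  rw [mul_sum]
  refine sum_congr rfl fun b _ => ?_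
  rw [cw_prod, ent_add]
  simp only [prod, cl]
  ring

end

end PB
end

section

/-!
PC, job M1: the main induction. See table papers, Theorem C, part 4.
-/

set_option autoImplicit false

namespace PB

open Finset Pool.Agent.Lib.MP_dd2a7c_co

/-- JOB M1. The main inequality.

PROOF. Induction on `I`, inside it induction on `n` (all groups, `ξ`, `X`, `B`). `ξ ≥ 0`: `SubX` for `⊤` and `Dq_nonneg`. `I = 0`: `(X.A B).D ≤ log |G|`
(`D_le_log`), the other terms are `≥ 0`. Step: by `hP`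
(i) `Pin (W^[t] B)`, `V = H ≠ ⊤`: `|V| < |G|`, `A_res`; `X.res V` satisfies `SubX c ξ'` with `ξ' = ξ + c log [G : V] - X.Dq V` (`Dq_res`,
`[G : H'.map V.subtype] = [G : V] [V : H']`); induction hypothesis for `n - 1` (same `I`) in the group `V`, `D_iter_res` for `t₁` and `t`:
`(X.A B).D ≤ X.Dq V + ξ' + ψ / 2^t₁ (D(W^[t₁] B) - Dq) + 2 c (D(W^[t] B) - (W^[t] B).Dq V) + log |V| / 2^I`, `2 c (W^[t] B).Dq V ≥ c log [G : V]`, `Dq ≥ 0`.
(ii) otherwise `A_W`, the induction hypothesis for `I - 1` and `B.W`, `D_W` for `W^[t₁] B` and `W^[t] B` (`Function.iterate_succ_apply`, `…_apply'`):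
`1/2 * ψ/2^t₁ * D(W^[t₁+1] B) = ψ/2^t₁ (D(W^[t₁] B) - 1/2 D(S W^[t₁] B))`, and `1/2 D(SB) ≤ 1/2 ψ/2^t₁ D(S W^[t₁] B)`; `1/2 * 2 c D(W^[t+1] B) ≤ 2 c D(W^[t] B)`. -/
theorem main_ineq {ψ c : ℝ} (hψ : 0 ≤ ψ) (hc : 0 ≤ c) {t₁ t : ℕ}
    (hP : ∀ (G : Type) [AddCommGroup G] [Fintype G], (∀ x : G, x + x = 0) → ∀ B : CV G,
      Pin (CV.W^[t] B) ∨ B.S.D ≤ ψ / 2 ^ t₁ * (CV.W^[t₁] B).S.D) :
    ∀ (I n : ℕ) (G : Type) [AddCommGroup G] [Fintype G], (∀ x : G, x + x = 0) → Fintype.card G ≤ n →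
      ∀ (ξ : ℝ) (X B : CV G), SubX c ξ X →
        (X.A B).D ≤ ξ + ψ / 2 ^ t₁ * (CV.W^[t₁] B).D + 2 * c * (CV.W^[t] B).D +
          Real.log (Fintype.card G) / 2 ^ I := by
  classical
  have ha : 0 ≤ ψ / 2 ^ t₁ := by positivity
  have hlog : ∀ (G : Type) [Fintype G], 0 ≤ Real.log (Fintype.card G) := fun G _ =>
    Real.log_natCast_nonneg _
  have hξ : ∀ (G : Type) [AddCommGroup G] [Fintype G] (ξ : ℝ) (X : CV G), SubX c ξ X → 0 ≤ ξ := by
    intro G _ _ ξ X hX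
    have h := hX ⊤
    rw [AddSubgroup.index_top, Nat.cast_one, Real.log_one, mul_zero, zero_add] at h
    exact (Dq_nonneg X ⊤).trans h
  intro I
  induction I with
  | zero =>
    intro n G _ _ h2 hn ξ X B hX
    have e1 := D_le_log (X.A B)
    have e2 := hξ G ξ X hX
    have e3 := mul_nonneg ha (D_nonneg (CV.W^[t₁] B))
    have e4 := mul_nonneg (mul_nonneg zero_le_two hc) (D_nonneg (CV.W^[t] B))
    rw [pow_zero, div_one]
    linarith
  | succ I ihI =>
    intro n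
    induction n with
    | zero =>
      intro G _ _ h2 hn
      have := Fintype.card_pos (α := G)
      omega
    | succ n ihn =>
      intro G _ _ h2 hn ξ X B hX
      have hξ0 := hξ G ξ X hX
      rcases hP G h2 B with ⟨V, hV, hpin⟩ | hB
      · have : Fintype V := Fintype.ofFinite V
        have h2V : ∀ x : V, x + x = 0 := fun x => Subtype.ext (h2 x)
        have hcard : Fintype.card V * V.index = Fintype.card G := by
          have := V.card_mul_index
          rwa [Nat.card_eq_fintype_card, Nat.card_eq_fintype_card] at this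
        have hGpos : 0 < Fintype.card G := Fintype.card_pos
        have hVpos : 0 < Fintype.card V := Fintype.card_pos
        have hipos : 0 < V.index := by
          rcases Nat.eq_zero_or_pos V.index with h | h
          · rw [h, mul_zero] at hcard
            omega
          · exact h
        have hi1 : V.index ≠ 1 := fun h => hV (AddSubgroup.index_eq_one.1 h)
        have hi2 : 2 ≤ V.index := by omega
        have hVn : Fintype.card V ≤ n := by
          have : Fintype.card V * 2 ≤ Fintype.card V * V.index := Nat.mul_le_mul_left _ hi2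
          omega
        have hSub : SubX c (ξ + c * Real.log (V.index : ℝ) - X.Dq V) (X.res V) := by
          intro H'
          have e1 := hX (H'.map V.subtype)
          have e2 : ((H'.map V.subtype).index : ℝ) = (H'.index : ℝ) * (V.index : ℝ) := by
            rw [AddSubgroup.index_map_subtype, Nat.cast_mul]
          have hH' : 0 < H'.index := by
            have h3 := H'.card_mul_index
            rcases Nat.eq_zero_or_pos H'.index with h | h
            · rw [h, mul_zero, Nat.card_eq_fintype_card] at h3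
              omega
            · exact h
          rw [e2, Real.log_mul (by positivity) (by positivity)] at e1
          rw [Dq_res]
          nlinarith [e1]
        have key := ihn V h2V hVn _ (X.res V) (B.res V) hSub
        rw [D_iter_res h2, D_iter_res h2] at key
        have e1 := A_res X B V
        have e2 := mul_nonneg ha (Dq_nonneg (CV.W^[t₁] B) V)
        have e3 : c * Real.log (V.index : ℝ) ≤ 2 * c * (CV.W^[t] B).Dq V := by
          have := mul_le_mul_of_nonneg_left hpin (mul_nonneg zero_le_two hc)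
          linarith
        have e4 : Real.log (Fintype.card V) / 2 ^ (I + 1) ≤ Real.log (Fintype.card G) / 2 ^ (I + 1) := by
          apply div_le_div_of_nonneg_right _ (by positivity)
          apply Real.log_le_log (by exact_mod_cast hVpos)
          exact_mod_cast (by rw [← hcard]; exact Nat.le_mul_of_pos_right _ hipos :
            Fintype.card V ≤ Fintype.card G)
        have e5 : ψ / 2 ^ t₁ * ((CV.W^[t₁] B).D - (CV.W^[t₁] B).Dq V) =
            ψ / 2 ^ t₁ * (CV.W^[t₁] B).D - ψ / 2 ^ t₁ * (CV.W^[t₁] B).Dq V := by ring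
        have e6 : 2 * c * ((CV.W^[t] B).D - (CV.W^[t] B).Dq V) =
            2 * c * (CV.W^[t] B).D - 2 * c * (CV.W^[t] B).Dq V := by ring
        rw [e5, e6] at key
        linarith
      · have key := ihI (Fintype.card G) G h2 le_rfl ξ X B.W hX
        rw [← Function.iterate_succ_apply, ← Function.iterate_succ_apply,
          Function.iterate_succ_apply', Function.iterate_succ_apply', D_W, D_W] at key
        have e1 := A_W h2 X B
        have e2 := mul_nonneg hc (D_nonneg (CV.W^[t] B).S)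
        have e3 : Real.log (Fintype.card G) / 2 ^ (I + 1) =
            1 / 2 * (Real.log (Fintype.card G) / 2 ^ I) := by
          rw [pow_succ]
          ring
        have e5 : ψ / 2 ^ t₁ * (2 * (CV.W^[t₁] B).D - (CV.W^[t₁] B).S.D) =
            2 * (ψ / 2 ^ t₁ * (CV.W^[t₁] B).D) - ψ / 2 ^ t₁ * (CV.W^[t₁] B).S.D := by ring
        have e6 : 2 * c * (2 * (CV.W^[t] B).D - (CV.W^[t] B).S.D) =
            2 * (2 * c * (CV.W^[t] B).D) - 2 * (c * (CV.W^[t] B).S.D) := by ring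
        rw [e5, e6] at key
        rw [e3]
        linarith

end PB
end

section

/-!
PC, job L4b: conditional entropies as iterated averages over the labels. See table papers, Theorem C, part 2.
-/

set_option autoImplicit false

namespace PB

open Finset Pool.Agent.Lib.MP_dd2a7c_co

variable {G : Type} [AddCommGroup G] [Fintype G]

/-- JOB L4b. (e) PROOF. As `av_S` (file L4). -/
theorem av_T (E : CV G) : E.T.hc = mm E fun a => mm E fun b => mm E fun c =>
    Hd (conv (cl E a) (conv (cl E b) (cl E c))) := by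
  have h1 := ent_chain (isProb_prod E.hp (isProb_prod E.hp E.hp))
    (fun x : E.Ω × (E.Ω × E.Ω) => E.f x.1 + (E.f x.2.1 + E.f x.2.2))
    (fun x : E.Ω × (E.Ω × E.Ω) => (E.z x.1, (E.z x.2.1, E.z x.2.2)))
  have h2 : E.T.hc = ∑ x : E.Ω × (E.Ω × E.Ω), prod E.p (prod E.p E.p) x *
      Hd (conv (cl E x.1) (conv (cl E x.2.1) (cl E x.2.2))) := by
    refine h1.trans ?_
    refine sum_congr rfl fun x _ => ?_
    have h3 : cw (prod E.p (prod E.p E.p))
        (fun x : E.Ω × (E.Ω × E.Ω) => (E.z x.1, (E.z x.2.1, E.z x.2.2)))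
        (E.z x.1, (E.z x.2.1, E.z x.2.2)) =
        prod (cw E.p E.z (E.z x.1)) (prod (cw E.p E.z (E.z x.2.1)) (cw E.p E.z (E.z x.2.2))) := by
      rw [← cw_prod E.p E.p E.z E.z]
      exact cw_prod E.p (prod E.p E.p) E.z (fun y : E.Ω × E.Ω => (E.z y.1, E.z y.2)) _ _
    rw [h3]
    have h4 := ent_add (cw E.p E.z (E.z x.1))
      (prod (cw E.p E.z (E.z x.2.1)) (cw E.p E.z (E.z x.2.2)))
      E.f (fun y : E.Ω × E.Ω => E.f y.1 + E.f y.2)
    rw [law_add] at h4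
    exact congrArg _ h4
  rw [h2]
  unfold mm
  rw [Fintype.sum_prod_type]
  refine sum_congr rfl fun a _ => ?_
  rw [Fintype.sum_prod_type, mul_sum]
  refine sum_congr rfl fun b _ => ?_
  rw [mul_sum, mul_sum]
  refine sum_congr rfl fun c _ => ?_
  simp only [prod]
  ring

/-- (f) PROOF. As `av_S`. -/
theorem av_SS (E : CV G) : E.S.S.hc = mm E fun a => mm E fun b => mm E fun c => mm E fun d =>
    Hd (conv (conv (cl E a) (cl E b)) (conv (cl E c) (cl E d))) := by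
  have h1 := ent_chain (isProb_prod (isProb_prod E.hp E.hp) (isProb_prod E.hp E.hp))
    (fun x : (E.Ω × E.Ω) × (E.Ω × E.Ω) => (E.f x.1.1 + E.f x.1.2) + (E.f x.2.1 + E.f x.2.2))
    (fun x : (E.Ω × E.Ω) × (E.Ω × E.Ω) => ((E.z x.1.1, E.z x.1.2), (E.z x.2.1, E.z x.2.2)))
  have h2 : E.S.S.hc = ∑ x : (E.Ω × E.Ω) × (E.Ω × E.Ω),
      prod (prod E.p E.p) (prod E.p E.p) x *
      Hd (conv (conv (cl E x.1.1) (cl E x.1.2)) (conv (cl E x.2.1) (cl E x.2.2))) := by
    refine h1.trans ?_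
    refine sum_congr rfl fun x _ => ?_
    have h3 : cw (prod (prod E.p E.p) (prod E.p E.p))
        (fun x : (E.Ω × E.Ω) × (E.Ω × E.Ω) => ((E.z x.1.1, E.z x.1.2), (E.z x.2.1, E.z x.2.2)))
        ((E.z x.1.1, E.z x.1.2), (E.z x.2.1, E.z x.2.2)) =
        prod (prod (cw E.p E.z (E.z x.1.1)) (cw E.p E.z (E.z x.1.2)))
          (prod (cw E.p E.z (E.z x.2.1)) (cw E.p E.z (E.z x.2.2))) := by
      rw [← cw_prod E.p E.p E.z E.z, ← cw_prod E.p E.p E.z E.z]
      exact cw_prod (prod E.p E.p) (prod E.p E.p) (fun y : E.Ω × E.Ω => (E.z y.1, E.z y.2))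
        (fun y : E.Ω × E.Ω => (E.z y.1, E.z y.2)) _ _
    rw [h3]
    have h4 := ent_add (prod (cw E.p E.z (E.z x.1.1)) (cw E.p E.z (E.z x.1.2)))
      (prod (cw E.p E.z (E.z x.2.1)) (cw E.p E.z (E.z x.2.2)))
      (fun y : E.Ω × E.Ω => E.f y.1 + E.f y.2) (fun y : E.Ω × E.Ω => E.f y.1 + E.f y.2)
    rw [law_add, law_add] at h4
    exact congrArg _ h4
  rw [h2]
  unfold mm
  rw [Fintype.sum_prod_type, Fintype.sum_prod_type]
  refine sum_congr rfl fun a _ => ?_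
  rw [mul_sum]
  refine sum_congr rfl fun b _ => ?_
  rw [Fintype.sum_prod_type, mul_sum, mul_sum]
  refine sum_congr rfl fun c _ => ?_
  rw [mul_sum, mul_sum, mul_sum]
  refine sum_congr rfl fun d _ => ?_
  simp only [prod]
  ring

end PB
end

section

/-!
PC, job L4c: conditional entropies as iterated averages over the labels. See table papers, Theorem C, part 2.
-/

set_option autoImplicit false

namespace PB

open Finset Pool.Agent.Lib.MP_dd2a7c_co

variable {G : Type} [AddCommGroup G] [Fintype G]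

/-- Averages over the label of a fourfold product. -/
private lemma chain4 {α : Type} (E : CV G) (F : (E.Ω × E.Ω) × (E.Ω × E.Ω) → α) :
    ent (prod (prod E.p E.p) (prod E.p E.p))
        (fun x => (F x, ((E.z x.1.1, E.z x.1.2), (E.z x.2.1, E.z x.2.2)))) -
      ent (prod (prod E.p E.p) (prod E.p E.p))
        (fun x => ((E.z x.1.1, E.z x.1.2), (E.z x.2.1, E.z x.2.2))) =
      mm E fun a => mm E fun b => mm E fun c => mm E fun d =>
        ent (prod (prod (cw E.p E.z (E.z a)) (cw E.p E.z (E.z b)))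
          (prod (cw E.p E.z (E.z c)) (cw E.p E.z (E.z d)))) F := by
  have h1 := ent_chain (isProb_prod (isProb_prod E.hp E.hp) (isProb_prod E.hp E.hp)) F
    (fun x : (E.Ω × E.Ω) × (E.Ω × E.Ω) => ((E.z x.1.1, E.z x.1.2), (E.z x.2.1, E.z x.2.2)))
  rw [h1, Fintype.sum_prod_type, Fintype.sum_prod_type]
  unfold mm
  refine sum_congr rfl fun a _ => ?_
  rw [mul_sum]
  refine sum_congr rfl fun b _ => ?_
  rw [mul_sum, mul_sum, Fintype.sum_prod_type]
  refine sum_congr rfl fun c _ => ?_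
  rw [mul_sum, mul_sum, mul_sum]
  refine sum_congr rfl fun d _ => ?_
  have e1 := cw_prod (prod E.p E.p) (prod E.p E.p)
    (fun x : E.Ω × E.Ω => (E.z x.1, E.z x.2)) (fun x : E.Ω × E.Ω => (E.z x.1, E.z x.2))
    (E.z a, E.z b) (E.z c, E.z d)
  rw [cw_prod, cw_prod] at e1
  rw [e1]
  simp only [prod]
  ring

/-- JOB L4c. (g) PROOF. `E.W.S.hc = ent (f₁ + f₃, labels) - ent labels`, labels `((f₁ + f₂, z₁, z₂), (f₃ + f₄, z₃, z₄))`. Subtract `ent (z's)` from both and use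
`ent_chain` over `z's` with `cw_prod`; for fixed labels the law of `(x₁ + x₂, x₃ + x₄)` has entropy `Hd (conv ..) + Hd (conv ..)` (`ent_prod`);
`ent` of a function of the `f`'s under `prod (prod q₁ q₂) (prod q₃ q₄)` is `ent` under the product of the laws (`law_prod`, `ent_law`). -/
theorem av_WS (E : CV G) : E.W.S.hc = mm E fun a => mm E fun b => mm E fun c => mm E fun d =>
    ent (prod (prod (cl E a) (cl E b)) (prod (cl E c) (cl E d)))
        (fun x => (x.1.1 + x.2.1, x.1.1 + x.1.2, x.2.1 + x.2.2)) -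
      Hd (conv (cl E a) (cl E b)) - Hd (conv (cl E c) (cl E d)) := by
  have h1 := chain4 E (fun x : (E.Ω × E.Ω) × (E.Ω × E.Ω) =>
    (E.f x.1.1 + E.f x.2.1, E.f x.1.1 + E.f x.1.2, E.f x.2.1 + E.f x.2.2))
  have h2 := chain4 E (fun x : (E.Ω × E.Ω) × (E.Ω × E.Ω) =>
    (E.f x.1.1 + E.f x.1.2, E.f x.2.1 + E.f x.2.2))
  have e1 : ent E.W.S.p (fun ω => (E.W.S.f ω, E.W.S.z ω)) =
      ent (prod (prod E.p E.p) (prod E.p E.p))
        (fun x => ((E.f x.1.1 + E.f x.2.1, E.f x.1.1 + E.f x.1.2, E.f x.2.1 + E.f x.2.2),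
          ((E.z x.1.1, E.z x.1.2), (E.z x.2.1, E.z x.2.2)))) := by
    refine ent_congr _ _ fun x y _ _ => ?_
    simp only [CV.S, CV.W, Prod.mk.injEq]
    tauto
  have e2 : ent E.W.S.p E.W.S.z =
      ent (prod (prod E.p E.p) (prod E.p E.p))
        (fun x => ((E.f x.1.1 + E.f x.1.2, E.f x.2.1 + E.f x.2.2),
          ((E.z x.1.1, E.z x.1.2), (E.z x.2.1, E.z x.2.2)))) := by
    refine ent_congr _ _ fun x y _ _ => ?_
    simp only [CV.S, CV.W, Prod.mk.injEq]
    tauto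
  have h3 : E.W.S.hc = (mm E fun a => mm E fun b => mm E fun c => mm E fun d =>
        ent (prod (prod (cw E.p E.z (E.z a)) (cw E.p E.z (E.z b)))
          (prod (cw E.p E.z (E.z c)) (cw E.p E.z (E.z d))))
          (fun x : (E.Ω × E.Ω) × (E.Ω × E.Ω) =>
            (E.f x.1.1 + E.f x.2.1, E.f x.1.1 + E.f x.1.2, E.f x.2.1 + E.f x.2.2))) -
      (mm E fun a => mm E fun b => mm E fun c => mm E fun d =>
        ent (prod (prod (cw E.p E.z (E.z a)) (cw E.p E.z (E.z b)))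
          (prod (cw E.p E.z (E.z c)) (cw E.p E.z (E.z d))))
          (fun x : (E.Ω × E.Ω) × (E.Ω × E.Ω) =>
            (E.f x.1.1 + E.f x.1.2, E.f x.2.1 + E.f x.2.2))) := by
    rw [← h1, ← h2, ← e1, ← e2, CV.hc]
    ring
  rw [h3]
  unfold mm
  rw [← sum_sub_distrib]
  refine sum_congr rfl fun a _ => ?_
  rw [← mul_sub, ← sum_sub_distrib]
  by_cases ha : E.p a = 0
  · simp [ha]
  congr 1
  refine sum_congr rfl fun b _ => ?_
  rw [← mul_sub, ← sum_sub_distrib]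
  by_cases hb : E.p b = 0
  · simp [hb]
  congr 1
  refine sum_congr rfl fun c _ => ?_
  rw [← mul_sub, ← sum_sub_distrib]
  by_cases hc : E.p c = 0
  · simp [hc]
  congr 1
  refine sum_congr rfl fun d _ => ?_
  rw [← mul_sub]
  by_cases hd : E.p d = 0
  · simp [hd]
  congr 1
  have pa := isProb_cw E.hp (pr_pos E.hp E.z ha).ne'
  have pb := isProb_cw E.hp (pr_pos E.hp E.z hb).ne'
  have pc := isProb_cw E.hp (pr_pos E.hp E.z hc).ne'
  have pd := isProb_cw E.hp (pr_pos E.hp E.z hd).ne'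
  have k1 := ent_prod (isProb_prod pa pb) (isProb_prod pc pd)
    (fun x : E.Ω × E.Ω => E.f x.1 + E.f x.2) (fun x : E.Ω × E.Ω => E.f x.1 + E.f x.2)
  rw [ent_add, ent_add] at k1
  have k2 : prod (prod (cl E a) (cl E b)) (prod (cl E c) (cl E d)) =
      law (prod (prod (cw E.p E.z (E.z a)) (cw E.p E.z (E.z b)))
          (prod (cw E.p E.z (E.z c)) (cw E.p E.z (E.z d))))
        (fun x : (E.Ω × E.Ω) × (E.Ω × E.Ω) => ((E.f x.1.1, E.f x.1.2), (E.f x.2.1, E.f x.2.2))) := by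
    have l1 := law_prod (prod (cw E.p E.z (E.z a)) (cw E.p E.z (E.z b)))
      (prod (cw E.p E.z (E.z c)) (cw E.p E.z (E.z d)))
      (fun x : E.Ω × E.Ω => (E.f x.1, E.f x.2)) (fun x : E.Ω × E.Ω => (E.f x.1, E.f x.2))
    rw [law_prod, law_prod] at l1
    exact l1.symm
  beta_reduce
  rw [k2, ent_law, k1]
  simp only [cl, Function.comp_def]
  ring

end PB
end

section

/-!
PC, job L4d: conditional entropies as iterated averages over the labels. See table papers, Theorem C, part 2.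
-/

set_option autoImplicit false

namespace PB

open Finset Pool.Agent.Lib.MP_dd2a7c_co

variable {G : Type} [AddCommGroup G] [Fintype G]

private lemma avwt_law {Ω : Type} [Fintype Ω] (c1 c2 c3 c4 c5 c6 : Ω → ℝ) (f : Ω → G) :
    law (prod (prod c1 c2) (prod (prod c3 c4) (prod c5 c6)))
      (fun x => ((f x.1.1, f x.1.2), ((f x.2.1.1, f x.2.1.2), (f x.2.2.1, f x.2.2.2)))) =
    prod (prod (law c1 f) (law c2 f)) (prod (prod (law c3 f) (law c4 f))
      (prod (law c5 f) (law c6 f))) := by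
  have h1 := law_prod (prod c1 c2) (prod (prod c3 c4) (prod c5 c6))
    (fun y : Ω × Ω => (f y.1, f y.2))
    (fun y : (Ω × Ω) × (Ω × Ω) => ((f y.1.1, f y.1.2), (f y.2.1, f y.2.2)))
  have h2 := law_prod (prod c3 c4) (prod c5 c6)
    (fun y : Ω × Ω => (f y.1, f y.2)) (fun y : Ω × Ω => (f y.1, f y.2))
  rw [h1, h2, law_prod, law_prod, law_prod]

private lemma avwt_entA {Ω : Type} [Fintype Ω] (c1 c2 c3 c4 c5 c6 : Ω → ℝ) (f : Ω → G) :
    ent (prod (prod c1 c2) (prod (prod c3 c4) (prod c5 c6)))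
      (fun x => (f x.1.1 + (f x.2.1.1 + f x.2.2.1), f x.1.1 + f x.1.2, f x.2.1.1 + f x.2.1.2,
        f x.2.2.1 + f x.2.2.2)) =
    ent (prod (prod (law c1 f) (law c2 f)) (prod (prod (law c3 f) (law c4 f))
      (prod (law c5 f) (law c6 f))))
        (fun x => (x.1.1 + (x.2.1.1 + x.2.2.1), x.1.1 + x.1.2, x.2.1.1 + x.2.1.2,
          x.2.2.1 + x.2.2.2)) := by
  rw [← avwt_law, ent_law]
  rfl

private lemma avwt_entB {Ω : Type} [Fintype Ω] {c1 c2 c3 c4 c5 c6 : Ω → ℝ}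
    (h1 : IsProb c1) (h2 : IsProb c2) (h3 : IsProb c3) (h4 : IsProb c4) (h5 : IsProb c5)
    (h6 : IsProb c6) (f : Ω → G) :
    ent (prod (prod c1 c2) (prod (prod c3 c4) (prod c5 c6)))
      (fun x => (f x.1.1 + f x.1.2, (f x.2.1.1 + f x.2.1.2, f x.2.2.1 + f x.2.2.2))) =
    Hd (conv (law c1 f) (law c2 f)) + (Hd (conv (law c3 f) (law c4 f)) +
      Hd (conv (law c5 f) (law c6 f))) := by
  have e1 := ent_prod (isProb_prod h1 h2) (isProb_prod (isProb_prod h3 h4) (isProb_prod h5 h6))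
    (fun y : Ω × Ω => f y.1 + f y.2)
    (fun y : (Ω × Ω) × (Ω × Ω) => (f y.1.1 + f y.1.2, f y.2.1 + f y.2.2))
  have e2 := ent_prod (isProb_prod h3 h4) (isProb_prod h5 h6)
    (fun y : Ω × Ω => f y.1 + f y.2) (fun y : Ω × Ω => f y.1 + f y.2)
  rw [e1, e2, ent_add, ent_add, ent_add]

private lemma avwt_cw {Ω L : Type} [Fintype Ω] (p : Ω → ℝ) (z : Ω → L)
    (z1 z2 z3 z4 z5 z6 : L) :
    cw (prod (prod p p) (prod (prod p p) (prod p p)))
      (fun x => ((z x.1.1, z x.1.2), ((z x.2.1.1, z x.2.1.2), (z x.2.2.1, z x.2.2.2))))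
      ((z1, z2), ((z3, z4), (z5, z6))) =
    prod (prod (cw p z z1) (cw p z z2)) (prod (prod (cw p z z3) (cw p z z4))
      (prod (cw p z z5) (cw p z z6))) := by
  have h1 := cw_prod (prod p p) (prod (prod p p) (prod p p))
    (fun y : Ω × Ω => (z y.1, z y.2))
    (fun y : (Ω × Ω) × (Ω × Ω) => ((z y.1.1, z y.1.2), (z y.2.1, z y.2.2)))
    (z1, z2) ((z3, z4), (z5, z6))
  have h2 := cw_prod (prod p p) (prod p p)
    (fun y : Ω × Ω => (z y.1, z y.2)) (fun y : Ω × Ω => (z y.1, z y.2)) (z3, z4) (z5, z6)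
  rw [h1, h2, cw_prod, cw_prod, cw_prod]

private lemma avwt_diff (E : CV G) : E.W.T.hc =
    ∑ x : (E.Ω × E.Ω) × ((E.Ω × E.Ω) × (E.Ω × E.Ω)),
      prod (prod E.p E.p) (prod (prod E.p E.p) (prod E.p E.p)) x *
      (ent (cw (prod (prod E.p E.p) (prod (prod E.p E.p) (prod E.p E.p)))
        (fun x => ((E.z x.1.1, E.z x.1.2), ((E.z x.2.1.1, E.z x.2.1.2), (E.z x.2.2.1, E.z x.2.2.2))))
        ((E.z x.1.1, E.z x.1.2), ((E.z x.2.1.1, E.z x.2.1.2), (E.z x.2.2.1, E.z x.2.2.2))))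
        (fun x => (E.f x.1.1 + (E.f x.2.1.1 + E.f x.2.2.1), E.f x.1.1 + E.f x.1.2,
          E.f x.2.1.1 + E.f x.2.1.2, E.f x.2.2.1 + E.f x.2.2.2)) -
      ent (cw (prod (prod E.p E.p) (prod (prod E.p E.p) (prod E.p E.p)))
        (fun x => ((E.z x.1.1, E.z x.1.2), ((E.z x.2.1.1, E.z x.2.1.2), (E.z x.2.2.1, E.z x.2.2.2))))
        ((E.z x.1.1, E.z x.1.2), ((E.z x.2.1.1, E.z x.2.1.2), (E.z x.2.2.1, E.z x.2.2.2))))
        (fun x => (E.f x.1.1 + E.f x.1.2, (E.f x.2.1.1 + E.f x.2.1.2,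
          E.f x.2.2.1 + E.f x.2.2.2)))) := by
  have hpp := isProb_prod E.hp E.hp
  have hP := isProb_prod hpp (isProb_prod hpp hpp)
  have c1 := ent_chain hP
    (fun x : (E.Ω × E.Ω) × ((E.Ω × E.Ω) × (E.Ω × E.Ω)) =>
      (E.f x.1.1 + (E.f x.2.1.1 + E.f x.2.2.1), E.f x.1.1 + E.f x.1.2,
          E.f x.2.1.1 + E.f x.2.1.2, E.f x.2.2.1 + E.f x.2.2.2))
    (fun x => ((E.z x.1.1, E.z x.1.2), ((E.z x.2.1.1, E.z x.2.1.2), (E.z x.2.2.1, E.z x.2.2.2))))
  have c2 := ent_chain hP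
    (fun x : (E.Ω × E.Ω) × ((E.Ω × E.Ω) × (E.Ω × E.Ω)) =>
      (E.f x.1.1 + E.f x.1.2, (E.f x.2.1.1 + E.f x.2.1.2,
          E.f x.2.2.1 + E.f x.2.2.2)))
    (fun x => ((E.z x.1.1, E.z x.1.2), ((E.z x.2.1.1, E.z x.2.1.2), (E.z x.2.2.1, E.z x.2.2.2))))
  simp_rw [mul_sub]
  rw [sum_sub_distrib, ← c1, ← c2]
  have e0 : E.W.T.hc =
      ent (prod (prod E.p E.p) (prod (prod E.p E.p) (prod E.p E.p)))
        (fun x => (E.f x.1.1 + (E.f x.2.1.1 + E.f x.2.2.1),
          ((E.f x.1.1 + E.f x.1.2, E.z x.1.1, E.z x.1.2),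
          ((E.f x.2.1.1 + E.f x.2.1.2, E.z x.2.1.1, E.z x.2.1.2),
          (E.f x.2.2.1 + E.f x.2.2.2, E.z x.2.2.1, E.z x.2.2.2))))) -
      ent (prod (prod E.p E.p) (prod (prod E.p E.p) (prod E.p E.p)))
        (fun x => ((E.f x.1.1 + E.f x.1.2, E.z x.1.1, E.z x.1.2),
          ((E.f x.2.1.1 + E.f x.2.1.2, E.z x.2.1.1, E.z x.2.1.2),
          (E.f x.2.2.1 + E.f x.2.2.2, E.z x.2.2.1, E.z x.2.2.2)))) := rfl
  rw [e0]
  rw [ent_congr (p := prod (prod E.p E.p) (prod (prod E.p E.p) (prod E.p E.p)))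
        (fun x => (E.f x.1.1 + (E.f x.2.1.1 + E.f x.2.2.1),
          ((E.f x.1.1 + E.f x.1.2, E.z x.1.1, E.z x.1.2),
          ((E.f x.2.1.1 + E.f x.2.1.2, E.z x.2.1.1, E.z x.2.1.2),
          (E.f x.2.2.1 + E.f x.2.2.2, E.z x.2.2.1, E.z x.2.2.2)))))
        (fun x => ((E.f x.1.1 + (E.f x.2.1.1 + E.f x.2.2.1), E.f x.1.1 + E.f x.1.2,
          E.f x.2.1.1 + E.f x.2.1.2, E.f x.2.2.1 + E.f x.2.2.2),
          ((E.z x.1.1, E.z x.1.2), ((E.z x.2.1.1, E.z x.2.1.2), (E.z x.2.2.1, E.z x.2.2.2)))))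
      (by intro x y _ _; simp only [Prod.mk.injEq]; tauto),
    ent_congr (p := prod (prod E.p E.p) (prod (prod E.p E.p) (prod E.p E.p)))
        (fun x => ((E.f x.1.1 + E.f x.1.2, E.z x.1.1, E.z x.1.2),
          ((E.f x.2.1.1 + E.f x.2.1.2, E.z x.2.1.1, E.z x.2.1.2),
          (E.f x.2.2.1 + E.f x.2.2.2, E.z x.2.2.1, E.z x.2.2.2))))
        (fun x => ((E.f x.1.1 + E.f x.1.2, (E.f x.2.1.1 + E.f x.2.1.2,
          E.f x.2.2.1 + E.f x.2.2.2)),
          ((E.z x.1.1, E.z x.1.2), ((E.z x.2.1.1, E.z x.2.1.2), (E.z x.2.2.1, E.z x.2.2.2)))))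
      (by intro x y _ _; simp only [Prod.mk.injEq]; tauto)]
  ring

private lemma avwt_term (E : CV G) (x : (E.Ω × E.Ω) × ((E.Ω × E.Ω) × (E.Ω × E.Ω))) :
    prod (prod E.p E.p) (prod (prod E.p E.p) (prod E.p E.p)) x *
      (ent (cw (prod (prod E.p E.p) (prod (prod E.p E.p) (prod E.p E.p)))
        (fun x => ((E.z x.1.1, E.z x.1.2), ((E.z x.2.1.1, E.z x.2.1.2), (E.z x.2.2.1, E.z x.2.2.2))))
        ((E.z x.1.1, E.z x.1.2), ((E.z x.2.1.1, E.z x.2.1.2), (E.z x.2.2.1, E.z x.2.2.2))))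
        (fun x => (E.f x.1.1 + (E.f x.2.1.1 + E.f x.2.2.1), E.f x.1.1 + E.f x.1.2,
          E.f x.2.1.1 + E.f x.2.1.2, E.f x.2.2.1 + E.f x.2.2.2)) -
      ent (cw (prod (prod E.p E.p) (prod (prod E.p E.p) (prod E.p E.p)))
        (fun x => ((E.z x.1.1, E.z x.1.2), ((E.z x.2.1.1, E.z x.2.1.2), (E.z x.2.2.1, E.z x.2.2.2))))
        ((E.z x.1.1, E.z x.1.2), ((E.z x.2.1.1, E.z x.2.1.2), (E.z x.2.2.1, E.z x.2.2.2))))
        (fun x => (E.f x.1.1 + E.f x.1.2, (E.f x.2.1.1 + E.f x.2.1.2,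
          E.f x.2.2.1 + E.f x.2.2.2)))) =
    prod (prod E.p E.p) (prod (prod E.p E.p) (prod E.p E.p)) x *
      (ent (prod (prod (cl E x.1.1) (cl E x.1.2)) (prod (prod (cl E x.2.1.1) (cl E x.2.1.2))
          (prod (cl E x.2.2.1) (cl E x.2.2.2))))
        (fun x => (x.1.1 + (x.2.1.1 + x.2.2.1), x.1.1 + x.1.2, x.2.1.1 + x.2.1.2,
          x.2.2.1 + x.2.2.2)) -
      Hd (conv (cl E x.1.1) (cl E x.1.2)) - Hd (conv (cl E x.2.1.1) (cl E x.2.1.2)) -
        Hd (conv (cl E x.2.2.1) (cl E x.2.2.2))) := by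
  by_cases hx : prod (prod E.p E.p) (prod (prod E.p E.p) (prod E.p E.p)) x = 0
  · rw [hx, zero_mul, zero_mul]
  have hx' : ((E.p x.1.1 ≠ 0 ∧ E.p x.1.2 ≠ 0) ∧ ((E.p x.2.1.1 ≠ 0 ∧ E.p x.2.1.2 ≠ 0) ∧
      (E.p x.2.2.1 ≠ 0 ∧ E.p x.2.2.2 ≠ 0))) := by
    simpa only [prod, mul_ne_zero_iff, ne_eq, mul_eq_zero, not_or] using hx
  obtain ⟨⟨h1, h2⟩, ⟨h3, h4⟩, h5, h6⟩ := hx'
  have q : ∀ {ω : E.Ω}, E.p ω ≠ 0 → IsProb (cw E.p E.z (E.z ω)) := fun h =>
    isProb_cw E.hp (pr_pos E.hp E.z h).ne'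
  rw [avwt_cw, avwt_entA, avwt_entB (q h1) (q h2) (q h3) (q h4) (q h5) (q h6)]
  unfold cl
  ring

/-- JOB L4d. (h) PROOF. `E.W.T.hc = ent (f₁ + f₃ + f₅, labels) - ent labels`, labels `((f₁ + f₂, z₁, z₂), ((f₃ + f₄, z₃, z₄), (f₅ + f₆, z₅, z₆)))`. Subtract
`ent (z's)` from both and use `ent_chain` over `z's` with `cw_prod`; for fixed labels the law of `(x₁ + x₂, x₃ + x₄, x₅ + x₆)` has entropy the sum of the three
`Hd (conv ..)` (`ent_prod`); `ent` of a function of the `f`'s under the product of the `cw`'s is `ent` under the product of the laws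
(`law_prod`, `ent_law`). -/
theorem av_WT (E : CV G) : E.W.T.hc = mm E fun a => mm E fun b => mm E fun c => mm E fun d =>
    mm E fun e => mm E fun g =>
    ent (prod (prod (cl E a) (cl E b)) (prod (prod (cl E c) (cl E d)) (prod (cl E e) (cl E g))))
        (fun x => (x.1.1 + (x.2.1.1 + x.2.2.1), x.1.1 + x.1.2, x.2.1.1 + x.2.1.2, x.2.2.1 + x.2.2.2)) -
      Hd (conv (cl E a) (cl E b)) - Hd (conv (cl E c) (cl E d)) - Hd (conv (cl E e) (cl E g)) := by
  rw [avwt_diff, sum_congr rfl fun x _ => avwt_term E x]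
  unfold mm
  rw [Fintype.sum_prod_type, Fintype.sum_prod_type]
  refine sum_congr rfl fun a _ => ?_
  rw [mul_sum]
  refine sum_congr rfl fun b _ => ?_
  rw [Fintype.sum_prod_type, Fintype.sum_prod_type, mul_sum, mul_sum]
  refine sum_congr rfl fun c _ => ?_
  rw [mul_sum, mul_sum, mul_sum]
  refine sum_congr rfl fun d _ => ?_
  rw [Fintype.sum_prod_type, mul_sum, mul_sum, mul_sum, mul_sum]
  refine sum_congr rfl fun e _ => ?_
  rw [mul_sum, mul_sum, mul_sum, mul_sum, mul_sum]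
  refine sum_congr rfl fun g _ => ?_
  simp only [prod]
  ring

end PB
end

section

/-!
PC, job L5: the averaged inequalities. See table papers, Theorem C, part 2.
-/

set_option autoImplicit false

namespace PB

open Finset Pool.Agent.Lib.MP_dd2a7c_co

variable {G : Type} [AddCommGroup G] [Fintype G]

private lemma mm_add (E : CV G) (φ ψ : E.Ω → ℝ) : mm E (fun ω => φ ω + ψ ω) = mm E φ + mm E ψ := by
  unfold mm
  rw [← sum_add_distrib]
  exact sum_congr rfl fun _ _ => mul_add _ _ _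

private lemma mm_sub (E : CV G) (φ ψ : E.Ω → ℝ) : mm E (fun ω => φ ω - ψ ω) = mm E φ - mm E ψ := by
  unfold mm
  rw [← sum_sub_distrib]
  exact sum_congr rfl fun _ _ => mul_sub _ _ _

private lemma mm_mul (E : CV G) (c : ℝ) (φ : E.Ω → ℝ) : mm E (fun ω => c * φ ω) = c * mm E φ := by
  unfold mm
  rw [mul_sum]
  exact sum_congr rfl fun _ _ => by ring


/-- JOB L5. (a) Two fibres.

PROOF. Write `H2 a b = Hd (conv (cl a) (cl b))` etc. For all `a b c d` (`= 1, 2, 3, 4`) with nonzero weights `two_fib` and `log_inf_le` with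
`K₁₃ = K a c`, `K₁₄ = K a d`, `K₂₃ = K b c` bound the integrand of `av_WS` by
`H2 a c + H2 a d + H2 b c - H3 a c d - H3 a b c + 4 ε a c + 4 ε a d + 3 ε b c`. Average (`mm_le` four times, `mm_const` for the missing variables, linearity of
`mm`: unfold or prove `mm_add`, `mm_sub`, `mm_mul`), `av_S`, `av_T`: `E.W.S.hc ≤ 3 E.S.hc - 2 E.T.hc + 11 ε₀`; `D = log |G| - hc`. -/
theorem lf_avg_two (h2 : ∀ x : G, x + x = 0) (E : CV G) (K : E.Ω → E.Ω → AddSubgroup G) (ε : E.Ω → E.Ω → ℝ)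
    {ε₀ : ℝ} (hK : ∀ a b, E.p a ≠ 0 → E.p b ≠ 0 → Apx (ε a b) (cl E a) (cl E b) (K a b))
    (hε : (mm E fun a => mm E fun b => ε a b) ≤ ε₀) :
    3 * E.S.D - 2 * E.T.D - 11 * ε₀ ≤ E.W.S.D := by
  have key : E.W.S.hc ≤ mm E fun a => mm E fun b => mm E fun c => mm E fun d =>
      (Hd (conv (cl E a) (cl E c)) + Hd (conv (cl E a) (cl E d)) + Hd (conv (cl E b) (cl E c)) -
        Hd (conv (cl E a) (conv (cl E c) (cl E d))) - Hd (conv (cl E a) (conv (cl E b) (cl E c))) +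
        4 * ε a c + 4 * ε a d + 3 * ε b c) := by
    rw [av_WS]
    refine mm_le E fun a ha => mm_le E fun b hb => mm_le E fun c hc => mm_le E fun d hd => ?_
    have pa := isProb_cl E ha
    have pb := isProb_cl E hb
    have pc := isProb_cl E hc
    have pd := isProb_cl E hd
    have h1 := two_fib h2 pa pb pc pd (hK a c ha hc) (hK a d ha hd) (hK b c hb hc)
    have h3 := log_inf_le pa pb pc pd (hK a c ha hc) (hK a d ha hd) (hK b c hb hc)
    linarith
  simp only [mm_add, mm_sub, mm_mul, mm_const] at key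
  have hS := av_S E
  have hT := av_T E
  unfold CV.D
  linarith

/-- (b) Three fibres.

PROOF. As (a) with `three_fib`, `log_inf_le` and, for each of the pairs `(i, j) = (1,3), (1,4), (2,3)`, `four` with the laws of `i, j, 5, 6` and the
subgroups `K_{ij}, K_{i5}, K_{i6}`: the integrand of `av_WT` is at most
`H2 a c + H2 a d + H2 b c - H3 a c d - H3 a b c + 4 ε a c + 4 ε a d + 3 ε b c + ∑_{(i,j)} (H3 i j e + H3 i j g - H4 i j e g - H2 i j + 6 ε i j + 4 ε i e + 4 ε i g)`.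
Average: `E.W.T.hc ≤ 3 E.S.hc - 2 E.T.hc + 11 ε₀ + 3 (2 E.T.hc - E.S.S.hc - E.S.hc + 14 ε₀)`. -/
theorem lf_avg_three (h2 : ∀ x : G, x + x = 0) (E : CV G) (K : E.Ω → E.Ω → AddSubgroup G) (ε : E.Ω → E.Ω → ℝ)
    {ε₀ : ℝ} (hK : ∀ a b, E.p a ≠ 0 → E.p b ≠ 0 → Apx (ε a b) (cl E a) (cl E b) (K a b))
    (hε : (mm E fun a => mm E fun b => ε a b) ≤ ε₀) :
    3 * E.S.D - 2 * E.T.D - 3 * (E.S.D + E.S.S.D - 2 * E.T.D) - 53 * ε₀ ≤ E.W.T.D := by
  have key : E.W.T.hc ≤ mm E fun a => mm E fun b => mm E fun c => mm E fun d => mm E fun e => mm E fun g =>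
      ((Hd (conv (cl E a) (cl E c)) + Hd (conv (cl E a) (cl E d)) + Hd (conv (cl E b) (cl E c)) -
        Hd (conv (cl E a) (conv (cl E c) (cl E d))) - Hd (conv (cl E a) (conv (cl E b) (cl E c))) +
        4 * ε a c + 4 * ε a d + 3 * ε b c) +
      (Hd (conv (cl E a) (conv (cl E c) (cl E e))) + Hd (conv (cl E a) (conv (cl E c) (cl E g))) -
        Hd (conv (conv (cl E a) (cl E c)) (conv (cl E e) (cl E g))) - Hd (conv (cl E a) (cl E c)) +
        6 * ε a c + 4 * ε a e + 4 * ε a g) +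
      (Hd (conv (cl E a) (conv (cl E d) (cl E e))) + Hd (conv (cl E a) (conv (cl E d) (cl E g))) -
        Hd (conv (conv (cl E a) (cl E d)) (conv (cl E e) (cl E g))) - Hd (conv (cl E a) (cl E d)) +
        6 * ε a d + 4 * ε a e + 4 * ε a g) +
      (Hd (conv (cl E b) (conv (cl E c) (cl E e))) + Hd (conv (cl E b) (conv (cl E c) (cl E g))) -
        Hd (conv (conv (cl E b) (cl E c)) (conv (cl E e) (cl E g))) - Hd (conv (cl E b) (cl E c)) +
        6 * ε b c + 4 * ε b e + 4 * ε b g)) := by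
    rw [av_WT]
    refine mm_le E fun a ha => mm_le E fun b hb => mm_le E fun c hc => mm_le E fun d hd =>
      mm_le E fun e he => mm_le E fun g hg => ?_
    have pa := isProb_cl E ha
    have pb := isProb_cl E hb
    have pc := isProb_cl E hc
    have pd := isProb_cl E hd
    have pe := isProb_cl E he
    have pg := isProb_cl E hg
    have h1 := three_fib h2 pa pb pc pd pe pg (hK a c ha hc) (hK a d ha hd) (hK b c hb hc)
    have h3 := log_inf_le pa pb pc pd (hK a c ha hc) (hK a d ha hd) (hK b c hb hc)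
    have k1 := four pa pc pe pg (hK a c ha hc) (hK a e ha he) (hK a g ha hg)
    have k2 := four pa pd pe pg (hK a d ha hd) (hK a e ha he) (hK a g ha hg)
    have k3 := four pb pc pe pg (hK b c hb hc) (hK b e hb he) (hK b g hb hg)
    linarith
  simp only [mm_add, mm_sub, mm_mul, mm_const] at key
  have hS := av_S E
  have hT := av_T E
  have hSS := av_SS E
  unfold CV.D
  linarith

end PB
end

section

/-!
PC, job L6: Lemma LF. See table papers, Theorem C, part 2.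
-/

set_option autoImplicit false

namespace PB

open Finset Pool.Agent.Lib.MP_dd2a7c_co

variable {G : Type} [AddCommGroup G] [Fintype G]

/-- JOB L6. (a) The approximate stabilisers for `E = W B`.

PROOF. For `x : B.W.Ω × B.W.Ω` with `prod … x ≠ 0` apply `pfr_sub` to `prod (cw …) (cw …)` and `t = B.W.f y.1 + B.W.f y.2`; `κ x` the summand in
`avg_kappa_le`; `ε = 2 KC κ`. `qs (cl a) (cl b) K = ent (prod (cw) (cw)) (mk (f + f))` and `Hd (conv (cl a) (cl b)) = Hs …` (`law_prod`, `ent_law`, `Hd_law`).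
The average of `ε` is at most `2 KC * 3 I₁(B)`. (For weights zero choose anything.) -/
theorem exists_apx (h2 : ∀ x : G, x + x = 0) (B : CV G) :
    ∃ (K : B.W.Ω → B.W.Ω → AddSubgroup G) (ε : B.W.Ω → B.W.Ω → ℝ),
      (∀ a b, B.W.p a ≠ 0 → B.W.p b ≠ 0 → Apx (ε a b) (cl B.W a) (cl B.W b) (K a b)) ∧
      (mm B.W fun a => mm B.W fun b => ε a b) ≤ 6 * KC * B.I1 := by
  classical
  have key : ∀ a b : B.W.Ω, ∃ K : AddSubgroup G, B.W.p a ≠ 0 → B.W.p b ≠ 0 →
      Apx (2 * KC * (Hs (prod (cw B.W.p B.W.z (B.W.z a)) (cw B.W.p B.W.z (B.W.z b)))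
          (prod (cw B.W.p B.W.z (B.W.z a)) (cw B.W.p B.W.z (B.W.z b)))
          (fun y => B.W.f y.1 + B.W.f y.2) (fun y => B.W.f y.1 + B.W.f y.2) -
        Hs (cw B.W.p B.W.z (B.W.z a)) (cw B.W.p B.W.z (B.W.z b)) B.W.f B.W.f))
        (cl B.W a) (cl B.W b) K := by
    intro a b
    by_cases ha : B.W.p a = 0
    · exact ⟨⊥, fun h => absurd ha h⟩
    by_cases hb : B.W.p b = 0
    · exact ⟨⊥, fun _ h => absurd hb h⟩
    have hpa : IsProb (cw B.W.p B.W.z (B.W.z a)) := isProb_cw B.W.hp (pr_pos B.W.hp B.W.z ha).ne'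
    have hpb : IsProb (cw B.W.p B.W.z (B.W.z b)) := isProb_cw B.W.hp (pr_pos B.W.hp B.W.z hb).ne'
    obtain ⟨H, hH1, hH2⟩ := pfr_sub h2 (isProb_prod hpa hpb)
      (fun y : B.W.Ω × B.W.Ω => B.W.f y.1 + B.W.f y.2)
    refine ⟨H, fun _ _ => ⟨?_, ?_⟩⟩
    · unfold qs cl
      rw [← law_prod, ent_law]
      exact hH1
    · have e : Hd (conv (cl B.W a) (cl B.W b)) =
          ent (prod (cw B.W.p B.W.z (B.W.z a)) (cw B.W.p B.W.z (B.W.z b)))
            (fun y : B.W.Ω × B.W.Ω => B.W.f y.1 + B.W.f y.2) := by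
        unfold cl
        rw [ent_add]
      rw [e]
      exact hH2
  choose K hK using key
  refine ⟨K, fun a b => 2 * KC * (Hs (prod (cw B.W.p B.W.z (B.W.z a)) (cw B.W.p B.W.z (B.W.z b)))
          (prod (cw B.W.p B.W.z (B.W.z a)) (cw B.W.p B.W.z (B.W.z b)))
          (fun y => B.W.f y.1 + B.W.f y.2) (fun y => B.W.f y.1 + B.W.f y.2) -
        Hs (cw B.W.p B.W.z (B.W.z a)) (cw B.W.p B.W.z (B.W.z b)) B.W.f B.W.f), hK, ?_⟩
  have h := avg_kappa_le h2 B
  have hKC : 0 ≤ KC := by unfold KC; positivity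
  have e : (mm B.W fun a => mm B.W fun b => 2 * KC *
      (Hs (prod (cw B.W.p B.W.z (B.W.z a)) (cw B.W.p B.W.z (B.W.z b)))
          (prod (cw B.W.p B.W.z (B.W.z a)) (cw B.W.p B.W.z (B.W.z b)))
          (fun y => B.W.f y.1 + B.W.f y.2) (fun y => B.W.f y.1 + B.W.f y.2) -
        Hs (cw B.W.p B.W.z (B.W.z a)) (cw B.W.p B.W.z (B.W.z b)) B.W.f B.W.f)) =
      2 * KC * ∑ x : B.W.Ω × B.W.Ω, prod B.W.p B.W.p x *
      (Hs (prod (cw B.W.p B.W.z (B.W.z x.1)) (cw B.W.p B.W.z (B.W.z x.2)))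
          (prod (cw B.W.p B.W.z (B.W.z x.1)) (cw B.W.p B.W.z (B.W.z x.2)))
          (fun y => B.W.f y.1 + B.W.f y.2) (fun y => B.W.f y.1 + B.W.f y.2) -
        Hs (cw B.W.p B.W.z (B.W.z x.1)) (cw B.W.p B.W.z (B.W.z x.2)) B.W.f B.W.f) := by
    unfold mm
    rw [Fintype.sum_prod_type, mul_sum]
    refine sum_congr rfl fun a _ => ?_
    rw [mul_sum, mul_sum]
    refine sum_congr rfl fun b _ => ?_
    simp only [prod]
    ring
  rw [e]
  have h3 : B.I1 = B.W.S.D - 2 * B.S.D + B.S.S.D := rfl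
  rw [← h3] at h
  have h4 := mul_le_mul_of_nonneg_left h (mul_nonneg (by norm_num : (0 : ℝ) ≤ 2) hKC)
  refine h4.trans (le_of_eq ?_)
  ring

/-- (b) Lemma LF.

PROOF. `E = B.W`, `ε₀ = 6 KC I₁(B)`, `Δ = E.S.D + E.S.S.D - 2 E.T.D`. `lf_avg_two`: `E.I1 ≥ Δ - 11 ε₀`. `lf_avg_three`:
`E.W.T.D ≥ 2 E.S.D - E.S.S.D - 2 Δ - 53 ε₀ = E.W.S.D - E.I1 - 2 Δ - 53 ε₀ ≥ E.W.S.D - 3 E.I1 - 75 ε₀`. `conv_T` for `E.W`:
`E.W.S.S.D ≥ 2 E.W.T.D - E.W.S.D ≥ E.W.S.D - 6 E.I1 - 150 ε₀`. -/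
theorem lf (h2 : ∀ x : G, x + x = 0) (B : CV G) :
    B.W.W.S.D - B.W.W.S.S.D ≤ 6 * B.W.I1 + 900 * KC * B.I1 := by
  obtain ⟨K, ε, hK, hε⟩ := exists_apx h2 B
  have h1 := lf_avg_two h2 B.W K ε hK hε
  have h3 := lf_avg_three h2 B.W K ε hK hε
  have h4 := conv_T B.W.W
  have h5 : B.W.I1 = B.W.W.S.D - 2 * B.W.S.D + B.W.S.S.D := rfl
  rw [h5]
  generalize KC * B.I1 = x at *
  nlinarith [h1, h3, h4]

end PB
end

section

/-!
PC, job V1: Theorem C1. See table papers, Theorem C, part 4.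
-/

set_option autoImplicit false

namespace PB

open Finset Pool.Agent.Lib.MP_dd2a7c_co

/-- JOB V1. (a) The dichotomy for labelled variables.

PROOF. `abs2` with `M = 900 KC`, `τ = 1 / (6 + 12 KC)`, `𝔅 = CV G`, `R = Deg`, `P = Pin`; the fields of `Sys2` are `D_W`, `D_nonneg`, `D_S_le`,
`D_S_le_S_W` (PB/A1), `I1_nonneg`, `lf`, `pin_of_ratio`, `Deg.refl`, `Deg.trans`, `Deg.S`, `Deg.W`, `Deg.W_self` and, for `P_mono`, `Deg.Dq_le`. -/
theorem dichotomy : ∃ C₁ C₂ : ℝ, 0 < C₁ ∧ 0 < C₂ ∧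
    ∀ ψ : ℝ, 0 < ψ → ψ ≤ 1 → ∃ t₁ t : ℕ, (2 : ℝ) ^ t ≤ C₂ * ψ ^ (-C₁) ∧
      ∀ (G : Type) [AddCommGroup G] [Fintype G], (∀ x : G, x + x = 0) → ∀ B : CV G,
        Pin (CV.W^[t] B) ∨ B.S.D ≤ ψ / 2 ^ t₁ * (CV.W^[t₁] B).S.D := by
  have hKC : 0 < KC := by unfold KC; positivity
  obtain ⟨C₁, C₂, hC₁, hC₂, h⟩ :=
    abs2 (M := 900 * KC) (τ := 1 / (6 + 12 * KC)) (by positivity) (by positivity)
  refine ⟨C₁, C₂, hC₁, hC₂, fun ψ hψ0 hψ1 => ?_⟩
  obtain ⟨t₁, t, ht, H⟩ := h ψ hψ0 hψ1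
  refine ⟨t₁, t, ht, ?_⟩
  intro G _ _ h2 B
  have hτ : 1 / (6 + 12 * KC) * (6 + 12 * KC) ≤ 1 := by
    have : (6 + 12 * KC) ≠ 0 := by positivity
    field_simp
    exact le_rfl
  have hs : Sys2 (900 * KC) (1 / (6 + 12 * KC)) (CV.S (G := G)) CV.W CV.D Deg Pin :=
    { D_W := D_W
      D_nonneg := D_nonneg
      D_S_le := D_S_le
      D_S_le_S_W := D_S_le_S_W
      I1 := I1_nonneg h2
      lf := lf h2
      near := fun B hD hB => pin_of_ratio h2 (by positivity) hτ B hD hB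
      refl := Deg.refl
      trans := fun _ _ _ => Deg.trans
      R_S := Deg.S
      R_W := fun _ _ => Deg.W h2
      R_self := Deg.W_self
      P_mono := fun B B' hR hP => by
        obtain ⟨H, hH, h1⟩ := hP
        exact ⟨H, hH, h1.trans (hR.Dq_le H)⟩ }
  exact H (CV G) CV.S CV.W CV.D Deg Pin hs B

/-- (b) Theorem C1: power law contraction governed by subgroups.

PROOF. `C₁, C₂` from (a), `a = 1 / (1 + C₁)`, `C₀ = 1 + 2 C₂`, `ψ = c ^ a`. Apply `main_ineq` with `X = ofLaw μ`, `B = ofLaw ν`, `ξ = 0`,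
`n = |G|` and all `I`: `(X.A B).D = log |G| - Hd (conv μ ν)`, `X.Dq H = log index - ent μ mk ≤ c log index`. Let `I → ∞`
(`ge_of_tendsto` or `le_of_forall_pos_le_add`): `D(X + Y) ≤ ψ / 2^t₁ D(W^[t₁] Y) + 2 c D(W^[t] Y) ≤ (ψ + 2 c 2^t) D(Y)` by `D(W^[j] B) ≤ 2^j D(B)`
(`D_W`, `D_nonneg`), and `ψ + 2 c C₂ ψ^(-C₁) = (1 + 2 C₂) c ^ a` as `c * (c ^ a) ^ (-C₁) = c ^ (1 - a C₁) = c ^ a`. -/
theorem power_law : ∃ a C₀ : ℝ, 0 < a ∧ 1 ≤ C₀ ∧ ∀ c : ℝ, 0 < c → c ≤ 1 →
    ∀ (G : Type) [AddCommGroup G] [Fintype G], (∀ x : G, x + x = 0) →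
      ∀ μ : G → ℝ, IsProb μ → Sub (1 - c) μ → ∀ ν : G → ℝ, IsProb ν →
        Real.log (Fintype.card G) - Hd (conv μ ν) ≤ C₀ * c ^ a * (Real.log (Fintype.card G) - Hd ν) := by
  obtain ⟨C₁, C₂, hC₁, hC₂, h⟩ := dichotomy
  refine ⟨1 / (1 + C₁), 1 + 2 * C₂, by positivity, by linarith, ?_⟩
  intro c hc0 hc1 G _ _ h2 μ hμ hsub ν hν
  obtain ⟨a, ha⟩ : ∃ a : ℝ, a = 1 / (1 + C₁) := ⟨_, rfl⟩
  rw [← ha]
  have ha0 : 0 < a := by rw [ha]; positivity
  have hψ0 : 0 < c ^ a := Real.rpow_pos_of_pos hc0 a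
  have hψ1 : c ^ a ≤ 1 := Real.rpow_le_one hc0.le hc1 ha0.le
  obtain ⟨t₁, t, ht, hP⟩ := h (c ^ a) hψ0 hψ1
  have hμν := isProb_prod hμ hν
  have e1 : ((ofLaw μ hμ).A (ofLaw ν hν)).D = Real.log (Fintype.card G) - Hd (conv μ ν) := by
    have h1 : ent (prod μ ν) (fun x : G × G => (x.1 + x.2, ((), ()))) =
        ent (prod μ ν) (fun x : G × G => x.1 + x.2) :=
      ent_congr _ _ (fun x y => by simp)
    have h3 : ent (prod μ ν) (fun _ : G × G => ((), ())) = 0 := ent_const hμν _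
    have h4 : ((ofLaw μ hμ).A (ofLaw ν hν)).D = Real.log (Fintype.card G) -
        (ent (prod μ ν) (fun x : G × G => (x.1 + x.2, ((), ()))) -
          ent (prod μ ν) (fun _ : G × G => ((), ()))) := rfl
    rw [h4, h1, h3, Hd_conv, sub_zero]
  have e2 : (ofLaw ν hν).D = Real.log (Fintype.card G) - Hd ν := by
    have h1 : ent ν (fun x : G => (x, ())) = ent ν (fun x : G => x) :=
      ent_congr _ _ (fun x y => by simp)
    have h3 : ent ν (fun _ : G => ()) = 0 := ent_const hν _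
    have h4 : (ofLaw ν hν).D = Real.log (Fintype.card G) -
        (ent ν (fun x : G => (x, ())) - ent ν (fun _ : G => ())) := rfl
    rw [h4, h1, h3, sub_zero]
    rfl
  have hX : SubX c 0 (ofLaw μ hμ) := by
    intro H
    have h1 : ent μ (fun x : G => ((QuotientAddGroup.mk x : G ⧸ H), ())) =
        ent μ (fun x : G => (QuotientAddGroup.mk x : G ⧸ H)) :=
      ent_congr _ _ (fun x y => by simp)
    have h3 : ent μ (fun _ : G => ()) = 0 := ent_const hμ _
    have h4 : (ofLaw μ hμ).Dq H = Real.log (H.index : ℝ) -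
        (ent μ (fun x : G => ((QuotientAddGroup.mk x : G ⧸ H), ())) - ent μ (fun _ : G => ())) := rfl
    have h5 := hsub H
    rw [h4, h1, h3]
    linarith
  have hW : ∀ (j : ℕ) (B : CV G), (CV.W^[j] B).D ≤ 2 ^ j * B.D := by
    intro j B
    induction j with
    | zero => simp
    | succ j ih =>
      rw [Function.iterate_succ_apply', D_W, pow_succ]
      have := D_nonneg (CV.S (CV.W^[j] B))
      linarith
  have lim : ((ofLaw μ hμ).A (ofLaw ν hν)).D ≤
      c ^ a / 2 ^ t₁ * (CV.W^[t₁] (ofLaw ν hν)).D + 2 * c * (CV.W^[t] (ofLaw ν hν)).D := by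
    refine le_of_forall_pos_le_add fun ε hε => ?_
    obtain ⟨I, hI⟩ := pow_unbounded_of_one_lt (Real.log (Fintype.card G) / ε)
      (show (1 : ℝ) < 2 by norm_num)
    have hI' : Real.log (Fintype.card G) / 2 ^ I ≤ ε := by
      rw [div_lt_iff₀ hε] at hI
      rw [div_le_iff₀ (by positivity)]
      linarith
    have := main_ineq hψ0.le hc0.le hP I (Fintype.card G) G h2 le_rfl 0 (ofLaw μ hμ) (ofLaw ν hν) hX
    linarith
  have hB0 := D_nonneg (ofLaw ν hν)
  rw [e1] at lim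
  rw [← e2]
  have k1 : c ^ a / 2 ^ t₁ * (CV.W^[t₁] (ofLaw ν hν)).D ≤ c ^ a * (ofLaw ν hν).D := by
    calc c ^ a / 2 ^ t₁ * (CV.W^[t₁] (ofLaw ν hν)).D
        ≤ c ^ a / 2 ^ t₁ * (2 ^ t₁ * (ofLaw ν hν).D) :=
          mul_le_mul_of_nonneg_left (hW t₁ _) (by positivity)
      _ = c ^ a * (ofLaw ν hν).D := by field_simp
  have k2 : 2 * c * (CV.W^[t] (ofLaw ν hν)).D ≤ 2 * C₂ * c ^ a * (ofLaw ν hν).D := by
    have k3 : c * (c ^ a) ^ (-C₁) = c ^ a := by
      rw [← Real.rpow_mul hc0.le]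
      nth_rewrite 1 [← Real.rpow_one c]
      rw [← Real.rpow_add hc0]
      congr 1
      rw [ha]
      field_simp
      ring
    calc 2 * c * (CV.W^[t] (ofLaw ν hν)).D ≤ 2 * c * (2 ^ t * (ofLaw ν hν).D) :=
          mul_le_mul_of_nonneg_left (hW t _) (by positivity)
      _ ≤ 2 * c * (C₂ * (c ^ a) ^ (-C₁) * (ofLaw ν hν).D) :=
          mul_le_mul_of_nonneg_left (mul_le_mul_of_nonneg_right ht hB0) (by positivity)
      _ = 2 * C₂ * (c * (c ^ a) ^ (-C₁)) * (ofLaw ν hν).D := by ring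
      _ = 2 * C₂ * c ^ a * (ofLaw ν hν).D := by rw [k3]
  linarith

end PB
end

section

/-!
PC, job V2: Theorem C2. See table papers, Theorem C, part 4.
-/

set_option autoImplicit false

namespace PB

open Finset Pool.Agent.Lib.MP_dd2a7c_co
open scoped Classical

/-- extension to more summands -/
private lemma V2_ext {G : Type} [AddCommGroup G] {A : Finset G} {a0 : G} (ha0 : a0 ∈ A) {n k : ℕ}
    (hnk : n ≤ k) {b : Fin n → G} {x : G} (hb : ∀ i, b i + x ∈ A) :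
    ∃ a : Fin k → G, (∀ i, a i ∈ A) ∧ n • x + (k - n) • a0 + ∑ i, b i = ∑ i, a i := by
  obtain ⟨r, rfl⟩ := Nat.exists_eq_add_of_le hnk
  refine ⟨Fin.append (fun i => b i + x) (fun _ => a0), ?_, ?_⟩
  · intro i
    refine Fin.addCases (fun i => ?_) (fun i => ?_) i
    · rw [Fin.append_left]
      exact hb i
    · rw [Fin.append_right]
      exact ha0
  · rw [Fin.sum_univ_add]
    simp only [Fin.append_left, Fin.append_right]
    rw [sum_add_distrib, sum_const, sum_const, card_univ, card_univ, Fintype.card_fin,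
      Fintype.card_fin, Nat.add_sub_cancel_left]
    abel

/-- numerical part: the contraction factor -/
private lemma V2_factor {a C₀ L : ℝ} (ha : 0 < a) (hC : 1 ≤ C₀) (hL : 0 ≤ L) {m : ℕ} (hm : 1 ≤ m) :
    0 < (2 * C₀) ^ (-(1 / a)) * (1 + L) ^ (-(1 / (a * m))) ∧
    (2 * C₀) ^ (-(1 / a)) * (1 + L) ^ (-(1 / (a * m))) ≤ 1 ∧
    C₀ * ((2 * C₀) ^ (-(1 / a)) * (1 + L) ^ (-(1 / (a * m)))) ^ a = 1 / 2 * (1 + L) ^ (-(1 / (m : ℝ))) ∧
    (1 / 2 * (1 + L) ^ (-(1 / (m : ℝ)))) ^ m * L < Real.log 2 := by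
  have hm0 : (0 : ℝ) < m := by exact_mod_cast hm
  have h2C : (0 : ℝ) < 2 * C₀ := by linarith
  have h1L : (0 : ℝ) < 1 + L := by linarith
  have p1 : 0 < (2 * C₀) ^ (-(1 / a)) := Real.rpow_pos_of_pos h2C _
  have p2 : 0 < (1 + L) ^ (-(1 / (a * m))) := Real.rpow_pos_of_pos h1L _
  have q1 : (2 * C₀) ^ (-(1 / a)) ≤ 1 := by
    apply Real.rpow_le_one_of_one_le_of_nonpos (by linarith)
    have : 0 < 1 / a := by positivity
    linarith
  have q2 : (1 + L) ^ (-(1 / (a * m))) ≤ 1 := by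
    apply Real.rpow_le_one_of_one_le_of_nonpos (by linarith)
    have : 0 < 1 / (a * m) := by positivity
    linarith
  refine ⟨mul_pos p1 p2, ?_, ?_, ?_⟩
  · calc (2 * C₀) ^ (-(1 / a)) * (1 + L) ^ (-(1 / (a * m))) ≤ 1 * 1 :=
        mul_le_mul q1 q2 p2.le zero_le_one
      _ = 1 := one_mul 1
  · rw [Real.mul_rpow p1.le p2.le, ← Real.rpow_mul h2C.le, ← Real.rpow_mul h1L.le]
    have e1 : -(1 / a) * a = -1 := by field_simp
    have e2 : -(1 / (a * m)) * a = -(1 / (m : ℝ)) := by field_simp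
    rw [e1, e2, Real.rpow_neg_one]
    field_simp
  · rw [mul_pow, ← Real.rpow_natCast ((1 + L) ^ (-(1 / (m : ℝ)))) m, ← Real.rpow_mul h1L.le]
    have e1 : -(1 / (m : ℝ)) * m = -1 := by field_simp
    rw [e1, Real.rpow_neg_one]
    have h3 : (1 / 2 : ℝ) ^ m ≤ 1 / 2 := by
      calc (1 / 2 : ℝ) ^ m ≤ (1 / 2) ^ 1 := pow_le_pow_of_le_one (by norm_num) (by norm_num) hm
        _ = 1 / 2 := pow_one _
    have h4 : (1 + L)⁻¹ * L ≤ 1 := by
      rw [inv_mul_eq_div, div_le_one h1L]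
      linarith
    have h5 : 0 ≤ (1 + L)⁻¹ * L := by positivity
    have h6 : (1 / 2 : ℝ) ^ m * (1 + L)⁻¹ * L ≤ 1 / 2 * 1 := by
      rw [mul_assoc]
      exact mul_le_mul h3 h4 h5 (by norm_num)
    have h7 := Real.log_two_gt_d9
    linarith

/-- JOB V2. (a) Theorem C2 for a finite group of exponent two, `L = log (|G| / |A|)`.

PROOF. As `loglog_grp` in PB/U4.lean (copy its proof). `a, C₀` from `power_law`, `m = k / 2 - 1 ≥ 1` (natural division; `m ≥ k / 8`, `2 (m + 1) ≤ k`),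
`c = (2 C₀)^(-1/a) (1 + L)^(-1/(a m)) ∈ (0, 1)`. `exists_coset A hA hc` gives `H, x`, `B = slice A H x`, `sub_slice`: `Sub (1 - c) (uA B)`. By `power_law` the
contraction factor is `C₀ c^a = 1/2 (1 + L)^(-1/m) =: 1 - ε`, so `D_cpow`: `log |H| - Hd (cpow B m) ≤ (1/2)^m (1 + L)^(-1) L < log 2`, `all_of_lt`.
`c log [G : H] ≤ L`, so `log [G : H] ≤ (2 C₀)^(1/a) L (1 + L)^(1/(a m))`, and `1/(a m) ≤ (8/a) / k`. `C = max ((2 C₀)^(1/a)) (8/a)`. -/
theorem few_grp : ∃ C : ℝ, 0 < C ∧ ∀ (G : Type) [AddCommGroup G] [Fintype G], (∀ x : G, x + x = 0) →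
    ∀ A : Finset G, A.Nonempty → ∀ k : ℕ, 4 ≤ k →
      ∃ (x : G) (H : AddSubgroup G),
        Real.log (H.index : ℝ) ≤ C * Real.log (Fintype.card G / A.card) *
          (1 + Real.log (Fintype.card G / A.card)) ^ (C / k) ∧
        ∀ y ∈ H, ∃ a : Fin k → G, (∀ i, a i ∈ A) ∧ x + y = ∑ i, a i := by
  obtain ⟨a, C₀, ha, hC₀, hpl⟩ := power_law
  have h2C : (0 : ℝ) < 2 * C₀ := by linarith
  refine ⟨max ((2 * C₀) ^ (1 / a)) (8 / a), lt_max_of_lt_right (by positivity), ?_⟩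
  intro G _ _ h2 A hA k hk
  obtain ⟨m, hmdef⟩ : ∃ m : ℕ, m = k / 2 - 1 := ⟨_, rfl⟩
  have hm1 : 1 ≤ m := by omega
  have hkn : 2 * (m + 1) ≤ k := by omega
  have hkm : k ≤ 8 * m := by omega
  have hm0 : (0 : ℝ) < m := by exact_mod_cast hm1
  have hk0 : (0 : ℝ) < k := by
    have : 0 < k := by omega
    exact_mod_cast this
  have hG0 : (0 : ℝ) < Fintype.card G := by exact_mod_cast Fintype.card_pos
  have hA0 : (0 : ℝ) < A.card := by exact_mod_cast hA.card_pos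
  obtain ⟨L, hL⟩ : ∃ L, L = Real.log (Fintype.card G / A.card) := ⟨_, rfl⟩
  have hAG : (A.card : ℝ) ≤ Fintype.card G := by exact_mod_cast card_le_univ A
  have hL0 : 0 ≤ L := by
    rw [hL]
    apply Real.log_nonneg
    rw [le_div_iff₀ hA0]
    linarith
  rw [← hL]
  have h1L : (0 : ℝ) < 1 + L := by linarith
  obtain ⟨hc0, hc1, hcf, hcl⟩ := V2_factor ha hC₀ hL0 hm1
  obtain ⟨c, hc⟩ : ∃ c, c = (2 * C₀) ^ (-(1 / a)) * (1 + L) ^ (-(1 / (a * m))) := ⟨_, rfl⟩
  rw [← hc] at hc0 hc1 hcf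
  obtain ⟨H, x, hH1, hH2, hH3⟩ := exists_coset A hA hc0
  have hHc : (0 : ℝ) < Nat.card H := by exact_mod_cast Nat.card_pos
  have hcnt : 0 < cnt A H x := by
    by_contra h0
    have h1 : cnt A H x = 0 := by omega
    rw [h1] at hH2
    have : 0 < (A.card : ℝ) / Fintype.card G := by positivity
    simp at hH2
    linarith [hH2]
  obtain ⟨B, hB⟩ : ∃ B, B = slice A H x := ⟨_, rfl⟩
  have hBc : B.card = cnt A H x := by rw [hB]; exact card_slice A H x
  have hBne : B.Nonempty := by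
    rw [← card_pos, hBc]
    exact hcnt
  have hsub : Sub (1 - c) (uA B) := by
    rw [hB]
    exact sub_slice A H x hcnt hH3
  have h2' : ∀ y : H, y + y = 0 := fun y => Subtype.ext (h2 y)
  obtain ⟨ε, hε⟩ : ∃ ε, ε = 1 - 1 / 2 * (1 + L) ^ (-(1 / (m : ℝ))) := ⟨_, rfl⟩
  have hf1 : (1 + L) ^ (-(1 / (m : ℝ))) ≤ 1 := by
    apply Real.rpow_le_one_of_one_le_of_nonpos (by linarith)
    have : 0 < 1 / (m : ℝ) := by positivity
    linarith
  have hf0 : 0 < (1 + L) ^ (-(1 / (m : ℝ))) := Real.rpow_pos_of_pos h1L _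
  have hε0 : 0 < ε := by rw [hε]; linarith
  have hε1 : ε ≤ 1 := by rw [hε]; linarith
  have h1ε : 1 - ε = 1 / 2 * (1 + L) ^ (-(1 / (m : ℝ))) := by rw [hε]; ring
  have hcon : ∀ ν : H → ℝ, IsProb ν → Real.log (Fintype.card H) - Hd (conv (uA B) ν) ≤
      (1 - ε) * (Real.log (Fintype.card H) - Hd ν) := by
    intro ν hν
    have h3 := hpl c hc0 hc1 H h2' (uA B) (isProb_uA hBne) hsub ν hν
    rwa [hcf, ← h1ε] at h3
  have hD := D_cpow hBne hε0 hε1 hcon m
  have hDL : Real.log (Fintype.card H) - Real.log B.card ≤ L := by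
    have hB0 : (0 : ℝ) < B.card := by exact_mod_cast hBne.card_pos
    have hHc' : (0 : ℝ) < Fintype.card H := by exact_mod_cast Fintype.card_pos
    rw [hL, ← Real.log_div hHc'.ne' hB0.ne']
    apply Real.log_le_log (by positivity)
    rw [← hBc, Nat.card_eq_fintype_card] at hH2
    rw [div_le_div_iff₀ hB0 hA0]
    rw [div_le_div_iff₀ hG0 hHc'] at hH2
    linarith
  have hlt : Real.log (Fintype.card H) - Hd (cpow B m) < Real.log 2 := by
    refine lt_of_le_of_lt hD (lt_of_le_of_lt ?_ hcl)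
    rw [h1ε]
    exact mul_le_mul_of_nonneg_left hDL (pow_nonneg (by positivity) _)
  have hall := all_of_lt hBne m hlt
  obtain ⟨a0, ha0⟩ := hA
  refine ⟨(2 * (m + 1)) • x + (k - 2 * (m + 1)) • a0, H, ?_, ?_⟩
  · have hidx : (0 : ℝ) < H.index := by
      exact_mod_cast Nat.pos_of_ne_zero H.index_ne_zero_of_finite
    have h3 : c * Real.log (H.index : ℝ) ≤ L := by
      rw [← Real.log_rpow hidx, hL]
      exact Real.log_le_log (Real.rpow_pos_of_pos hidx _) hH1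
    have h4 : Real.log (H.index : ℝ) ≤ (2 * C₀) ^ (1 / a) * (1 + L) ^ (1 / (a * m)) * L := by
      have e1 : (2 * C₀) ^ (1 / a) * (1 + L) ^ (1 / (a * m)) * c = 1 := by
        rw [hc]
        have e2 : (2 * C₀) ^ (1 / a) * (2 * C₀) ^ (-(1 / a)) = 1 := by
          rw [← Real.rpow_add h2C, add_neg_cancel, Real.rpow_zero]
        have e3 : (1 + L) ^ (1 / (a * m)) * (1 + L) ^ (-(1 / (a * m))) = 1 := by
          rw [← Real.rpow_add h1L, add_neg_cancel, Real.rpow_zero]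
        calc _ = ((2 * C₀) ^ (1 / a) * (2 * C₀) ^ (-(1 / a))) *
              ((1 + L) ^ (1 / (a * m)) * (1 + L) ^ (-(1 / (a * m)))) := by ring
          _ = 1 := by rw [e2, e3, one_mul]
      calc Real.log (H.index : ℝ) =
            (2 * C₀) ^ (1 / a) * (1 + L) ^ (1 / (a * m)) * (c * Real.log (H.index : ℝ)) := by
              rw [← mul_assoc, e1, one_mul]
        _ ≤ _ := mul_le_mul_of_nonneg_left h3 (by positivity)
    have h5 : (1 + L) ^ (1 / (a * m)) ≤ (1 + L) ^ (max ((2 * C₀) ^ (1 / a)) (8 / a) / k) := by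
      apply Real.rpow_le_rpow_of_exponent_le (by linarith)
      calc 1 / (a * m) ≤ 8 / a / k := by
            rw [div_div, div_le_div_iff₀ (by positivity) (by positivity)]
            have : (k : ℝ) ≤ 8 * m := by exact_mod_cast hkm
            nlinarith
        _ ≤ _ := div_le_div_of_nonneg_right (le_max_right _ _) hk0.le
    calc Real.log (H.index : ℝ) ≤ (2 * C₀) ^ (1 / a) * (1 + L) ^ (1 / (a * m)) * L := h4
      _ = (2 * C₀) ^ (1 / a) * L * (1 + L) ^ (1 / (a * m)) := by ring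
      _ ≤ max ((2 * C₀) ^ (1 / a)) (8 / a) * L * (1 + L) ^ (max ((2 * C₀) ^ (1 / a)) (8 / a) / k) := by
          refine mul_le_mul (mul_le_mul_of_nonneg_right (le_max_left _ _) hL0) h5 (by positivity) ?_
          exact mul_nonneg (le_trans (by positivity) (le_max_left _ _)) hL0
  · intro y hy
    obtain ⟨b, hb, hyb⟩ := hall ⟨y, hy⟩
    have hb' : ∀ i, ((b i : H) : G) + x ∈ A := by
      intro i
      have h3 := hb i
      rw [hB] at h3
      unfold slice at h3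
      exact (mem_filter.1 h3).2
    obtain ⟨a', ha', has⟩ := V2_ext ha0 hkn hb'
    refine ⟨a', ha', ?_⟩
    rw [← has]
    congr 1
    have h3 := congrArg (fun z : H => (z : G)) hyb
    simp only [AddSubgroup.val_finsetSum] at h3
    exact h3

/-- (b) Theorem C2.

PROOF. As `loglog_main` in PB/U4.lean: (a) with `G = Fin n → ZMod 2`, `W = AddSubgroup.toZModSubmodule 2 H`, `[G : H] = 2 ^ (n - finrank W)`,
monotonicity of `L ↦ L (1 + L)^(C/k)`; `C / log 2` in place of `C`. -/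
theorem few_main : ∃ C : ℝ, 0 < C ∧ ∀ (n : ℕ) (α : ℝ), 0 < α → α ≤ 1 →
    ∀ A : Finset (Fin n → ZMod 2), α * (2 : ℝ) ^ n ≤ A.card → ∀ k : ℕ, 4 ≤ k →
      ∃ (x : Fin n → ZMod 2) (W : Submodule (ZMod 2) (Fin n → ZMod 2)),
        (n : ℝ) - Module.finrank (ZMod 2) W ≤ C * Real.log (1 / α) * (1 + Real.log (1 / α)) ^ (C / k) ∧
        ∀ w ∈ W, ∃ a : Fin k → (Fin n → ZMod 2), (∀ i, a i ∈ A) ∧ x + w = ∑ i, a i := by
  obtain ⟨C, hC0, hC⟩ := few_grp
  have hlog2 : 0 < Real.log 2 := Real.log_pos (by norm_num)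
  have hlog21 : Real.log 2 ≤ 1 := by
    have := Real.log_two_lt_d9
    linarith
  have hCC : C ≤ C / Real.log 2 := by
    rw [le_div_iff₀ hlog2]
    nlinarith
  refine ⟨C / Real.log 2, by positivity, ?_⟩
  intro n α hα0 hα1 A hA k hk
  have hk0 : (0 : ℝ) < k := by
    have : 0 < k := by omega
    exact_mod_cast this
  have h2 : ∀ x : Fin n → ZMod 2, x + x = 0 := by
    intro x
    funext i
    have : ∀ z : ZMod 2, z + z = 0 := by decide
    exact this (x i)
  have hA0 : (0 : ℝ) < A.card := lt_of_lt_of_le (by positivity) hA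
  have hne : A.Nonempty := by
    rw [← card_pos]
    exact_mod_cast hA0
  have hcard : (Fintype.card (Fin n → ZMod 2) : ℝ) = 2 ^ n := by
    rw [Fintype.card_fun, ZMod.card, Fintype.card_fin]
    push_cast
    rfl
  have hr : (Fintype.card (Fin n → ZMod 2) : ℝ) / A.card ≤ 1 / α := by
    rw [hcard, div_le_div_iff₀ hA0 hα0]
    linarith
  have hr1 : 1 ≤ (Fintype.card (Fin n → ZMod 2) : ℝ) / A.card := by
    rw [le_div_iff₀ hA0, one_mul]
    exact_mod_cast card_le_univ A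
  have hL0 : 0 ≤ Real.log ((Fintype.card (Fin n → ZMod 2) : ℝ) / A.card) := Real.log_nonneg hr1
  have hLL : Real.log ((Fintype.card (Fin n → ZMod 2) : ℝ) / A.card) ≤ Real.log (1 / α) :=
    Real.log_le_log (by linarith) hr
  obtain ⟨x, H, hH1, hH2⟩ := hC (Fin n → ZMod 2) h2 A hne k hk
  refine ⟨x, AddSubgroup.toZModSubmodule 2 H, ?_, ?_⟩
  · obtain ⟨W, hW⟩ : ∃ W, W = AddSubgroup.toZModSubmodule 2 H := ⟨_, rfl⟩
    rw [← hW]
    have hcW : Nat.card W = 2 ^ Module.finrank (ZMod 2) W := by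
      have := Module.natCard_eq_pow_finrank (K := ZMod 2) (V := W)
      rwa [Nat.card_zmod] at this
    have hcH : Nat.card H = Nat.card W := by rw [hW]; rfl
    have hmul := H.index_mul_card
    have hGc : Nat.card (Fin n → ZMod 2) = 2 ^ n := by
      rw [Nat.card_eq_fintype_card, Fintype.card_fun, ZMod.card, Fintype.card_fin]
    rw [hcH, hcW, hGc] at hmul
    have hidx : (0 : ℝ) < H.index := by
      exact_mod_cast Nat.pos_of_ne_zero H.index_ne_zero_of_finite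
    have h3 : Real.log (H.index : ℝ) + Module.finrank (ZMod 2) W * Real.log 2 = n * Real.log 2 := by
      have h4 : (H.index : ℝ) * 2 ^ Module.finrank (ZMod 2) W = 2 ^ n := by exact_mod_cast hmul
      have h5 := congrArg Real.log h4
      rwa [Real.log_mul hidx.ne' (by positivity), Real.log_pow, Real.log_pow] at h5
    have hL1 : 0 ≤ Real.log (1 / α) := hL0.trans hLL
    have h6 : Real.log (H.index : ℝ) ≤
        C * Real.log (1 / α) * (1 + Real.log (1 / α)) ^ (C / Real.log 2 / k) := by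
      refine hH1.trans ?_
      refine mul_le_mul (mul_le_mul_of_nonneg_left hLL hC0.le) ?_
        (Real.rpow_nonneg (add_nonneg zero_le_one hL0) _) (mul_nonneg hC0.le hL1)
      have h9 : (1 + Real.log ((Fintype.card (Fin n → ZMod 2) : ℝ) / A.card)) ^ (C / k) ≤
          (1 + Real.log (1 / α)) ^ (C / k) :=
        Real.rpow_le_rpow (add_nonneg zero_le_one hL0) (add_le_add le_rfl hLL) (by positivity)
      refine h9.trans ?_
      exact Real.rpow_le_rpow_of_exponent_le (by linarith) (div_le_div_of_nonneg_right hCC hk0.le)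
    have h7 : ((n : ℝ) - Module.finrank (ZMod 2) W) * Real.log 2 = Real.log (H.index : ℝ) := by
      linarith
    have h8 : C / Real.log 2 * Real.log (1 / α) * (1 + Real.log (1 / α)) ^ (C / Real.log 2 / k) =
        (C * Real.log (1 / α) * (1 + Real.log (1 / α)) ^ (C / Real.log 2 / k)) / Real.log 2 := by
      ring
    rw [h8, le_div_iff₀ hlog2, h7]
    exact h6
  · intro w hw
    exact hH2 w (by simpa using hw)

end PB
end
end
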